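import Pool.Agent.H735Z.Fund

/-! Places over places (definitions of helper386, docs 319). -/

set_option autoImplicit false
set_option linter.all false
set_option linter.overlappingInstances false

open Module

namespace H735Z

section
variable {k K K' : Type*} [Field k] [Field K] [Field K'] [Algebra k K] [Algebra k K'] [Algebra K K']
  [IsScalarTower k K K']

theorem Over.reg {w : Place k K'} {w0 : Place k K} {e : ℕ} (h : Over w w0 e) {f : K} :
    w.Reg (algebraMap K K' f) ↔ w0.Reg f := by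
  unfold Place.Reg
  rw [h.2 f]
  have : (0 : ℤ) < e := by exact_mod_cast h.1
  simp [mul_nonneg_iff_of_pos_left this]

/-- the map of residue fields -/
noncomputable def Over.resMap {w : Place k K'} {w0 : Place k K} {e : ℕ} (h : Over w w0 e) :
    w0.RF →ₐ[k] w.RF :=
  let φ : w0.O →+* w.O := ((algebraMap K K').comp w0.O.subtype).codRestrict w.O (fun f => h.reg.2 f.2)
  have hφ : IsLocalHom φ := by
    constructor
    intro a ha
    have h1 := (w.isUnit_O_iff (f := algebraMap K K' a.1) (h.reg.2 a.2)).1 ha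
    refine (w0.isUnit_O_iff a.2).2 ⟨fun h0 => h1.1 (by rw [h0, map_zero]), ?_⟩
    have h2 := h1.2
    rw [h.2] at h2
    rcases mul_eq_zero.1 h2 with h3 | h3
    · have := h.1; omega
    · exact h3
  { toRingHom := IsLocalRing.ResidueField.map φ
    commutes' := fun c => by
      change IsLocalRing.ResidueField.map φ (w0.red (algebraMap k K c)) = w.red (algebraMap k K' c)
      rw [w0.red_of_reg (w0.reg_const c), w.red_of_reg (w.reg_const c)]
      change IsLocalRing.ResidueField.map φ (IsLocalRing.residue _ _) = IsLocalRing.residue _ _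
      rw [IsLocalRing.ResidueField.map_residue]
      congr 1
      apply Subtype.ext
      change algebraMap K K' (algebraMap k K c) = _
      rw [← IsScalarTower.algebraMap_apply k K K'] }

theorem Over.resMap_red {w : Place k K'} {w0 : Place k K} {e : ℕ} (h : Over w w0 e) {f : K}
    (hf : w0.Reg f) : h.resMap (w0.red f) = w.red (algebraMap K K' f) := by
  rw [w0.red_of_reg hf, w.red_of_reg (h.reg.2 hf)]
  rfl

/-- composition of a place with an automorphism -/
noncomputable def Place.comp (w : Place k K') (s : K' ≃ₐ[k] K') : Place k K' where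
  ord f := w.ord (s f)
  ord_zero := by rw [map_zero, w.ord_zero]
  ord_mul := by
    intro f g hf hg
    rw [map_mul, w.ord_mul (by simpa using hf) (by simpa using hg)]
  ord_add := by
    intro f g hf hg hfg
    rw [map_add]
    exact w.ord_add (by simpa using hf) (by simpa using hg)
      (by rw [← map_add]; exact (map_ne_zero_iff _ s.injective).2 hfg)
  ord_const := by intro c hc; rw [AlgEquiv.commutes, w.ord_const hc]
  surj := by
    obtain ⟨t, h0, ht⟩ := w.surj
    exact ⟨s.symm t, by simpa using h0, by simpa using ht⟩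

theorem Place.comp_ord (w : Place k K') (s : K' ≃ₐ[k] K') (f : K') : (w.comp s).ord f = w.ord (s f) := rfl


end

section
variable {k K K' : Type*} [Field k] [Field K] [Field K'] [Algebra k K] [Algebra k K'] [Algebra K K']
  [IsScalarTower k K K']

theorem exists_over (w : Place k K') (h : ∃ f : K, w.ord (algebraMap K K' f) ≠ 0) :
    ∃ (e : ℕ) (w0 : Place k K), Over w w0 e := by
  classical
  let φ : K → ℤ := fun f => w.ord (algebraMap K K' f)
  have hφ0 : φ 0 = 0 := by simp [φ, w.ord_zero]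
  have hne : ∀ {f : K}, f ≠ 0 → algebraMap K K' f ≠ 0 := fun hf => by simpa using hf
  have hφm : ∀ {f g : K}, f ≠ 0 → g ≠ 0 → φ (f * g) = φ f + φ g := by
    intro f g hf hg
    simp only [φ, map_mul]
    exact w.ord_mul (hne hf) (hne hg)
  have hφinv : ∀ f : K, φ f⁻¹ = - φ f := by
    intro f
    simp only [φ, map_inv₀]
    exact w.ord_inv _
  have hφz : ∀ (f : K) (n : ℤ), φ (f ^ n) = n * φ f := by
    intro f n
    simp only [φ, map_zpow₀]
    exact w.ord_zpow _ _
  -- the minimal positive value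
  have hex : ∃ n : ℕ, 0 < n ∧ ∃ f : K, f ≠ 0 ∧ φ f = n := by
    obtain ⟨f, hf⟩ := h
    have hf0 : f ≠ 0 := by
      rintro rfl
      exact hf hφ0
    rcases lt_or_gt_of_ne hf with hlt | hgt
    · refine ⟨(-(φ f)).toNat, ?_, f⁻¹, inv_ne_zero hf0, ?_⟩
      · have : φ f < 0 := hlt
        omega
      · rw [hφinv]
        have : φ f < 0 := hlt
        omega
    · refine ⟨(φ f).toNat, ?_, f, hf0, ?_⟩
      · have : 0 < φ f := hgt
        omega
      · have : 0 < φ f := hgt
        omega
  let e := Nat.find hex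
  obtain ⟨he0, t, ht0, ht⟩ := Nat.find_spec hex
  have hdvd : ∀ f : K, (e : ℤ) ∣ φ f := by
    intro f
    by_cases hf : f = 0
    · rw [hf, hφ0]; exact dvd_zero _
    have hE : (0 : ℤ) < e := by exact_mod_cast he0
    have h1 : φ (f * t ^ (-(φ f / e))) = φ f % e := by
      rw [hφm hf (zpow_ne_zero _ ht0), hφz, ht]
      have := Int.emod_add_mul_ediv (φ f) e
      have h2 : (Nat.find hex : ℤ) = e := rfl
      rw [h2]
      linarith
    have h2 := Int.emod_nonneg (φ f) hE.ne'
    have h3 := Int.emod_lt_of_pos (φ f) hE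
    by_contra hnd
    have h4 : φ f % e ≠ 0 := fun h0 => hnd (Int.dvd_of_emod_eq_zero h0)
    have h5 : (φ f % e).toNat < Nat.find hex := by
      have : (Nat.find hex : ℤ) = e := rfl
      omega
    apply Nat.find_min hex h5
    refine ⟨by omega, f * t ^ (-(φ f / e)), mul_ne_zero hf (zpow_ne_zero _ ht0), ?_⟩
    rw [h1]
    omega
  have hE : (0 : ℤ) < e := by exact_mod_cast he0
  have hdiv : ∀ f, φ f = e * (φ f / e) := fun f => (Int.mul_ediv_cancel' (hdvd f)).symm
  refine ⟨e, ⟨fun f => φ f / e, ?_, ?_, ?_, ?_, ?_⟩, ?_⟩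
  · rw [hφ0]; simp
  · intro f g hf hg
    rw [hφm hf hg, Int.add_ediv_of_dvd_left (hdvd f)]
  · intro f g hf hg hfg
    have h1 : min (φ f) (φ g) ≤ φ (f + g) := by
      simp only [φ, map_add]
      exact w.ord_add (hne hf) (hne hg) (by rw [← map_add]; exact hne hfg)
    rcases min_le_iff.1 h1 with h2 | h2
    · exact min_le_iff.2 (Or.inl (Int.ediv_le_ediv hE h2))
    · exact min_le_iff.2 (Or.inr (Int.ediv_le_ediv hE h2))
  · intro c hc
    have : φ (algebraMap k K c) = 0 := by
      simp only [φ]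
      rw [← IsScalarTower.algebraMap_apply k K K']
      exact w.ord_const hc
    rw [this]; simp
  · refine ⟨t, ht0, ?_⟩
    rw [ht]
    exact Int.ediv_self hE.ne'
  · refine ⟨he0, fun f => ?_⟩
    exact hdiv f

end

section dvr

variable {k K : Type*} [Field k] [Field K] [Algebra k K] (P : Place k K)

theorem Place.isDVR : IsDiscreteValuationRing P.O := by
  obtain ⟨t, ht0, ht⟩ := P.surj
  have htr : P.Reg t := Or.inr (by omega)
  have hirr : Irreducible (⟨t, htr⟩ : P.O) := by
    constructor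
    · rw [P.isUnit_O_iff htr]
      rintro ⟨_, h⟩
      omega
    · rintro ⟨a, ha⟩ ⟨b, hb⟩ hab
      have hab' : t = a * b := congrArg Subtype.val hab
      have ha0 : a ≠ 0 := by rintro rfl; apply ht0; simp [hab']
      have hb0 : b ≠ 0 := by rintro rfl; apply ht0; simp [hab']
      have h1 := P.ord_mul ha0 hb0
      rw [← hab', ht] at h1
      have h2 := (P.reg_iff ha0).1 ha
      have h3 := (P.reg_iff hb0).1 hb
      rw [P.isUnit_O_iff ha, P.isUnit_O_iff hb]
      by_cases h4 : P.ord a = 0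
      · exact Or.inl ⟨ha0, h4⟩
      · exact Or.inr ⟨hb0, by omega⟩
  apply IsDiscreteValuationRing.ofHasUnitMulPowIrreducibleFactorization
  refine ⟨⟨t, htr⟩, hirr, ?_⟩
  rintro ⟨f, hf⟩ hf0
  have hf0' : f ≠ 0 := fun h => hf0 (Subtype.ext h)
  have h1 := (P.reg_iff hf0').1 hf
  refine ⟨(P.ord f).toNat, ?_⟩
  have hu : P.ord (f * (t ^ (P.ord f).toNat)⁻¹) = 0 := by
    rw [P.ord_mul hf0' (inv_ne_zero (pow_ne_zero _ ht0)), P.ord_inv, P.ord_pow, ht]
    omega
  have hu0 : f * (t ^ (P.ord f).toNat)⁻¹ ≠ 0 := mul_ne_zero hf0' (inv_ne_zero (pow_ne_zero _ ht0))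
  have hur : P.Reg (f * (t ^ (P.ord f).toNat)⁻¹) := Or.inr hu.ge
  obtain ⟨u, hu'⟩ := (P.isUnit_O_iff hur).2 ⟨hu0, hu⟩
  refine ⟨u, ?_⟩
  apply Subtype.ext
  have h2 : ((u : P.O) : K) = f * (t ^ (P.ord f).toNat)⁻¹ := congrArg Subtype.val hu'
  show ((⟨t, htr⟩ : P.O) ^ (P.ord f).toNat * (u : P.O) : P.O).1 = f
  have h3 : (((⟨t, htr⟩ : P.O) ^ (P.ord f).toNat * (u : P.O) : P.O) : K) =
      t ^ (P.ord f).toNat * ((u : P.O) : K) := by
    push_cast
    rfl
  refine h3.trans ?_
  rw [h2]
  field_simp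

end dvr

section
variable {k K K' : Type*} [Field k] [Field K] [Field K'] [Algebra k K] [Algebra k K'] [Algebra K K']
  [IsScalarTower k K K']

/-- A place regular on the valuation ring of `w0` and positive at a uniformiser lies over `w0`. -/
theorem over_of_reg (w : Place k K') (w0 : Place k K) (t : K) (ht0 : t ≠ 0) (ht : w0.ord t = 1)
    (h1 : ∀ f : K, w0.Reg f → w.Reg (algebraMap K K' f)) (h2 : 0 < w.ord (algebraMap K K' t)) :
    Over w w0 (w.ord (algebraMap K K' t)).toNat := by
  refine ⟨by omega, fun f => ?_⟩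
  by_cases hf : f = 0
  · subst hf
    rw [map_zero, w.ord_zero, w0.ord_zero, mul_zero]
  have hu0 : f * t ^ (-(w0.ord f)) ≠ 0 := mul_ne_zero hf (zpow_ne_zero _ ht0)
  have hu : w0.ord (f * t ^ (-(w0.ord f))) = 0 := by
    rw [w0.ord_mul hf (zpow_ne_zero _ ht0), w0.ord_zpow, ht]; ring
  have h3 := h1 _ (Or.inr hu.ge)
  have h4 := h1 (f * t ^ (-(w0.ord f)))⁻¹ (Or.inr (by rw [w0.ord_inv, hu]; simp))
  have hu0' : algebraMap K K' (f * t ^ (-(w0.ord f))) ≠ 0 :=
    (map_ne_zero (algebraMap K K')).2 hu0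
  have h5 : w.ord (algebraMap K K' (f * t ^ (-(w0.ord f)))) = 0 := by
    have h6 := (w.reg_iff hu0').1 h3
    rw [map_inv₀] at h4
    have h7 := (w.reg_iff (inv_ne_zero hu0')).1 h4
    rw [w.ord_inv] at h7
    omega
  have hf' : algebraMap K K' f ≠ 0 := by simpa using hf
  have ht' : algebraMap K K' t ≠ 0 := by simpa using ht0
  rw [map_mul, map_zpow₀, w.ord_mul hf' (zpow_ne_zero _ ht'), w.ord_zpow] at h5
  have h6 : ((w.ord (algebraMap K K' t)).toNat : ℤ) = w.ord (algebraMap K K' t) := by omega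
  rw [h6]
  linarith

/-- the residue degree -/
theorem relf_eq {w : Place k K'} {w0 : Place k K} {e : ℕ} (h : Over w w0 e) :
    @Place.relf k K' _ _ _ w w0.O _ ((algebraMap K K').comp w0.O.subtype).toAlgebra =
      @finrank w0.RF w.RF _ _ h.resMap.toRingHom.toAlgebra.toModule := by
  let _ : Algebra w0.O K' := ((algebraMap K K').comp w0.O.subtype).toAlgebra
  let _ : Algebra w0.RF w.RF := h.resMap.toRingHom.toAlgebra
  unfold Place.relf
  have hmap : ∀ a : w0.O, w.red (algebraMap w0.O K' a) = h.resMap (w0.red a) := by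
    intro a
    rw [h.resMap_red a.2]
    rfl
  have hcl : ∀ c, h.resMap c ∈ Subfield.closure
      (Set.range fun a : w0.O => w.red (algebraMap w0.O K' a)) := by
    intro c
    obtain ⟨f, hf, rfl⟩ := w0.red_surjective c
    apply Subfield.subset_closure
    exact ⟨⟨f, hf⟩, hmap ⟨f, hf⟩⟩
  let i0 : w0.RF →+* Subfield.closure (Set.range fun a : w0.O => w.red (algebraMap w0.O K' a)) :=
    h.resMap.toRingHom.codRestrict _ hcl
  have hi0 : Function.Bijective i0 := by
    refine ⟨i0.injective, ?_⟩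
    rintro ⟨c, hc⟩
    have h1 : Subfield.closure (Set.range fun a : w0.O => w.red (algebraMap w0.O K' a)) ≤
        h.resMap.toRingHom.fieldRange := by
      rw [Subfield.closure_le]
      rintro _ ⟨a, rfl⟩
      exact ⟨w0.red a, (hmap a).symm⟩
    obtain ⟨d, hd⟩ := h1 hc
    exact ⟨d, Subtype.ext hd⟩
  symm
  refine Algebra.finrank_eq_of_equiv_equiv (RingEquiv.ofBijective i0 hi0) (RingEquiv.refl _) ?_
  ext c
  rfl

/-- The finite set of places over `w0`. -/
theorem exists_places_over [FiniteDimensional K K'] [Algebra.IsSeparable K K'] (w0 : Place k K) :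
    ∃ (S : Finset (Place k K')) (T : Place k K' → ℕ),
      (∀ w e, Over w w0 e → w ∈ S) ∧
      (∀ w ∈ S, ∃ (e : ℕ) (h : Over w w0 e),
        T w = e * @finrank w0.RF w.RF _ _ h.resMap.toRingHom.toAlgebra.toModule ∧ 0 < T w) ∧
      ∑ w ∈ S, T w = finrank K K' := by
  classical
  obtain ⟨t, ht0, ht⟩ := w0.surj
  have htr : w0.Reg t := Or.inr (by omega)
  have : IsDiscreteValuationRing w0.O := w0.isDVR
  let iA : Algebra w0.O K' := ((algebraMap K K').comp w0.O.subtype).toAlgebra
  let ik : Algebra k w0.O := ((algebraMap k K).codRestrict w0.O (fun c => w0.reg_const c)).toAlgebra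
  have : IsScalarTower w0.O K K' := IsScalarTower.of_algebraMap_eq fun _ => rfl
  have : IsScalarTower k w0.O K' := IsScalarTower.of_algebraMap_eq fun c => by
    rw [IsScalarTower.algebraMap_apply k K K']
    rfl
  have hirr : (⟨t, htr⟩ : w0.O) ≠ 0 := fun h => ht0 (congrArg Subtype.val h)
  have hmax : (Ideal.span {(⟨t, htr⟩ : w0.O)}).IsMaximal := by
    have h1 : Ideal.span {(⟨t, htr⟩ : w0.O)} = IsLocalRing.maximalIdeal w0.O := by
      apply le_antisymm
      · rw [Ideal.span_le, Set.singleton_subset_iff]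
        show (⟨t, htr⟩ : w0.O) ∈ IsLocalRing.maximalIdeal w0.O
        rw [IsLocalRing.mem_maximalIdeal, mem_nonunits_iff, w0.isUnit_O_iff htr]
        rintro ⟨_, h⟩
        omega
      · rintro ⟨f, hf⟩ hm
        rw [IsLocalRing.mem_maximalIdeal, mem_nonunits_iff, w0.isUnit_O_iff hf] at hm
        rw [Ideal.mem_span_singleton]
        by_cases hf0 : f = 0
        · exact ⟨0, Subtype.ext (by simp [hf0])⟩
        · have h2 := (w0.reg_iff hf0).1 hf
          have h3 : w0.ord f ≠ 0 := fun h => hm ⟨hf0, h⟩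
          have h4 : w0.Reg (f / t) := by
            right
            rw [w0.ord_div hf0 ht0, ht]
            omega
          refine ⟨⟨f / t, h4⟩, Subtype.ext ?_⟩
          show f = t * (f / t)
          field_simp
    rw [h1]
    infer_instance
  obtain ⟨S, hS, hpos, hsum⟩ := fundamental (k := k) (A := w0.O) (L := K') K
    (IsIntegralClosure.finite w0.O K K' _) (⟨t, htr⟩ : w0.O) hirr hmax
  refine ⟨S, fun w => (w.ord (algebraMap w0.O K' ⟨t, htr⟩)).toNat * w.relf w0.O, ?_, ?_, hsum⟩
  · intro w e h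
    rw [hS]
    refine ⟨fun a => ?_, ?_⟩
    · exact h.reg.2 a.2
    · have h1 : w.ord (algebraMap w0.O K' ⟨t, htr⟩) = e * w0.ord t := h.2 t
      rw [h1, ht]
      have := h.1
      omega
  · intro w hw
    have h1 := (hS w).1 hw
    have h2 : Over w w0 (w.ord (algebraMap K K' t)).toNat :=
      over_of_reg w w0 t ht0 ht (fun f hf => h1.1 ⟨f, hf⟩) h1.2
    refine ⟨_, h2, ?_, ?_⟩
    · rw [← relf_eq h2]
      rfl
    · exact Nat.mul_pos h2.1 (hpos w hw)

theorem Over.unique {w : Place k K'} {w0 : Place k K} {e e' : ℕ} (h : Over w w0 e)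
    (h' : Over w w0 e') : e = e' := by
  obtain ⟨t, ht0, ht⟩ := w0.surj
  have h1 := h.2 t
  have h2 := h'.2 t
  rw [ht] at h1 h2
  omega

end

end H735Z
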