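import Pool.Agent.H735Z.Riemann
import Pool.Agent.H735Z.Over

/-! Approximation theorems deduced from Riemann's theorem. -/

set_option autoImplicit false
set_option linter.all false
set_option linter.overlappingInstances false

open Module

namespace H735Z

section
variable {k κ : Type*} [Field k] [Field κ] [Algebra k κ]

/-- `f` vanishes to order at least `n`. -/
def Place.Ge (P : Place k κ) (n : ℤ) (f : κ) : Prop := f = 0 ∨ n ≤ P.ord f

theorem Place.Ge.add {P : Place k κ} {n : ℤ} {f g : κ} (hf : P.Ge n f) (hg : P.Ge n g) : P.Ge n (f + g) := by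
  by_cases h1 : f = 0
  · rwa [h1, zero_add]
  by_cases h2 : g = 0
  · rwa [h2, add_zero]
  by_cases h3 : f + g = 0
  · exact Or.inl h3
  · right
    exact (le_min (hf.resolve_left h1) (hg.resolve_left h2)).trans (P.ord_add h1 h2 h3)

theorem Place.Ge.mul {P : Place k κ} {n m : ℤ} {f g : κ} (hf : P.Ge n f) (hg : P.Ge m g) : P.Ge (n + m) (f * g) := by
  by_cases h1 : f = 0
  · left; rw [h1, zero_mul]
  by_cases h2 : g = 0
  · left; rw [h2, mul_zero]
  right
  rw [P.ord_mul h1 h2]
  exact add_le_add (hf.resolve_left h1) (hg.resolve_left h2)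

theorem Place.Ge.const {P : Place k κ} (c : k) : P.Ge 0 (algebraMap k κ c) := by
  by_cases h : c = 0
  · left; simp [h]
  · right; rw [P.ord_const h]

theorem Place.Ge.const_mul {P : Place k κ} {n : ℤ} {f : κ} (hf : P.Ge n f) (c : k) :
    P.Ge n (algebraMap k κ c * f) := by
  have := (Place.Ge.const (P := P) c).mul hf
  rwa [zero_add] at this

theorem Place.Ge.neg {P : Place k κ} {n : ℤ} {f : κ} (hf : P.Ge n f) : P.Ge n (-f) := by
  rcases hf with h | h
  · left; rw [h, neg_zero]
  · right; rwa [P.ord_neg]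

theorem Place.Ge.sub {P : Place k κ} {n : ℤ} {f g : κ} (hf : P.Ge n f) (hg : P.Ge n g) : P.Ge n (f - g) := by
  rw [sub_eq_add_neg]; exact hf.add hg.neg

theorem Place.Ge.mono {P : Place k κ} {n m : ℤ} {f : κ} (hf : P.Ge n f) (h : m ≤ n) : P.Ge m f := by
  rcases hf with h1 | h1
  · exact Or.inl h1
  · exact Or.inr (h.trans h1)

theorem Place.ge_ord (P : Place k κ) (f : κ) : P.Ge (P.ord f) f := Or.inr le_rfl

theorem Place.ge_zero (P : Place k κ) (n : ℤ) : P.Ge n 0 := Or.inl rfl

theorem Place.ge_zero_iff (P : Place k κ) {f : κ} : P.Ge 0 f ↔ P.Reg f := Iff.rfl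

theorem Place.ge_one_iff (P : Place k κ) {f : κ} (hf : P.Reg f) : P.Ge 1 f ↔ P.red f = 0 := by
  rw [P.red_eq_zero_iff hf]
  unfold Place.Ge
  constructor
  · rintro (h | h)
    · exact Or.inl h
    · right; omega
  · rintro (h | h)
    · exact Or.inl h
    · right; omega

theorem Place.Ge.sum {P : Place k κ} {n : ℤ} {ι : Type*} (s : Finset ι) (f : ι → κ)
    (h : ∀ i ∈ s, P.Ge n (f i)) : P.Ge n (∑ i ∈ s, f i) := by
  classical
  induction s using Finset.induction_on with
  | empty => simp [P.ge_zero]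
  | insert a s ha ih =>
    rw [Finset.sum_insert ha]
    exact (h a (Finset.mem_insert_self _ _)).add (ih fun i hi => h i (Finset.mem_insert_of_mem hi))

theorem Place.Ge.pow {P : Place k κ} {n : ℤ} {f : κ} (hf : P.Ge n f) (m : ℕ) :
    P.Ge (m * n) (f ^ m) := by
  induction m with
  | zero => right; simp [P.ord_one]
  | succ m ih =>
    rw [pow_succ]
    have := ih.mul hf
    convert this using 1
    push_cast; ring

theorem Place.reg_pow (P : Place k κ) {f : κ} (hf : P.Reg f) (m : ℕ) : P.Reg (f ^ m) := by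
  have := Place.Ge.pow (P.ge_zero_iff.2 hf) m
  rwa [mul_zero] at this

theorem Place.reg_sub (P : Place k κ) {f g : κ} (hf : P.Reg f) (hg : P.Reg g) : P.Reg (f - g) :=
  Place.Ge.sub (P.ge_zero_iff.2 hf) (P.ge_zero_iff.2 hg)

theorem Place.reg_of_ge (P : Place k κ) {n : ℤ} (hn : 0 ≤ n) {f : κ} (hf : P.Ge n f) : P.Reg f :=
  hf.mono hn

/-- An element congruent to `1` is a unit. -/
theorem Place.ord_eq_zero_of_ge_one (P : Place k κ) {g : κ} (h : P.Ge 1 (g - 1)) :
    g ≠ 0 ∧ P.ord g = 0 := by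
  rcases h with h | h
  · rw [sub_eq_zero] at h
    rw [h]; exact ⟨one_ne_zero, P.ord_one⟩
  · by_cases h0 : g - 1 = 0
    · rw [sub_eq_zero] at h0
      rw [h0]; exact ⟨one_ne_zero, P.ord_one⟩
    · have := P.ord_add_eq (f := 1) (g := g - 1) one_ne_zero h0 (by rw [P.ord_one]; omega)
      rw [P.ord_one] at this
      simpa using this

/-- congruent elements have the same residue -/
theorem Place.red_eq_of_ge (P : Place k κ) {f g : κ} (hg : P.Reg g) (h : P.Ge 1 (f - g)) :
    P.Reg f ∧ P.red f = P.red g := by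
  have h1 : P.Reg (f - g) := P.reg_of_ge (by norm_num) h
  have h2 : P.Reg f := by
    have := P.reg_add h1 hg
    rwa [sub_add_cancel] at this
  refine ⟨h2, ?_⟩
  have h3 := (P.ge_one_iff h1).1 h
  rw [P.red_sub h2 hg] at h3
  exact sub_eq_zero.1 h3

end

variable {k K : Type*} [Field k] [Field K] [Algebra k K] [Finite k] [IsFF k K]

theorem mem_LL_ge {D : Place k K →₀ ℤ} {f : K} : f ∈ LL D ↔ ∀ P : Place k K, P.Ge (- D P) f := by
  rw [mem_LL]
  constructor
  · rintro (h | h) P
    · exact Or.inl h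
    · exact Or.inr (h P)
  · intro h
    by_cases hf : f = 0
    · exact Or.inl hf
    · exact Or.inr fun P => (h P).resolve_left hf

theorem LL_inf (D E : Place k K →₀ ℤ) : LL (D ⊓ E) = LL D ⊓ LL E := by
  apply le_antisymm
  · exact le_inf (LL_mono inf_le_left) (LL_mono inf_le_right)
  · intro f hf
    rw [mem_LL_ge]
    intro P
    have h1 := mem_LL_ge.1 hf.1 P
    have h2 := mem_LL_ge.1 hf.2 P
    rw [Finsupp.inf_apply]
    rcases le_total (D P) (E P) with h | h
    · rw [inf_eq_left.2 h]; exact h1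
    · rw [inf_eq_right.2 h]; exact h2

theorem ddeg_sup_add_inf (D E : Place k K →₀ ℤ) :
    ddeg (D ⊔ E) + ddeg (D ⊓ E) = ddeg D + ddeg E := by
  rw [← ddeg_add, ← ddeg_add]
  congr 1
  ext P
  simp only [Finsupp.add_apply, Finsupp.sup_apply, Finsupp.inf_apply]
  rcases le_total (D P) (E P) with h | h
  · rw [sup_eq_right.2 h, inf_eq_left.2 h]; ring
  · rw [sup_eq_left.2 h, inf_eq_right.2 h]

/-- Riemann data. -/
def RData (k K : Type*) [Field k] [Field K] [Algebra k K] [Finite k] [IsFF k K] (γ N : ℤ) : Prop :=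
  ∀ D : Place k K →₀ ℤ, N ≤ ddeg D → ell D = ddeg D - γ

variable (k K) in
theorem exists_rdata : ∃ γ N : ℤ, RData k K γ N := by
  obtain ⟨γ, N, -, h⟩ := riemann k K
  exact ⟨γ, N, h⟩

theorem LL_sup {γ N : ℤ} (hR : RData k K γ N) (D E : Place k K →₀ ℤ) (h : N ≤ ddeg (D ⊓ E)) :
    LL (D ⊔ E) = LL D ⊔ LL E := by
  symm
  apply Submodule.eq_of_le_of_finrank_le
  · exact sup_le (LL_mono le_sup_left) (LL_mono le_sup_right)
  · have h1 := Submodule.finrank_sup_add_finrank_inf_eq (LL D) (LL E)
    rw [← LL_inf] at h1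
    have hD : N ≤ ddeg D := h.trans (ddeg_mono inf_le_left)
    have hE : N ≤ ddeg E := h.trans (ddeg_mono inf_le_right)
    have hS : N ≤ ddeg (D ⊔ E) := hD.trans (ddeg_mono le_sup_left)
    have e1 := hR _ h
    have e2 := hR _ hD
    have e3 := hR _ hE
    have e4 := hR _ hS
    have e5 := ddeg_sup_add_inf D E
    unfold ell at e1 e2 e3 e4
    omega

theorem exists_exact {γ N : ℤ} (hR : RData k K γ N) (D : Place k K →₀ ℤ) (x : Place k K)
    (h : N ≤ ddeg D - x.deg) : ∃ f : K, f ≠ 0 ∧ f ∈ LL D ∧ x.ord f = - D x := by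
  classical
  have hx := x.deg_pos
  have h1 : N ≤ ddeg (D - Finsupp.single x 1) := by rw [ddeg_sub, ddeg_single]; omega
  have e1 := hR _ h1
  have e2 := hR D (by omega)
  rw [ddeg_sub, ddeg_single] at e1
  by_contra hc
  push Not at hc
  have h2 : LL D ≤ LL (D - Finsupp.single x 1) := by
    intro f hf
    by_cases hf0 : f = 0
    · exact Or.inl hf0
    · right
      intro P
      have h3 := (hf.resolve_left hf0) P
      by_cases hP : P = x
      · subst hP
        have := hc f hf0 hf
        simp only [Finsupp.sub_apply, Finsupp.single_eq_same]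
        omega
      · simp only [Finsupp.sub_apply, Finsupp.single_eq_of_ne hP]
        omega
  have h3 := Submodule.finrank_mono h2
  unfold ell at e1 e2
  omega

/-- the sum of the places of a finite set -/
noncomputable def sumT (T : Finset (Place k K)) : Place k K →₀ ℤ := ∑ x ∈ T, Finsupp.single x 1

open Classical in
theorem sumT_apply (T : Finset (Place k K)) (y : Place k K) :
    sumT T y = if y ∈ T then 1 else 0 := by
  unfold sumT
  rw [Finsupp.finset_sum_apply]
  simp [Finsupp.single_apply]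

theorem exists_big (z : Place k K) (E : Place k K →₀ ℤ) (N : ℤ) :
    ∃ j : ℕ, 0 < j ∧ N ≤ ddeg (Finsupp.single z (j : ℤ) + E) := by
  have hz := z.deg_pos
  refine ⟨(N - ddeg E).toNat + 1, by omega, ?_⟩
  rw [ddeg_add, ddeg_single]
  have : (((N - ddeg E).toNat + 1 : ℕ) : ℤ) * 1 ≤ (((N - ddeg E).toNat + 1 : ℕ) : ℤ) * z.deg := by
    apply mul_le_mul_of_nonneg_left _ (by positivity)
    exact_mod_cast hz
  omega

theorem exists_not_mem (T : Finset (Place k K)) : ∃ z : Place k K, z ∉ T := by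
  classical
  by_contra hc
  push Not at hc
  obtain ⟨γ, N, hR⟩ := exists_rdata k K
  obtain ⟨x, -⟩ := exists_place (k := k) (K := K)
  obtain ⟨j, hj, hN⟩ := exists_big x (- sumT (T.erase x)) (N + x.deg)
  obtain ⟨f, hf0, hf, hx⟩ := exists_exact hR (Finsupp.single x (j : ℤ) + - sumT (T.erase x)) x
    (by omega)
  simp only [Finsupp.add_apply, Finsupp.neg_apply, Finsupp.single_eq_same, sumT_apply,
    Finset.notMem_erase, if_false] at hx
  have h1 := x.ord_add_eq (f := f) (g := 1) hf0 one_ne_zero (by rw [x.ord_one]; omega)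
  have h2 : divisor k (f + 1) = Finsupp.single x (-(j : ℤ)) := by
    ext P
    rw [divisor_apply]
    by_cases hP : P = x
    · subst hP
      rw [h1.2, hx]; simp
    · rw [Finsupp.single_eq_of_ne hP]
      have h3 := mem_LL_ge.1 hf P
      simp only [Finsupp.add_apply, Finsupp.neg_apply, Finsupp.single_eq_of_ne hP, sumT_apply,
        Finset.mem_erase, ne_eq, hP, not_false_eq_true, hc P, and_self, if_true] at h3
      exact (P.ord_eq_zero_of_ge_one (g := f + 1) (by simpa using h3)).2
  have h3 := ddeg_divisor (k := k) (f + 1)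
  rw [h2, ddeg_single] at h3
  have hx0 := x.deg_pos
  have : (j : ℤ) * x.deg ≠ 0 := by positivity
  apply this
  linarith

theorem weak_approx0 (Y : Finset (Place k K)) (y : Place k K) (n : ℕ) :
    ∃ e : K, y.Ge n (e - 1) ∧ ∀ y' ∈ Y, y' ≠ y → y'.Ge n e := by
  classical
  obtain ⟨γ, N, hR⟩ := exists_rdata k K
  obtain ⟨z, hz⟩ := exists_not_mem (insert y Y)
  have hzy : z ≠ y := fun h => hz (by rw [h]; exact Finset.mem_insert_self _ _)
  obtain ⟨j, hj, hN⟩ := exists_big z (- (n : ℤ) • sumT (insert y Y)) N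
  let D1 : Place k K →₀ ℤ := Finsupp.single z (j : ℤ) + (- (n : ℤ) • sumT {y})
  let D2 : Place k K →₀ ℤ := Finsupp.single z (j : ℤ) + (- (n : ℤ) • sumT (Y.erase y))
  have h1 : Finsupp.single z (j : ℤ) + (- (n : ℤ) • sumT (insert y Y)) ≤ D1 ⊓ D2 := by
    intro P
    simp only [D1, D2, Finsupp.inf_apply, Finsupp.add_apply, Finsupp.smul_apply, sumT_apply,
      Finset.mem_insert, Finset.mem_singleton, Finset.mem_erase, smul_eq_mul, le_inf_iff]
    by_cases h1 : P = y <;> by_cases h2 : P ∈ Y <;> simp [h1, h2]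
  have h2 := LL_sup hR D1 D2 (hN.trans (ddeg_mono h1))
  have h3 : (1 : K) ∈ LL (D1 ⊔ D2) := by
    right
    intro P
    rw [P.ord_one]
    simp only [D1, D2, Finsupp.sup_apply, Finsupp.add_apply, Finsupp.smul_apply, sumT_apply,
      Finset.mem_singleton, Finset.mem_erase, smul_eq_mul]
    have : (0 : ℤ) ≤ Finsupp.single z (j : ℤ) P := by
      by_cases hP : P = z
      · subst hP; simp
      · rw [Finsupp.single_eq_of_ne hP]
    by_cases h1 : P = y
    · simp only [h1, if_true, ne_eq, not_true_eq_false, false_and, if_false] at this ⊢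
      omega
    · simp only [h1, if_false]
      omega
  rw [h2, Submodule.mem_sup] at h3
  obtain ⟨u1, hu1, u2, hu2, hu⟩ := h3
  refine ⟨u2, ?_, ?_⟩
  · have h4 := mem_LL_ge.1 hu1 y
    simp only [D1, Finsupp.add_apply, Finsupp.smul_apply, sumT_apply, Finset.mem_singleton,
      if_true, Finsupp.single_eq_of_ne hzy.symm, smul_eq_mul] at h4
    have h5 : u2 - 1 = - u1 := by rw [← hu]; ring
    rw [h5]
    exact (h4.mono (by omega)).neg
  · intro y' hy' hne
    have h4 := mem_LL_ge.1 hu2 y'
    have h5 : y' ≠ z := fun h => hz (by rw [← h]; exact Finset.mem_insert_of_mem hy')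
    simp only [D2, Finsupp.add_apply, Finsupp.smul_apply, sumT_apply, Finset.mem_erase,
      Finsupp.single_eq_of_ne h5, smul_eq_mul, ne_eq, hne, not_false_eq_true, hy', and_self,
      if_true] at h4
    exact h4.mono (by omega)

theorem weak_approx (Y : Finset (Place k K)) (t : Place k K → K) (n : ℤ) :
    ∃ b : K, ∀ y ∈ Y, y.Ge n (b - t y) := by
  classical
  let m : ℕ := n.toNat + ∑ y ∈ Y, ∑ y' ∈ Y, (- y.ord (t y')).toNat
  have hm : ∀ y ∈ Y, ∀ y' ∈ Y, n ≤ y.ord (t y') + m := by
    intro y hy y' hy'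
    have h1 : (- y.ord (t y')).toNat ≤ ∑ y' ∈ Y, (- y.ord (t y')).toNat :=
      Finset.single_le_sum (f := fun y' => (- y.ord (t y')).toNat) (fun _ _ => Nat.zero_le _) hy'
    have h2 : ∑ y' ∈ Y, (- y.ord (t y')).toNat ≤ ∑ y ∈ Y, ∑ y' ∈ Y, (- y.ord (t y')).toNat :=
      Finset.single_le_sum (f := fun y => ∑ y' ∈ Y, (- y.ord (t y')).toNat)
        (fun _ _ => Nat.zero_le _) hy
    omega
  choose e he1 he2 using fun y => weak_approx0 Y y m
  refine ⟨∑ y' ∈ Y, t y' * e y', fun y hy => ?_⟩
  rw [← Finset.add_sum_erase Y _ hy]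
  have h1 : t y * e y + ∑ x ∈ Y.erase y, t x * e x - t y =
      t y * (e y - 1) + ∑ x ∈ Y.erase y, t x * e x := by ring
  rw [h1]
  apply Place.Ge.add
  · exact ((y.ge_ord (t y)).mul (he1 y)).mono (hm y hy y hy)
  · apply Place.Ge.sum
    intro x hx
    rw [Finset.mem_erase] at hx
    exact ((y.ge_ord (t x)).mul (he2 x y hy hx.1.symm)).mono (hm y hy x hx.2)

instance (x : Place k K) : Finite x.RF := Module.finite_of_finite k

theorem card_RF (x : Place k K) : Nat.card x.RF = Nat.card k ^ x.deg :=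
  Module.natCard_eq_pow_finrank

theorem pow_card_RF (x : Place k K) (a : x.RF) (j : ℕ) : a ^ (Nat.card k ^ (x.deg * j)) = a := by
  have := Fintype.ofFinite x.RF
  rw [pow_mul, ← card_RF, Nat.card_eq_fintype_card]
  exact FiniteField.pow_card_pow j a

theorem one_lt_card : 1 < Nat.card k := Finite.one_lt_card

theorem finite_deg_le (m : ℕ) : {x : Place k K | x.deg ≤ m}.Finite := by
  obtain ⟨t, ht⟩ := IsFF.exists_transcendental (k := k) (K := K)
  have hq := one_lt_card (k := k)
  let Q := Nat.card k ^ m.factorial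
  have hQ : 1 < Q := Nat.one_lt_pow (Nat.factorial_ne_zero m) hq
  have hw : t ^ Q - t ≠ 0 := by
    intro h
    apply ht
    refine ⟨Polynomial.X ^ Q - Polynomial.X, ?_, by simpa using h⟩
    intro h0
    have := congrArg (fun P => Polynomial.coeff P Q) h0
    simp only [Polynomial.coeff_sub, Polynomial.coeff_X_pow_self, Polynomial.coeff_zero] at this
    rw [Polynomial.coeff_X_of_ne_one (by omega)] at this
    simp at this
  refine ((finite_support (k := k) t).union (finite_support (k := k) (t ^ Q - t))).subset ?_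
  intro x hx
  simp only [Set.mem_setOf_eq] at hx
  by_cases h1 : x.ord t = 0
  · right
    have hr : x.Reg t := Or.inr h1.ge
    have h2 : x.red (t ^ Q - t) = 0 := by
      rw [x.red_sub (x.reg_pow hr _) hr, x.red_pow hr]
      obtain ⟨j, hj⟩ := Nat.dvd_factorial x.deg_pos hx
      simp only [Q]
      rw [hj, pow_card_RF, sub_self]
    rw [x.red_eq_zero_iff (x.reg_sub (x.reg_pow hr _) hr)] at h2
    have := h2.resolve_left hw
    simp only [Set.mem_setOf_eq]
    omega
  · left; exact h1

end H735Z
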