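import Mathlib

/-! Formal Euler products. -/

set_option autoImplicit false
set_option linter.all false

open PowerSeries

namespace H735Z

/-- degree functions with finitely many points of bounded degree -/
structure GoodDeg {ι : Type*} (d : ι → ℕ) : Prop where
  pos : ∀ x, 0 < d x
  fin : ∀ m, {x | d x ≤ m}.Finite

section
variable {ι : Type*} {d : ι → ℕ} {E : Type*} [CommRing E]

/-- effective divisors supported in `U` of degree `m` -/
def Eff (d : ι → ℕ) (U : Set ι) (m : ℕ) : Set (ι →₀ ℕ) :=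
  {D | (∀ x, D x ≠ 0 → x ∈ U) ∧ Finsupp.weight d D = m}

theorem mul_le_weight (D : ι →₀ ℕ) (x : ι) : D x * d x ≤ Finsupp.weight d D := by
  classical
  by_cases h : D x = 0
  · simp [h]
  · rw [Finsupp.weight_apply, Finsupp.sum]
    exact Finset.single_le_sum (f := fun i => D i • d i) (fun _ _ => Nat.zero_le _)
      (Finsupp.mem_support_iff.2 h)

theorem eff_finite (hd : GoodDeg d) (U : Set ι) (m : ℕ) : (Eff d U m).Finite := by
  classical
  let B : ι →₀ ℕ := ∑ x ∈ (hd.fin m).toFinset, Finsupp.single x m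
  refine (Finset.Iic B).finite_toSet.subset ?_
  rintro D ⟨-, hD⟩
  rw [Finset.mem_coe, Finset.mem_Iic]
  intro x
  by_cases h : D x = 0
  · rw [h]; exact Nat.zero_le _
  · have h1 := mul_le_weight (d := d) D x
    rw [hD] at h1
    have h2 := hd.pos x
    have h3 : d x ≤ m := le_trans (Nat.le_mul_of_pos_left _ (Nat.pos_of_ne_zero h)) h1
    have h4 : D x ≤ m := le_trans (Nat.le_mul_of_pos_right _ h2) h1
    have h5 : B x = m := by
      simp only [B, Finsupp.finset_sum_apply, Finsupp.single_apply]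
      rw [Finset.sum_ite_eq']
      simp [h3]
    rw [h5]; exact h4

/-- effective divisors as a finite set -/
noncomputable def EffF (hd : GoodDeg d) (U : Set ι) (m : ℕ) : Finset (ι →₀ ℕ) :=
  (eff_finite hd U m).toFinset

theorem mem_EffF (hd : GoodDeg d) {U : Set ι} {m : ℕ} {D : ι →₀ ℕ} :
    D ∈ EffF hd U m ↔ (∀ x, D x ≠ 0 → x ∈ U) ∧ Finsupp.weight d D = m := by
  unfold EffF; rw [Set.Finite.mem_toFinset]; rfl

/-- the multiplicative weight of a divisor -/
noncomputable def wt (c : ι → E) (D : ι →₀ ℕ) : E := D.prod fun x n => c x ^ n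

theorem wt_zero (c : ι → E) : wt c 0 = 1 := by simp [wt]

theorem wt_add (c : ι → E) (D D' : ι →₀ ℕ) : wt c (D + D') = wt c D * wt c D' := by
  unfold wt
  rw [Finsupp.prod_add_index']
  · intro; simp
  · intro a b1 b2; rw [pow_add]

theorem wt_single (c : ι → E) (x : ι) (n : ℕ) : wt c (Finsupp.single x n) = c x ^ n := by
  unfold wt; rw [Finsupp.prod_single_index]; simp

theorem wt_one (D : ι →₀ ℕ) : wt (fun _ => (1 : E)) D = 1 := by simp [wt]

/-- the expanded Euler product -/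
noncomputable def Eu (hd : GoodDeg d) (U : Set ι) (c : ι → E) : E⟦X⟧ :=
  PowerSeries.mk fun m => ∑ D ∈ EffF hd U m, wt c D

theorem coeff_Eu (hd : GoodDeg d) (U : Set ι) (c : ι → E) (m : ℕ) :
    coeff m (Eu hd U c) = ∑ D ∈ EffF hd U m, wt c D := by
  unfold Eu; rw [coeff_mk]

theorem coeff_Eu_one (hd : GoodDeg d) (U : Set ι) (m : ℕ) :
    coeff m (Eu hd U (fun _ => (1 : E))) = (EffF hd U m).card := by
  rw [coeff_Eu]; simp [wt_one]

theorem Eu_congr (hd : GoodDeg d) (U : Set ι) {c c' : ι → E} (h : ∀ x ∈ U, c x = c' x) :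
    Eu hd U c = Eu hd U c' := by
  ext m
  rw [coeff_Eu, coeff_Eu]
  refine Finset.sum_congr rfl fun D hD => ?_
  unfold wt
  refine Finset.prod_congr rfl fun x hx => ?_
  simp only [h x (((mem_EffF hd).1 hD).1 x (Finsupp.mem_support_iff.1 hx))]

theorem map_Eu_one (hd : GoodDeg d) (U : Set ι) {E' : Type*} [CommRing E'] (φ : E →+* E') :
    PowerSeries.map φ (Eu hd U (fun _ => (1 : E))) = Eu hd U (fun _ => (1 : E')) := by
  ext m
  rw [coeff_map, coeff_Eu_one, coeff_Eu_one, map_natCast]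

theorem Eu_mul (hd : GoodDeg d) {U : Set ι} (c : ι → E) {x : ι} (hx : x ∈ U) :
    Eu hd U c * (1 - C (c x) * X ^ d x) = Eu hd (U \ {x}) c := by
  classical
  ext m
  rw [mul_sub, mul_one, map_sub, ← mul_assoc, coeff_mul_X_pow', coeff_Eu, coeff_Eu,
    ← Finset.sum_filter_add_sum_filter_not (EffF hd U m) (fun D => D x = 0)]
  have h1 : (EffF hd U m).filter (fun D => D x = 0) = EffF hd (U \ {x}) m := by
    ext D
    rw [Finset.mem_filter, mem_EffF, mem_EffF]
    constructor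
    · rintro ⟨⟨h1, h2⟩, h3⟩
      refine ⟨fun y hy => ⟨h1 y hy, ?_⟩, h2⟩
      rintro rfl
      exact hy h3
    · rintro ⟨h1, h2⟩
      refine ⟨⟨fun y hy => (h1 y hy).1, h2⟩, ?_⟩
      by_contra h
      exact (h1 x h).2 rfl
  rw [h1, add_sub_assoc, add_eq_left, sub_eq_zero]
  split_ifs with h
  · rw [mul_comm, coeff_C_mul, coeff_Eu, Finset.mul_sum]
    symm
    refine Finset.sum_bij' (fun D _ => D + Finsupp.single x 1) (fun D _ => D - Finsupp.single x 1)
      ?_ ?_ ?_ ?_ ?_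
    · intro D hD
      rw [mem_EffF] at hD
      rw [Finset.mem_filter, mem_EffF]
      refine ⟨⟨fun y hy => ?_, ?_⟩, by simp⟩
      · by_cases hyx : y = x
        · rw [hyx]; exact hx
        · apply hD.1
          simpa [Finsupp.single_eq_of_ne hyx] using hy
      · rw [map_add, hD.2, Finsupp.weight_single]
        simp; omega
    · intro D hD
      rw [Finset.mem_filter, mem_EffF] at hD
      have h2 : D - Finsupp.single x 1 + Finsupp.single x 1 = D := by
        apply tsub_add_cancel_of_le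
        rw [Finsupp.single_le_iff]
        omega
      rw [mem_EffF]
      refine ⟨fun y hy => hD.1.1 y ?_, ?_⟩
      · intro h0
        apply hy
        simp [h0]
      · have h3 := hD.1.2
        rw [← h2, map_add, Finsupp.weight_single] at h3
        simp at h3
        omega
    · intro D hD
      simp
    · intro D hD
      rw [Finset.mem_filter] at hD
      apply tsub_add_cancel_of_le
      rw [Finsupp.single_le_iff]
      omega
    · intro D hD
      rw [wt_add, wt_single, pow_one, mul_comm]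
  · apply Finset.sum_eq_zero
    intro D hD
    rw [Finset.mem_filter, mem_EffF] at hD
    exfalso
    have h1 := mul_le_weight (d := d) D x
    rw [hD.1.2] at h1
    exact h (le_trans (Nat.le_mul_of_pos_left _ (Nat.pos_of_ne_zero hD.2)) h1)

theorem Eu_mul_prod (hd : GoodDeg d) (c : ι → E) (A : Finset ι) : ∀ {U : Set ι}, (∀ x ∈ A, x ∈ U) →
    Eu hd U c * ∏ x ∈ A, (1 - C (c x) * X ^ d x) = Eu hd (U \ A) c := by
  classical
  induction A using Finset.induction_on with
  | empty => intro U _; simp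
  | insert a A ha ih =>
    intro U hU
    rw [Finset.prod_insert ha, ← mul_assoc, Eu_mul hd c (hU a (Finset.mem_insert_self _ _)), ih]
    · congr 1
      ext y
      simp only [Set.mem_diff, Set.mem_singleton_iff, Finset.mem_coe, Finset.mem_insert]
      tauto
    · intro x hx
      refine ⟨hU x (Finset.mem_insert_of_mem hx), ?_⟩
      rintro rfl
      exact ha hx

theorem Eu_low (hd : GoodDeg d) {U : Set ι} (c : ι → E) {m : ℕ} (h : ∀ x ∈ U, m < d x) :
    (X : E⟦X⟧) ^ (m + 1) ∣ Eu hd U c - 1 := by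
  classical
  rw [X_pow_dvd_iff]
  intro j hj
  rw [map_sub, coeff_Eu, coeff_one]
  have h1 : ∀ D ∈ EffF hd U j, D = 0 := by
    intro D hD
    rw [mem_EffF] at hD
    ext x
    by_contra h0
    have h2 := mul_le_weight (d := d) D x
    have h3 := h x (hD.1 x h0)
    have h4 : d x ≤ D x * d x := Nat.le_mul_of_pos_left _ (Nat.pos_of_ne_zero h0)
    omega
  split_ifs with h0
  · have : EffF hd U j = {0} := by
      ext D
      rw [Finset.mem_singleton]
      refine ⟨h1 D, ?_⟩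
      rintro rfl
      rw [mem_EffF]
      simp [h0]
    rw [this]; simp [wt_zero]
  · rw [sub_zero]
    apply Finset.sum_eq_zero
    intro D hD
    have h2 := h1 D hD
    rw [mem_EffF, h2] at hD
    simp at hD
    omega

theorem constantCoeff_Eu (hd : GoodDeg d) (U : Set ι) (c : ι → E) :
    constantCoeff (Eu hd U c) = 1 := by
  have h := Eu_low hd (U := U) c (m := 0) fun x _ => hd.pos x
  rw [zero_add, pow_one, X_dvd_iff, map_sub, map_one, sub_eq_zero] at h
  exact h

theorem Eu_trunc (hd : GoodDeg d) {U : Set ι} (c : ι → E) {m : ℕ} (A : Finset ι)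
    (hA : ∀ x ∈ A, x ∈ U) (hA' : ∀ x ∈ U, d x ≤ m → x ∈ A) :
    (X : E⟦X⟧) ^ (m + 1) ∣ Eu hd U c * ∏ x ∈ A, (1 - C (c x) * X ^ d x) - 1 := by
  rw [Eu_mul_prod hd c A hA]
  apply Eu_low
  intro x hx
  by_contra h
  exact hx.2 (hA' x hx.1 (by omega))

theorem eq_of_forall_dvd {f g : E⟦X⟧} (h : ∀ m : ℕ, (X : E⟦X⟧) ^ (m + 1) ∣ f - g) : f = g := by
  ext m
  have := (X_pow_dvd_iff.1 (h m)) m (by omega)
  rwa [map_sub, sub_eq_zero] at this

theorem dvd_prod_sub_one {J : Type*} (s : Finset J) (f : J → E⟦X⟧) (a : E⟦X⟧)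
    (h : ∀ j ∈ s, a ∣ f j - 1) : a ∣ ∏ j ∈ s, f j - 1 := by
  classical
  induction s using Finset.induction_on with
  | empty => simp
  | insert b s hb ih =>
    rw [Finset.prod_insert hb]
    have h1 := h b (Finset.mem_insert_self _ _)
    have h2 := ih fun j hj => h j (Finset.mem_insert_of_mem hj)
    have : f b * ∏ j ∈ s, f j - 1 = (f b - 1) * ∏ j ∈ s, f j + (∏ j ∈ s, f j - 1) := by ring
    rw [this]
    exact dvd_add (h1.mul_right _) h2

theorem Eu_fiber {ι' : Type*} {d' : ι' → ℕ} (hd : GoodDeg d) (hd' : GoodDeg d') {U : Set ι}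
    {U' : Set ι'} {J : Type*} (s : Finset J) (c : J → ι → E) (fib : ι → Finset ι')
    (h1 : ∀ y, y ∈ U' ↔ ∃ x ∈ U, y ∈ fib x)
    (h2 : ∀ x x' y, y ∈ fib x → y ∈ fib x' → x = x')
    (h3 : ∀ x y, y ∈ fib x → d x ≤ d' y)
    (h4 : ∀ x ∈ U, ∏ y ∈ fib x, (1 - (X : E⟦X⟧) ^ d' y) = ∏ j ∈ s, (1 - C (c j x) * X ^ d x)) :
    Eu hd' U' (fun _ => (1 : E)) = ∏ j ∈ s, Eu hd U (c j) := by
  classical
  apply eq_of_forall_dvd
  intro m
  let A : Finset ι := (hd.fin m).toFinset.filter (· ∈ U)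
  have hA : ∀ x, x ∈ A ↔ d x ≤ m ∧ x ∈ U := by
    intro x; simp [A]
  let A' : Finset ι' := A.biUnion fib
  let F : E⟦X⟧ := ∏ y ∈ A', (1 - C ((fun _ => (1 : E)) y) * X ^ d' y)
  have hF : F = ∏ j ∈ s, ∏ x ∈ A, (1 - C (c j x) * X ^ d x) := by
    rw [Finset.prod_comm]
    simp only [F, A', map_one, one_mul]
    rw [Finset.prod_biUnion]
    · exact Finset.prod_congr rfl fun x hx => h4 x ((hA x).1 hx).2
    · intro x _ x' _ hne
      rw [Function.onFun, Finset.disjoint_left]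
      intro y hy hy'
      exact hne (h2 x x' y hy hy')
  have e1 : (X : E⟦X⟧) ^ (m + 1) ∣ Eu hd' U' (fun _ => (1 : E)) * F - 1 := by
    apply Eu_trunc
    · intro y hy
      obtain ⟨x, hx, hy⟩ := Finset.mem_biUnion.1 hy
      exact (h1 y).2 ⟨x, ((hA x).1 hx).2, hy⟩
    · intro y hy hm
      obtain ⟨x, hx, hy⟩ := (h1 y).1 hy
      exact Finset.mem_biUnion.2 ⟨x, (hA x).2 ⟨(h3 x y hy).trans hm, hx⟩, hy⟩
  have e2 : (X : E⟦X⟧) ^ (m + 1) ∣ (∏ j ∈ s, Eu hd U (c j)) * F - 1 := by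
    rw [hF, ← Finset.prod_mul_distrib]
    apply dvd_prod_sub_one
    intro j _
    apply Eu_trunc
    · intro x hx; exact ((hA x).1 hx).2
    · intro x hx hm; exact (hA x).2 ⟨hm, hx⟩
  have e3 : Eu hd' U' (fun _ => (1 : E)) - ∏ j ∈ s, Eu hd U (c j) =
      (∏ j ∈ s, Eu hd U (c j)) * (Eu hd' U' (fun _ => (1 : E)) * F - 1) -
        Eu hd' U' (fun _ => (1 : E)) * ((∏ j ∈ s, Eu hd U (c j)) * F - 1) := by ring
  rw [e3]
  exact dvd_sub (e1.mul_left _) (e2.mul_left _)

end

section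
variable {ι : Type*} {d : ι → ℕ} {E : Type*} [Field E] [TopologicalSpace E]

open scoped PowerSeries.WithPiTopology in
theorem hasProd_Eu (hd : GoodDeg d) (U : Set ι) (c : ι → E) :
    HasProd (fun x : {x // x ∈ U} => (1 - C (c x.1) * X ^ d x.1 : E⟦X⟧)⁻¹) (Eu hd U c) := by
  classical
  unfold HasProd
  rw [PowerSeries.WithPiTopology.tendsto_iff_coeff_tendsto]
  intro m
  apply tendsto_nhds_of_eventually_eq
  have hfin : {x : {x // x ∈ U} | d x.1 ≤ m}.Finite :=
    (hd.fin m).preimage Subtype.val_injective.injOn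
  filter_upwards [Filter.eventually_ge_atTop hfin.toFinset] with s hs
  have h1 := Eu_trunc hd (U := U) c (m := m) (s.map (Function.Embedding.subtype _))
    (by
      intro x hx
      obtain ⟨y, -, rfl⟩ := Finset.mem_map.1 hx
      exact y.2)
    (by
      intro x hx hm
      exact Finset.mem_map.2 ⟨⟨x, hx⟩, hs (by simpa using hm), rfl⟩)
  rw [Finset.prod_map] at h1
  simp only [Function.Embedding.coe_subtype] at h1
  have h2 : (∏ x ∈ s, (1 - C (c x.1) * X ^ d x.1 : E⟦X⟧)) *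
      ∏ x ∈ s, (1 - C (c x.1) * X ^ d x.1 : E⟦X⟧)⁻¹ = 1 := by
    rw [← Finset.prod_mul_distrib]
    apply Finset.prod_eq_one
    intro x _
    apply PowerSeries.mul_inv_cancel
    simp [(hd.pos x.1).ne']
  have h3 : Eu hd U c - ∏ x ∈ s, (1 - C (c x.1) * X ^ d x.1 : E⟦X⟧)⁻¹ =
      (Eu hd U c * ∏ x ∈ s, (1 - C (c x.1) * X ^ d x.1 : E⟦X⟧) - 1) *
        ∏ x ∈ s, (1 - C (c x.1) * X ^ d x.1 : E⟦X⟧)⁻¹ := by
    rw [sub_mul, mul_assoc, h2]; ring
  have h4 := (X_pow_dvd_iff.1 (h3 ▸ h1.mul_right _)) m (by omega)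
  rw [map_sub, sub_eq_zero] at h4
  exact h4.symm

open scoped PowerSeries.WithPiTopology in
theorem tprod_eq_Eu [T2Space E] (hd : GoodDeg d) (U : Set ι) (c : ι → E) :
    ∏' x : {x // x ∈ U}, (1 - C (c x.1) * X ^ d x.1 : E⟦X⟧)⁻¹ = Eu hd U c :=
  (hasProd_Eu hd U c).tprod_eq

open scoped PowerSeries.WithPiTopology in
theorem tprod_eq_Eu_univ [T2Space E] (hd : GoodDeg d) :
    ∏' x : ι, (1 - X ^ d x : E⟦X⟧)⁻¹ = Eu hd Set.univ (fun _ => (1 : E)) := by
  rw [← tprod_eq_Eu hd Set.univ (fun _ => (1 : E))]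
  simp only [map_one, one_mul]
  exact ((Equiv.Set.univ ι).tprod_eq (fun x => (1 - X ^ d x : E⟦X⟧)⁻¹)).symm

end

end H735Z
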