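import Pool.Agent.H735Z.Approx
import Pool.Agent.H735Z.Euler

/-! Counting effective divisors in ray classes. -/

set_option autoImplicit false
set_option linter.all false
set_option linter.overlappingInstances false

open Module

namespace H735Z

section
variable {ι Γ : Type*} [CommGroup Γ]

/-- the multiplicative weight of an integral divisor -/
noncomputable def zw (c : ι → Γ) (D : ι →₀ ℤ) : Γ := D.prod fun x n => c x ^ n

theorem zw_zero (c : ι → Γ) : zw c 0 = 1 := by simp [zw]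

theorem zw_add (c : ι → Γ) (D D' : ι →₀ ℤ) : zw c (D + D') = zw c D * zw c D' := by
  unfold zw
  rw [Finsupp.prod_add_index']
  · intro; simp
  · intro a b1 b2; rw [zpow_add]

theorem zw_single (c : ι → Γ) (x : ι) (n : ℤ) : zw c (Finsupp.single x n) = c x ^ n := by
  unfold zw; rw [Finsupp.prod_single_index]; simp

theorem zw_neg (c : ι → Γ) (D : ι →₀ ℤ) : zw c (-D) = (zw c D)⁻¹ := by
  rw [eq_inv_iff_mul_eq_one, ← zw_add, neg_add_cancel, zw_zero]

theorem zw_sub (c : ι → Γ) (D D' : ι →₀ ℤ) : zw c (D - D') = zw c D / zw c D' := by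
  rw [sub_eq_add_neg, zw_add, zw_neg, div_eq_mul_inv]

theorem map_zw {Γ' : Type*} [CommGroup Γ'] (φ : Γ →* Γ') (c : ι → Γ) (D : ι →₀ ℤ) :
    φ (zw c D) = zw (fun x => φ (c x)) D := by
  unfold zw
  rw [map_finsuppProd]
  simp only [map_zpow]

theorem zw_congr {c c' : ι → Γ} {D : ι →₀ ℤ} (h : ∀ x, D x ≠ 0 → c x = c' x) :
    zw c D = zw c' D := by
  unfold zw
  refine Finset.prod_congr rfl fun x hx => ?_
  simp only [h x (Finsupp.mem_support_iff.1 hx)]

theorem zw_one (D : ι →₀ ℤ) : zw (fun _ => (1 : Γ)) D = 1 := by simp [zw]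

end

variable {k K : Type*} [Field k] [Field K] [Algebra k K] [Finite k] [IsFF k K]

variable (k K) in
theorem goodDeg : GoodDeg (fun x : Place k K => x.deg) := ⟨fun x => x.deg_pos, finite_deg_le⟩

theorem nd_apply (D : Place k K →₀ ℕ) (x : Place k K) : nd D x = D x := by
  simp [nd]

theorem ddeg_nd (D : Place k K →₀ ℕ) :
    ddeg (nd D) = Finsupp.weight (fun x : Place k K => x.deg) D := by
  induction D using Finsupp.induction_linear with
  | zero => simp [ddeg_zero]
  | add f g hf hg => rw [map_add, map_add, ddeg_add, hf, hg]; push_cast; ring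
  | single x n => rw [nd_single, ddeg_single, Finsupp.weight_single]; simp

theorem zw_nd {E : Type*} [CommRing E] (c : Place k K → Eˣ) (D : Place k K →₀ ℕ) :
    ((zw c (nd D) : Eˣ) : E) = wt (fun x => (c x : E)) D := by
  induction D using Finsupp.induction_linear with
  | zero => simp [zw_zero, wt_zero]
  | add f g hf hg => rw [map_add, zw_add, wt_add, Units.val_mul, hf, hg]
  | single x n => rw [nd_single, zw_single, wt_single]; simp

/-- the positive part, as a natural valued divisor -/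
noncomputable def tn (E : Place k K →₀ ℤ) : Place k K →₀ ℕ := E.mapRange Int.toNat rfl

theorem tn_apply (E : Place k K →₀ ℤ) (x : Place k K) : tn E x = (E x).toNat := rfl

theorem nd_tn {E : Place k K →₀ ℤ} (h : 0 ≤ E) : nd (tn E) = E := by
  ext x
  rw [nd_apply, tn_apply]
  exact Int.toNat_of_nonneg (h x)

theorem tn_nd (D : Place k K →₀ ℕ) : tn (nd D) = D := by
  ext x
  rw [tn_apply, nd_apply]; simp

/-- `g` is congruent to `1` to order `μ` at the places of `T`. -/
def Cong (T : Finset (Place k K)) (μ : ℕ) (g : K) : Prop := ∀ x ∈ T, x.Ge μ (g - 1)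

theorem Cong.ord {T : Finset (Place k K)} {μ : ℕ} (hμ : 0 < μ) {g : K} (h : Cong T μ g)
    {x : Place k K} (hx : x ∈ T) : g ≠ 0 ∧ x.ord g = 0 :=
  x.ord_eq_zero_of_ge_one ((h x hx).mono (by omega))

theorem Cong.inv {T : Finset (Place k K)} {μ : ℕ} (hμ : 0 < μ) {g : K} (h : Cong T μ g) :
    Cong T μ g⁻¹ := by
  intro x hx
  obtain ⟨h0, h1⟩ := h.ord hμ hx
  have h2 : g⁻¹ - 1 = - ((g - 1) * g⁻¹) := by field_simp; ring
  rw [h2]
  have h3 := (h x hx).mul (x.ge_ord g⁻¹)
  rw [x.ord_inv, h1] at h3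
  simpa using h3.neg

/-- the functions in `L(E)` congruent to one -/
def SS (T : Finset (Place k K)) (μ : ℕ) (E : Place k K →₀ ℤ) : Set K :=
  {g | g ≠ 0 ∧ g ∈ LL E ∧ Cong T μ g}

theorem finite_LL (E : Place k K →₀ ℤ) : (LL E : Set K).Finite := by
  have : Finite (LL E) := Module.finite_of_finite k
  exact Set.toFinite _

theorem finite_SS (T : Finset (Place k K)) (μ : ℕ) (E : Place k K →₀ ℤ) : (SS T μ E).Finite :=
  (finite_LL E).subset fun _ hg => hg.2.1

open Classical in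
theorem card_SS {γ N : ℤ} (hR : RData k K γ N) (T : Finset (Place k K)) {μ : ℕ} (hμ : 0 < μ)
    (E : Place k K →₀ ℤ) (hE : ∀ x ∈ T, E x = 0) (hN : N ≤ ddeg E - μ * ddeg (sumT T)) :
    (SS T μ E).ncard + (if T = ∅ then 1 else 0) =
      Nat.card k ^ (ddeg E - μ * ddeg (sumT T) - γ).toNat := by
  have hdeg : ddeg (E - μ • sumT T) = ddeg E - μ * ddeg (sumT T) := by
    rw [ddeg_sub, ddeg_nsmul]
  have happ : ∀ (D : Place k K →₀ ℤ) (x : Place k K),
      (D - μ • sumT T) x = D x - if x ∈ T then (μ : ℤ) else 0 := by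
    intro D x
    rw [Finsupp.sub_apply, Finsupp.smul_apply, sumT_apply]
    split_ifs <;> simp
  -- a base point
  obtain ⟨g0, hg0, hg1⟩ : ∃ g0 : K, g0 ∈ LL E ∧ Cong T μ g0 := by
    have h1 : E - μ • sumT T ≤ ((E ⊔ 0) - μ • sumT T) ⊓ E := by
      intro x
      rw [Finsupp.inf_apply, happ, happ, Finsupp.sup_apply]
      split_ifs <;> simp
    have h2 := LL_sup hR _ _ ((hdeg ▸ hN).trans (ddeg_mono h1))
    have h3 : (1 : K) ∈ LL (((E ⊔ 0) - μ • sumT T) ⊔ E) := by
      right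
      intro x
      rw [x.ord_one, Finsupp.sup_apply, happ, Finsupp.sup_apply]
      split_ifs with hx
      · simp [hE x hx]
      · simp
    rw [h2, Submodule.mem_sup] at h3
    obtain ⟨u1, hu1, u2, hu2, hu⟩ := h3
    refine ⟨u2, hu2, fun x hx => ?_⟩
    have h4 := mem_LL_ge.1 hu1 x
    rw [happ, Finsupp.sup_apply, if_pos hx, hE x hx] at h4
    have h5 : u2 - 1 = - u1 := by rw [← hu]; ring
    rw [h5]
    exact (h4.mono (by simp)).neg
  let S' : Set K := {g | g ∈ LL E ∧ Cong T μ g}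
  have hS' : S' = (fun u => g0 + u) '' (LL (E - μ • sumT T) : Set K) := by
    ext g
    constructor
    · rintro ⟨h1, h2⟩
      refine ⟨g - g0, ?_, by simp⟩
      rw [SetLike.mem_coe, mem_LL_ge]
      intro x
      rw [happ]
      split_ifs with hx
      · have := (h2 x hx).sub (hg1 x hx)
        rw [hE x hx]
        simpa using this
      · rw [sub_zero]
        exact (mem_LL_ge.1 h1 x).sub (mem_LL_ge.1 hg0 x)
    · rintro ⟨u, hu, rfl⟩
      refine ⟨(LL E).add_mem hg0 (LL_mono ?_ hu), fun x hx => ?_⟩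
      · intro x
        rw [happ]
        split_ifs <;> simp
      · have h1 := mem_LL_ge.1 hu x
        rw [happ, if_pos hx, hE x hx] at h1
        have h2 := (hg1 x hx).add (h1.mono (by simp))
        convert h2 using 1
        ring
  have hcard : S'.ncard = Nat.card k ^ (ddeg E - μ * ddeg (sumT T) - γ).toNat := by
    rw [hS', Set.ncard_image_of_injective _ (add_right_injective g0)]
    have h1 := hR (E - μ • sumT T) (hdeg ▸ hN)
    rw [hdeg] at h1
    rw [← h1]
    unfold ell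
    rw [Int.toNat_natCast, ← Module.natCard_eq_pow_finrank]
    rfl
  have hfin : S'.Finite := (finite_LL E).subset fun _ hg => hg.1
  rw [← hcard]
  split_ifs with hT
  · have h1 : S' = insert 0 (SS T μ E) := by
      ext g
      simp only [S', SS, Set.mem_setOf_eq, Set.mem_insert_iff]
      constructor
      · intro h
        by_cases hg : g = 0
        · exact Or.inl hg
        · exact Or.inr ⟨hg, h⟩
      · rintro (rfl | h)
        · exact ⟨(LL E).zero_mem, fun x hx => by simp [hT] at hx⟩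
        · exact h.2
    rw [h1, Set.ncard_insert_of_notMem (fun h => h.1 rfl) (finite_SS _ _ _)]
  · have h1 : S' = SS T μ E := by
      ext g
      simp only [S', SS, Set.mem_setOf_eq]
      constructor
      · intro h
        obtain ⟨x, hx⟩ := Finset.nonempty_iff_ne_empty.2 hT
        exact ⟨(h.2.ord hμ hx).1, h⟩
      · exact fun h => h.2
    rw [h1, add_zero]

theorem double_count {E : Type*} [CommRing E] (T : Finset (Place k K)) {μ : ℕ} (hμ : 0 < μ)
    (c : Place k K → Eˣ) (hc : ∀ g : K, g ≠ 0 → Cong T μ g → zw c (divisor k g) = 1)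
    (D0 : Place k K →₀ ℤ) (hD0 : ∀ x ∈ T, D0 x = 0) (m m' : ℕ) (hm : (m' : ℤ) = m + ddeg D0)
    (ν ν' : ℕ)
    (hν : ∀ D : Place k K →₀ ℤ, (∀ x ∈ T, D x = 0) → ddeg D = m → (SS T μ D).ncard = ν)
    (hν' : ∀ D : Place k K →₀ ℤ, (∀ x ∈ T, D x = 0) → ddeg D = m' → (SS T μ D).ncard = ν') :
    (ν' : E) * ((zw c D0 : Eˣ) : E) *
        PowerSeries.coeff m (Eu (goodDeg k K) {x | x ∉ T} (fun x => (c x : E))) =
      (ν : E) * PowerSeries.coeff m' (Eu (goodDeg k K) {x | x ∉ T} (fun x => (c x : E))) := by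
  classical
  rw [coeff_Eu, coeff_Eu, Finset.mul_sum, Finset.mul_sum]
  have hT : ∀ {j : ℕ} {D : Place k K →₀ ℕ}, D ∈ EffF (goodDeg k K) {x | x ∉ T} j →
      (∀ x ∈ T, nd D x = 0) ∧ ddeg (nd D) = j := by
    intro j D hD
    rw [mem_EffF] at hD
    refine ⟨fun x hx => ?_, by rw [ddeg_nd, hD.2]⟩
    rw [nd_apply]
    by_contra h
    exact hD.1 x (by simpa using h) hx
  have key : ∀ (D1 : Place k K →₀ ℤ) (hD1 : ∀ x ∈ T, D1 x = 0) (j j' : ℕ)
      (hj : (j' : ℤ) = j + ddeg D1) (D : Place k K →₀ ℕ) (g : K),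
      D ∈ EffF (goodDeg k K) {x | x ∉ T} j → g ∈ SS T μ (nd D + D1) →
      tn (divisor k g + (nd D + D1)) ∈ EffF (goodDeg k K) {x | x ∉ T} j' ∧
      g⁻¹ ∈ SS T μ (nd (tn (divisor k g + (nd D + D1))) + - D1) ∧
      nd (tn (divisor k g + (nd D + D1))) = divisor k g + (nd D + D1) := by
    intro D1 hD1 j j' hj D g hD hg
    obtain ⟨hg0, hg1, hg2⟩ := hg
    rw [mem_LL' hg0] at hg1
    have h1 := nd_tn hg1
    obtain ⟨h2, h3⟩ := hT hD
    refine ⟨?_, ⟨inv_ne_zero hg0, ?_, hg2.inv hμ⟩, h1⟩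
    · rw [mem_EffF]
      refine ⟨fun x hx hxT => hx ?_, ?_⟩
      · rw [tn_apply, Finsupp.add_apply, Finsupp.add_apply, divisor_apply, (hg2.ord hμ hxT).2,
          h2 x hxT, hD1 x hxT]
        rfl
      · have h4 := ddeg_nd (tn (divisor k g + (nd D + D1)))
        rw [h1, ddeg_add, ddeg_add, ddeg_divisor, h3] at h4
        omega
    · rw [mem_LL' (inv_ne_zero hg0), h1, divisor_inv]
      have : -divisor k g + (divisor k g + (nd D + D1) + -D1) = nd D := by abel
      rw [this]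
      intro x
      rw [nd_apply]; simp
  have e1 : ∑ D ∈ EffF (goodDeg k K) {x | x ∉ T} m,
      (ν' : E) * ((zw c D0 : Eˣ) : E) * wt (fun x => (c x : E)) D =
      ∑ z ∈ (EffF (goodDeg k K) {x | x ∉ T} m).sigma
        (fun D => (finite_SS T μ (nd D + D0)).toFinset),
        ((zw c D0 : Eˣ) : E) * wt (fun x => (c x : E)) z.1 := by
    rw [Finset.sum_sigma]
    refine Finset.sum_congr rfl fun D hD => ?_
    obtain ⟨h2, h3⟩ := hT hD
    have h4 := hν' (nd D + D0) (fun x hx => by rw [Finsupp.add_apply, h2 x hx, hD0 x hx]; rfl)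
      (by rw [ddeg_add, h3, hm])
    rw [Set.ncard_eq_toFinset_card _ (finite_SS T μ (nd D + D0))] at h4
    simp only [Finset.sum_const, h4, nsmul_eq_mul]
    ring
  have e2 : ∑ D ∈ EffF (goodDeg k K) {x | x ∉ T} m', (ν : E) * wt (fun x => (c x : E)) D =
      ∑ z ∈ (EffF (goodDeg k K) {x | x ∉ T} m').sigma
        (fun D => (finite_SS T μ (nd D + - D0)).toFinset), wt (fun x => (c x : E)) z.1 := by
    rw [Finset.sum_sigma]
    refine Finset.sum_congr rfl fun D hD => ?_
    obtain ⟨h2, h3⟩ := hT hD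
    have h4 := hν (nd D + - D0) (fun x hx => by
      rw [Finsupp.add_apply, Finsupp.neg_apply, h2 x hx, hD0 x hx]; rfl)
      (by rw [ddeg_add, ddeg_neg, h3, hm]; ring)
    rw [Set.ncard_eq_toFinset_card _ (finite_SS T μ (nd D + - D0))] at h4
    simp only [Finset.sum_const, h4, nsmul_eq_mul]
  rw [e1, e2]
  have hD0' : ∀ x ∈ T, (- D0) x = 0 := fun x hx => by rw [Finsupp.neg_apply, hD0 x hx]; rfl
  have hm' : (m : ℤ) = m' + ddeg (- D0) := by rw [ddeg_neg, hm]; ring
  refine Finset.sum_bij' (fun z _ => ⟨tn (divisor k z.2 + (nd z.1 + D0)), z.2⁻¹⟩)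
    (fun z _ => ⟨tn (divisor k z.2 + (nd z.1 + - D0)), z.2⁻¹⟩) ?_ ?_ ?_ ?_ ?_
  · rintro ⟨D, g⟩ hz
    rw [Finset.mem_sigma, Set.Finite.mem_toFinset] at hz ⊢
    obtain ⟨h1, h2, -⟩ := key D0 hD0 m m' hm D g hz.1 hz.2
    exact ⟨h1, h2⟩
  · rintro ⟨D, g⟩ hz
    rw [Finset.mem_sigma, Set.Finite.mem_toFinset] at hz ⊢
    obtain ⟨h1, h2, -⟩ := key (- D0) hD0' m' m hm' D g hz.1 hz.2
    rw [neg_neg] at h2
    exact ⟨h1, h2⟩
  · rintro ⟨D, g⟩ hz
    rw [Finset.mem_sigma, Set.Finite.mem_toFinset] at hz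
    obtain ⟨-, -, h3⟩ := key D0 hD0 m m' hm D g hz.1 hz.2
    simp only [h3, divisor_inv, inv_inv]
    have : -divisor k g + (divisor k g + (nd D + D0) + -D0) = nd D := by abel
    rw [this, tn_nd]
  · rintro ⟨D, g⟩ hz
    rw [Finset.mem_sigma, Set.Finite.mem_toFinset] at hz
    obtain ⟨-, -, h3⟩ := key (- D0) hD0' m' m hm' D g hz.1 hz.2
    simp only [h3, divisor_inv, inv_inv]
    have : -divisor k g + (divisor k g + (nd D + -D0) + D0) = nd D := by abel
    rw [this, tn_nd]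
  · rintro ⟨D, g⟩ hz
    rw [Finset.mem_sigma, Set.Finite.mem_toFinset] at hz
    obtain ⟨-, -, h3⟩ := key D0 hD0 m m' hm D g hz.1 hz.2
    simp only
    rw [← zw_nd, ← zw_nd, h3, zw_add, zw_add, hc g hz.2.1 hz.2.2.2]
    simp [mul_comm]

/-- The L-series of a ray class character that is nontrivial in degree zero is a polynomial. -/
theorem poly_of_nontrivial {E : Type*} [Field E] [CharZero E] (T : Finset (Place k K)) {μ : ℕ}
    (hμ : 0 < μ) (c : Place k K → Eˣ)
    (hc : ∀ g : K, g ≠ 0 → Cong T μ g → zw c (divisor k g) = 1)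
    (D0 : Place k K →₀ ℤ) (hD0 : ∀ x ∈ T, D0 x = 0) (hdeg : ddeg D0 = 0) (hne : zw c D0 ≠ 1) :
    ∃ P : Polynomial E, (P : PowerSeries E) = Eu (goodDeg k K) {x | x ∉ T} (fun x => (c x : E)) := by
  classical
  obtain ⟨γ, N, hR⟩ := exists_rdata k K
  let N' : ℕ := (max N (γ + 1) + μ * ddeg (sumT T)).toNat
  refine ⟨PowerSeries.trunc N' (Eu (goodDeg k K) {x | x ∉ T} (fun x => (c x : E))), ?_⟩
  ext m
  rw [Polynomial.coeff_coe, PowerSeries.coeff_trunc]
  split_ifs with h
  · rfl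
  have h1 : max N (γ + 1) + μ * ddeg (sumT T) ≤ m := by omega
  have h2 := le_max_left N (γ + 1)
  have h3 := le_max_right N (γ + 1)
  let ν := Nat.card k ^ ((m : ℤ) - μ * ddeg (sumT T) - γ).toNat - (if T = ∅ then 1 else 0)
  have hν : ∀ D : Place k K →₀ ℤ, (∀ x ∈ T, D x = 0) → ddeg D = m → (SS T μ D).ncard = ν := by
    intro D hD hm
    have := card_SS hR T hμ D hD (by omega)
    rw [hm] at this
    simp only [ν]
    omega
  have hν0 : ν ≠ 0 := by
    have h4 : 1 < Nat.card k ^ ((m : ℤ) - μ * ddeg (sumT T) - γ).toNat :=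
      Nat.one_lt_pow (by omega) one_lt_card
    simp only [ν]
    split_ifs <;> omega
  have h4 := double_count T hμ c hc D0 hD0 m m (by rw [hdeg, add_zero]) ν ν hν hν
  rw [mul_assoc, mul_right_inj' (by exact_mod_cast hν0)] at h4
  have h5 : ((zw c D0 : Eˣ) : E) - 1 ≠ 0 := by
    rw [sub_ne_zero]
    intro h6
    exact hne (Units.ext h6)
  symm
  apply mul_left_cancel₀ h5
  rw [sub_mul, h4]; ring

variable (k K) in
/-- The coefficients of the zeta function in large degrees. -/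
theorem zeta_coeff : ∃ (δ N : ℕ) (α β : ℚ), 0 < δ ∧ (∀ x : Place k K, δ ∣ x.deg) ∧ α ≠ 0 ∧
    ∀ m : ℕ, N ≤ m → ((EffF (goodDeg k K) Set.univ m).card : ℚ) =
      if δ ∣ m then α * (Nat.card k : ℚ) ^ m - β else 0 := by
  classical
  obtain ⟨γ, N, hR⟩ := exists_rdata k K
  let H : AddSubgroup ℤ :=
    { carrier := Set.range (fun D : Place k K →₀ ℤ => ddeg D)
      zero_mem' := ⟨0, ddeg_zero⟩
      add_mem' := by
        rintro _ _ ⟨D, rfl⟩ ⟨D', rfl⟩
        exact ⟨D + D', ddeg_add _ _⟩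
      neg_mem' := by
        rintro _ ⟨D, rfl⟩
        exact ⟨-D, ddeg_neg _⟩ }
  obtain ⟨a, ha⟩ := Int.subgroup_cyclic H
  have hH : ∀ n : ℤ, n ∈ H ↔ (a.natAbs : ℤ) ∣ n := by
    intro n
    rw [ha, ← AddSubgroup.zmultiples_eq_closure, Int.mem_zmultiples_iff, Int.natAbs_dvd]
  have hdvd : ∀ x : Place k K, a.natAbs ∣ x.deg := by
    intro x
    have : ((x.deg : ℕ) : ℤ) ∈ H := ⟨Finsupp.single x 1, by simp [ddeg_single]⟩
    exact_mod_cast (hH _).1 this
  have hδ : 0 < a.natAbs := by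
    obtain ⟨x, -⟩ := exists_place (k := k) (K := K)
    exact Nat.pos_of_dvd_of_pos (hdvd x) x.deg_pos
  set δ := a.natAbs
  let N' : ℕ := (max N (γ + 1)).toNat
  have h2 := le_max_left N (γ + 1)
  have h3 := le_max_right N (γ + 1)
  have hq : (1 : ℚ) < Nat.card k := by exact_mod_cast one_lt_card (k := k)
  have hq0 : (Nat.card k : ℚ) ≠ 0 := by positivity
  let ν : ℕ → ℕ := fun m => Nat.card k ^ ((m : ℤ) - γ).toNat - 1
  have hν : ∀ m : ℕ, N' ≤ m → ∀ D : Place k K →₀ ℤ, (∀ x ∈ (∅ : Finset (Place k K)), D x = 0) →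
      ddeg D = m → (SS ∅ 1 D).ncard = ν m := by
    intro m hm D hD hDm
    have h0 : ddeg (sumT (∅ : Finset (Place k K))) = 0 := by simp [sumT, ddeg_zero]
    have := card_SS hR ∅ one_pos D hD (by rw [h0]; omega)
    rw [hDm, h0, if_pos rfl, mul_zero, sub_zero] at this
    simp only [ν]
    omega
  have hν1 : ∀ m : ℕ, N' ≤ m → 1 < Nat.card k ^ ((m : ℤ) - γ).toNat := fun m hm =>
    Nat.one_lt_pow (by omega) one_lt_card
  have hν2 : ∀ m : ℕ, N' ≤ m → (ν m : ℚ) = (Nat.card k : ℚ) ^ (-γ) * (Nat.card k : ℚ) ^ m - 1 := by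
    intro m hm
    simp only [ν]
    rw [Nat.cast_sub (hν1 m hm).le]
    push_cast
    rw [← zpow_natCast, ← zpow_natCast, ← zpow_add₀ hq0]
    congr 2
    omega
  have hU : {x : Place k K | x ∉ (∅ : Finset (Place k K))} = Set.univ := by simp
  have hrel : ∀ m m' : ℕ, N' ≤ m → N' ≤ m' → δ ∣ m → δ ∣ m' →
      (ν m' : ℚ) * (EffF (goodDeg k K) Set.univ m).card =
        (ν m : ℚ) * (EffF (goodDeg k K) Set.univ m').card := by
    intro m m' hm hm' hd hd'
    obtain ⟨D0, hD0⟩ : ((m' : ℤ) - m) ∈ H := by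
      rw [hH]
      exact dvd_sub (by exact_mod_cast hd') (by exact_mod_cast hd)
    have h4 := double_count (E := ℚ) ∅ one_pos (fun _ => 1) (fun g _ _ => zw_one _) D0
      (by simp) m m' (by simp only at hD0; rw [hD0]; ring) (ν m) (ν m') (hν m hm) (hν m' hm')
    simp only [zw_one, Units.val_one, mul_one, hU, coeff_Eu_one] at h4
    exact h4
  let m0 := δ * N'
  have hm0 : N' ≤ m0 := Nat.le_mul_of_pos_left _ hδ
  have hpos : (EffF (goodDeg k K) Set.univ m0).card ≠ 0 := by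
    obtain ⟨D0, hD0⟩ : (m0 : ℤ) ∈ H := by
      rw [hH]; exact_mod_cast Dvd.intro _ rfl
    simp only at hD0
    have h4 := hR D0 (by omega)
    obtain ⟨f, hf, hf0⟩ := exists_ne_zero_of_ell_pos (D := D0) (by omega)
    rw [mem_LL' hf0] at hf
    rw [Finset.card_ne_zero]
    refine ⟨tn (divisor k f + D0), (mem_EffF _).2 ⟨fun _ _ => trivial, ?_⟩⟩
    have h5 := ddeg_nd (tn (divisor k f + D0))
    rw [nd_tn hf, ddeg_add, ddeg_divisor, hD0] at h5
    omega
  have hν0 : (ν m0 : ℚ) ≠ 0 := by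
    have := hν1 m0 hm0
    have h5 : ν m0 ≠ 0 := by simp only [ν]; omega
    exact_mod_cast h5
  let κ : ℚ := (EffF (goodDeg k K) Set.univ m0).card / ν m0
  have hκ : κ ≠ 0 := div_ne_zero (by exact_mod_cast hpos) hν0
  refine ⟨δ, N', κ * (Nat.card k : ℚ) ^ (-γ), κ, hδ, hdvd,
    mul_ne_zero hκ (zpow_ne_zero _ hq0), fun m hm => ?_⟩
  split_ifs with hd
  · have h4 := hrel m m0 hm hm0 hd (Dvd.intro _ rfl)
    have h5 : ((EffF (goodDeg k K) Set.univ m).card : ℚ) = κ * ν m := by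
      simp only [κ]
      field_simp
      linear_combination h4
    rw [h5, hν2 m hm]; ring
  · rw [Nat.cast_eq_zero, Finset.card_eq_zero, Finset.eq_empty_iff_forall_notMem]
    intro D hD
    rw [mem_EffF] at hD
    apply hd
    have : (m : ℤ) ∈ H := ⟨nd D, by simp only; rw [ddeg_nd, hD.2]⟩
    exact_mod_cast (hH _).1 this

variable (k K) in
/-- Rationality of the zeta function, with a simple pole at `1/q`. -/
theorem zeta_rat : ∃ (δ : ℕ) (W : Polynomial ℚ), 0 < δ ∧ (∀ x : Place k K, δ ∣ x.deg) ∧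
    W.eval (Nat.card k : ℚ)⁻¹ ≠ 0 ∧
    (W : PowerSeries ℚ) = (1 - PowerSeries.X ^ δ) *
      (1 - (PowerSeries.C (Nat.card k : ℚ) * PowerSeries.X) ^ δ) *
        Eu (goodDeg k K) Set.univ (fun _ => (1 : ℚ)) := by
  classical
  obtain ⟨δ, N, α, β, hδ, hdvd, hα, hN⟩ := zeta_coeff k K
  have hq : (1 : ℚ) < Nat.card k := by exact_mod_cast one_lt_card (k := k)
  set q : ℚ := (Nat.card k : ℚ)
  let G : ℚ → PowerSeries ℚ := fun b => PowerSeries.mk fun m => if δ ∣ m then b ^ m else 0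
  have hG : ∀ b, (1 - (PowerSeries.C b * PowerSeries.X) ^ δ) * G b = 1 := by
    intro b
    ext m
    rw [sub_mul, one_mul, mul_pow, ← map_pow, map_sub, mul_assoc, PowerSeries.coeff_C_mul,
      PowerSeries.coeff_X_pow_mul', PowerSeries.coeff_one]
    simp only [G, PowerSeries.coeff_mk]
    by_cases h1 : δ ≤ m
    · have h2 : m ≠ 0 := by omega
      rw [if_pos h1, if_neg h2]
      by_cases h3 : δ ∣ m
      · rw [if_pos h3, if_pos ((Nat.dvd_sub_iff_left h1 dvd_rfl).2 h3), ← pow_add,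
          Nat.add_sub_cancel' h1, sub_self]
      · rw [if_neg h3, if_neg (fun h => h3 ((Nat.dvd_sub_iff_left h1 dvd_rfl).1 h))]
        simp
    · rw [if_neg h1]
      by_cases h2 : m = 0
      · simp [h2]
      · rw [if_neg h2, if_neg (fun h => h1 (Nat.le_of_dvd (Nat.pos_of_ne_zero h2) h))]
        simp
  let Z := Eu (goodDeg k K) Set.univ (fun _ => (1 : ℚ))
  let R : Polynomial ℚ := PowerSeries.trunc N (Z - PowerSeries.C α * G q + PowerSeries.C β * G 1)
  have hR : (R : PowerSeries ℚ) = Z - PowerSeries.C α * G q + PowerSeries.C β * G 1 := by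
    ext m
    rw [Polynomial.coeff_coe, PowerSeries.coeff_trunc]
    split_ifs with h
    · rfl
    · rw [map_add, map_sub, PowerSeries.coeff_C_mul, PowerSeries.coeff_C_mul, coeff_Eu_one,
        hN m (by omega)]
      simp only [G, PowerSeries.coeff_mk]
      split_ifs <;> simp
  refine ⟨δ, R * (1 - Polynomial.X ^ δ) * (1 - (Polynomial.C q * Polynomial.X) ^ δ) +
    Polynomial.C α * (1 - Polynomial.X ^ δ) -
    Polynomial.C β * (1 - (Polynomial.C q * Polynomial.X) ^ δ), hδ, hdvd, ?_, ?_⟩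
  · have h1 : q * q⁻¹ = 1 := mul_inv_cancel₀ (by positivity)
    simp only [Polynomial.eval_sub, Polynomial.eval_add, Polynomial.eval_mul, Polynomial.eval_pow,
      Polynomial.eval_C, Polynomial.eval_X, Polynomial.eval_one, h1, one_pow, sub_self, mul_zero,
      zero_add, sub_zero]
    refine mul_ne_zero hα ?_
    have : q⁻¹ ^ δ < 1 := pow_lt_one₀ (by positivity) (inv_lt_one_of_one_lt₀ hq) hδ.ne'
    linarith
  · have h1 := hG q
    have h2 := hG 1
    rw [map_one, one_mul] at h2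
    have h3 : Z = R + PowerSeries.C α * G q - PowerSeries.C β * G 1 := by rw [hR]; ring
    change _ = _ * _ * Z
    rw [h3]
    push_cast
    linear_combination (-(PowerSeries.C α) * (1 - PowerSeries.X ^ δ)) * h1 +
      (PowerSeries.C β * (1 - (PowerSeries.C q * PowerSeries.X) ^ δ)) * h2

end H735Z
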