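import Pool.Agent.H735Z.Galois
import Pool.Agent.H735Z.Count

/-! A weak Chebotarev theorem and the theorem of F. K. Schmidt. -/

set_option autoImplicit false
set_option linter.all false
set_option linter.overlappingInstances false

open Module

namespace H735Z

section
variable {k K : Type*} [Field k] [Field K] [Algebra k K] [Finite k] [IsFF k K]

/-- the finite Euler factor -/
noncomputable def facT (E : Type*) [CommRing E] (T : Finset (Place k K)) : Polynomial E :=
  ∏ x ∈ T, (1 - Polynomial.X ^ x.deg)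

theorem Eu_univ_mul (E : Type*) [CommRing E] (T : Finset (Place k K)) :
    Eu (goodDeg k K) Set.univ (fun _ => (1 : E)) * (facT E T : PowerSeries E) =
      Eu (goodDeg k K) {x | x ∉ T} (fun _ => (1 : E)) := by
  have h1 := Eu_mul_prod (goodDeg k K) (fun _ => (1 : E)) T (U := Set.univ) (fun _ _ => trivial)
  have h2 : (Set.univ \ (T : Set (Place k K))) = {x | x ∉ T} := by ext; simp
  rw [h2] at h1
  rw [← h1]
  congr 1
  unfold facT
  rw [← Polynomial.coeToPowerSeries.ringHom_apply, map_prod]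
  simp

theorem eval_facT_ne (T : Finset (Place k K)) : (facT ℚ T).eval (Nat.card k : ℚ)⁻¹ ≠ 0 := by
  have hq : (1 : ℚ) < Nat.card k := by exact_mod_cast one_lt_card (k := k)
  unfold facT
  rw [Polynomial.eval_prod, Finset.prod_ne_zero_iff]
  intro x _
  simp only [Polynomial.eval_sub, Polynomial.eval_one, Polynomial.eval_pow, Polynomial.eval_X]
  have : ((Nat.card k : ℚ))⁻¹ ^ x.deg < 1 :=
    pow_lt_one₀ (by positivity) (inv_lt_one_of_one_lt₀ hq) x.deg_pos.ne'
  linarith

end

variable {k K L : Type*} [Field k] [Field K] [Field L] [Algebra k K] [Algebra k L] [Algebra K L]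
  [IsScalarTower k K L] [Finite k] [IsFF k K] [IsFF k L] [FiniteDimensional K L] [IsGalois K L]

variable (L) in
open Classical in
/-- the places above a finite set of places -/
noncomputable def aboveT (T : Finset (Place k K)) : Finset (Place k L) := T.biUnion (above L)

theorem mem_aboveT {T : Finset (Place k K)} {y : Place k L} :
    y ∈ aboveT L T ↔ ∃ x ∈ T, ∃ e, Over y x e := by
  classical
  unfold aboveT
  simp only [Finset.mem_biUnion, mem_above]

theorem prod_formula {E : Type*} [CommRing E] (T : Finset (Place k K)) {J : Type*} (s : Finset J)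
    (c : J → Place k K → E)
    (h : ∀ x, x ∉ T → ∏ y ∈ above L x, (1 - (PowerSeries.X : PowerSeries E) ^ y.deg) =
      ∏ j ∈ s, (1 - PowerSeries.C (c j x) * PowerSeries.X ^ x.deg)) :
    Eu (goodDeg k L) {y | y ∉ aboveT L T} (fun _ => (1 : E)) =
      ∏ j ∈ s, Eu (goodDeg k K) {x | x ∉ T} (c j) := by
  apply Eu_fiber (goodDeg k K) (goodDeg k L) s c (above L)
  · intro y
    simp only [Set.mem_setOf_eq, mem_aboveT, mem_above]
    obtain ⟨e, x, hx⟩ := exists_under (K := K) y
    constructor
    · intro h1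
      exact ⟨x, fun h2 => h1 ⟨x, h2, e, hx⟩, e, hx⟩
    · rintro ⟨x1, h1, e1, h2⟩ ⟨x2, h3, e2, h4⟩
      rw [h2.under_unique h4] at h1
      exact h1 h3
  · intro x x' y h1 h2
    obtain ⟨e1, h1⟩ := mem_above.1 h1
    obtain ⟨e2, h2⟩ := mem_above.1 h2
    exact h1.under_unique h2
  · intro x y h1
    obtain ⟨e1, h1⟩ := mem_above.1 h1
    exact Nat.le_of_dvd y.deg_pos ⟨_, h1.deg_mul.symm⟩
  · exact h

theorem local_factor {E : Type*} [CommRing E] {x : Place k K} (hx : ¬ Ramified L x)
    {σ : L ≃ₐ[K] L} (hσ : ∀ (y : Place k L) (e : ℕ), Over y x e → FrobAt y x σ) :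
    (above L x).card * orderOf σ = Nat.card (L ≃ₐ[K] L) ∧
    ∏ y ∈ above L x, (1 - (PowerSeries.X : PowerSeries E) ^ y.deg) =
      (1 - (PowerSeries.X ^ x.deg) ^ orderOf σ) ^ (above L x).card := by
  constructor
  · obtain ⟨y, e, h⟩ := exists_above L x
    exact (hσ y e h).card h (inert_eq_bot h hx)
  · rw [← Finset.prod_const]
    refine Finset.prod_congr rfl fun y hy => ?_
    obtain ⟨e, h⟩ := mem_above.1 hy
    rw [← pow_mul, (hσ y e h).deg h (inert_eq_bot h hx)]

theorem weak_chebotarev (T : Finset (Place k K))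
    (h : ∀ x, x ∉ T → ¬ Ramified L x ∧ ∀ (y : Place k L) (e : ℕ), Over y x e →
      FrobAt y x (1 : L ≃ₐ[K] L)) : Nat.card (L ≃ₐ[K] L) = 1 := by
  classical
  obtain ⟨N, hN⟩ : ∃ N, Nat.card (L ≃ₐ[K] L) = N + 1 :=
    ⟨Nat.card (L ≃ₐ[K] L) - 1, by have := Nat.card_pos (α := L ≃ₐ[K] L); omega⟩
  rw [hN]
  by_contra hN1
  have hN0 : N ≠ 0 := by omega
  have h1 := prod_formula (L := L) (E := ℚ) T (Finset.range (N + 1)) (fun _ _ => 1) (by
    intro x hx
    obtain ⟨h2, h3⟩ := local_factor (E := ℚ) (h x hx).1 (h x hx).2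
    rw [orderOf_one, mul_one] at h2
    rw [h3, h2, hN]
    simp)
  rw [Finset.prod_const, Finset.card_range, ← Eu_univ_mul, ← Eu_univ_mul] at h1
  obtain ⟨δ, W, hδ, -, hW, hW'⟩ := zeta_rat k K
  obtain ⟨δ', V, hδ', -, hV, hV'⟩ := zeta_rat k L
  have hq : (1 : ℚ) < Nat.card k := by exact_mod_cast one_lt_card (k := k)
  set q : ℚ := (Nat.card k : ℚ)
  have h2 : V * facT ℚ (aboveT L T) *
      ((1 - Polynomial.X ^ δ) * (1 - (Polynomial.C q * Polynomial.X) ^ δ)) ^ (N + 1) =
      (W * facT ℚ T) ^ (N + 1) *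
        ((1 - Polynomial.X ^ δ') * (1 - (Polynomial.C q * Polynomial.X) ^ δ')) := by
    apply Polynomial.coe_injective
    push_cast
    rw [hW', hV', mul_assoc _ _ (facT ℚ (aboveT L T) : PowerSeries ℚ), h1]
    simp only [mul_pow, map_natCast, map_pow]
    ring
  let Sg : ℕ → Polynomial ℚ := fun n => ∑ i ∈ Finset.range n, (Polynomial.C q * Polynomial.X) ^ i
  have hS : ∀ n, 1 - (Polynomial.C q * Polynomial.X) ^ n = (1 - Polynomial.C q * Polynomial.X) * Sg n :=
    fun n => (mul_neg_geom_sum _ n).symm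
  have hqq : q * q⁻¹ = 1 := mul_inv_cancel₀ (by positivity)
  have hne : (1 - Polynomial.C q * Polynomial.X : Polynomial ℚ) ≠ 0 := by
    intro h0
    have := congrArg (Polynomial.eval 0) h0
    simp at this
  rw [hS δ, hS δ'] at h2
  have h3 : V * facT ℚ (aboveT L T) * ((1 - Polynomial.X ^ δ) * Sg δ) ^ (N + 1) *
      (1 - Polynomial.C q * Polynomial.X) ^ N =
      (W * facT ℚ T) ^ (N + 1) * ((1 - Polynomial.X ^ δ') * Sg δ') := by
    apply mul_left_cancel₀ hne
    simp only [mul_pow] at h2 ⊢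
    linear_combination h2
  have h4 := congrArg (Polynomial.eval q⁻¹) h3
  simp only [Polynomial.eval_mul, Polynomial.eval_pow, Polynomial.eval_sub, Polynomial.eval_one,
    Polynomial.eval_C, Polynomial.eval_X, hqq, sub_self, zero_pow hN0, mul_zero] at h4
  symm at h4
  have h5 : (Sg δ').eval q⁻¹ ≠ 0 := by
    simp only [Sg, Polynomial.eval_finset_sum, Polynomial.eval_pow, Polynomial.eval_mul,
      Polynomial.eval_C, Polynomial.eval_X, hqq, one_pow, Finset.sum_const, Finset.card_range]
    simp [hδ'.ne']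
  have h6 : 1 - q⁻¹ ^ δ' ≠ 0 := by
    have : q⁻¹ ^ δ' < 1 := pow_lt_one₀ (by positivity) (inv_lt_one_of_one_lt₀ hq) hδ'.ne'
    linarith
  exact mul_ne_zero (pow_ne_zero _ (mul_ne_zero hW (eval_facT_ne T))) (mul_ne_zero h6 h5) h4

end H735Z

namespace H735Z

variable {k K : Type*} [Field k] [Field K] [Algebra k K] [Finite k] [IsFF k K]

theorem schmidt (hg : ∀ a : K, IsAlgebraic k a → a ∈ Set.range (algebraMap k K))
    (T : Finset (Place k K)) (r : ℕ) (hr : ∀ x : Place k K, x ∉ T → r ∣ x.deg) : r = 1 := by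
  classical
  have := Fintype.ofFinite k
  obtain ⟨z, hz⟩ := exists_not_mem T
  have hr0 : r ≠ 0 := by
    rintro rfl
    have h1 := hr z hz
    have h2 := z.deg_pos
    omega
  obtain ⟨p, hp⟩ := CharP.exists k
  obtain ⟨n, hpp, hn⟩ := FiniteField.card k p
  have : Fact p.Prime := ⟨hpp⟩
  have hcK : CharP K p := charP_of_injective_algebraMap (algebraMap k K).injective p
  have hq := one_lt_card (k := k)
  let Q := Nat.card k ^ r
  have hQ1 : 1 < Q := Nat.one_lt_pow hr0 hq
  have hpQ : p ∣ Q := by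
    apply dvd_pow _ hr0
    rw [Nat.card_eq_fintype_card, hn]
    exact dvd_pow_self p n.ne_zero
  let P : Polynomial K := Polynomial.X ^ Q - Polynomial.X
  have hsep : P.Separable := galois_poly_separable p Q hpQ
  have hP0 : P ≠ 0 := hsep.ne_zero
  let L := P.SplittingField
  have hgal : IsGalois K L := IsGalois.of_separable_splitting_field hsep
  have hff : IsFF k L := IsFF.of_ext (K := K)
  have hroot : ∀ α ∈ P.rootSet L, α ^ Q = α := by
    intro α hα
    have := (Polynomial.mem_rootSet.1 hα).2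
    simpa [P, sub_eq_zero] using this
  have halg : ∀ α : L, α ^ Q = α → IsAlgebraic k α := by
    intro α hα
    refine ⟨Polynomial.X ^ Q - Polynomial.X, FiniteField.X_pow_card_sub_X_ne_zero k hQ1, ?_⟩
    simp [hα]
  have htriv : ∀ (y : Place k L) (σ : L ≃ₐ[K] L),
      (∀ α : L, α ^ Q = α → y.Ge 1 (σ α - α)) → σ = 1 := by
    intro y σ hσ
    have h1 : (σ : L →ₐ[K] L) = AlgHom.id K L := by
      apply AlgHom.ext_of_adjoin_eq_top (Polynomial.SplittingField.adjoin_rootSet P)
      intro α hα
      have h2 := hroot α hα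
      have h3 : IsAlgebraic k (σ α - α) :=
        (halg _ (by rw [← map_pow, h2])).sub (halg _ h2)
      by_contra hne
      have h4 : σ α - α ≠ 0 := sub_ne_zero.2 hne
      have h5 := y.ord_eq_zero_of_isAlgebraic h4 h3
      have h6 := (hσ α h2).resolve_left h4
      omega
    ext a
    exact congrArg (fun f : L →ₐ[K] L => f a) h1
  have hreg : ∀ (y : Place k L) (α : L), α ^ Q = α → y.Reg α := fun y α hα =>
    y.reg_of_isIntegral (A := k) y.reg_const (halg α hα).isIntegral
  have h1 : Nat.card (L ≃ₐ[K] L) = 1 := by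
    apply weak_chebotarev T
    intro x hx
    constructor
    · apply not_ramified_of_inert
      intro y e _
      rw [eq_bot_iff]
      intro σ hσ
      rw [Subgroup.mem_bot]
      exact htriv y σ fun α hα => hσ α (hreg y α hα)
    · intro y e hy
      obtain ⟨φ, hφ⟩ := exists_frobAt hy
      have h2 : φ = 1 := by
        apply htriv y
        intro α hα
        have h3 := hφ α (hreg y α hα)
        obtain ⟨j, hj⟩ := hr x hx
        have h4 : ∀ i : ℕ, α ^ (Q ^ i) = α := by
          intro i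
          induction i with
          | zero => simp
          | succ i ih => rw [pow_succ, pow_mul, ih, hα]
        rwa [hj, pow_mul, h4] at h3
      rwa [h2] at hφ
  rw [IsGalois.card_aut_eq_finrank] at h1
  have h2 : Function.Surjective (algebraMap K L) := by
    intro a
    have h3 : (⊥ : Subalgebra K L) = ⊤ := Subalgebra.bot_eq_top_of_finrank_eq_one h1
    have h4 : a ∈ (⊥ : Subalgebra K L) := by rw [h3]; trivial
    exact Algebra.mem_bot.1 h4
  have h3 : (P.rootSet L) ⊆ Set.range (algebraMap k L) := by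
    intro α hα
    obtain ⟨a, rfl⟩ := h2 α
    have h4 : IsAlgebraic k a :=
      (isAlgebraic_algebraMap_iff (algebraMap K L).injective).1 (halg _ (hroot _ hα))
    obtain ⟨c, rfl⟩ := hg a h4
    exact ⟨c, IsScalarTower.algebraMap_apply k K L c⟩
  have h4 : Fintype.card (P.rootSet L) = P.natDegree :=
    Polynomial.card_rootSet_eq_natDegree hsep (Polynomial.SplittingField.splits P)
  have h5 : P.natDegree = Q := FiniteField.X_pow_card_sub_X_natDegree_eq K hQ1
  have h6 : Nat.card (P.rootSet L) ≤ Nat.card k :=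
    (Nat.card_mono (Set.finite_range _) h3).trans (Finite.card_range_le _)
  rw [Nat.card_eq_fintype_card, h4, h5] at h6
  by_contra hr1
  have h7 : Nat.card k ^ 1 < Nat.card k ^ r := Nat.pow_lt_pow_right hq (by omega)
  simp only [Q, pow_one] at h6 h7
  omega

/-- The numerator of the zeta function. -/
theorem zeta_num (hg : ∀ a : K, IsAlgebraic k a → a ∈ Set.range (algebraMap k K)) :
    ∃ W : Polynomial ℚ, (W : PowerSeries ℚ) = (1 - PowerSeries.X) *
      (1 - PowerSeries.C (Nat.card k : ℚ) * PowerSeries.X) *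
        Eu (goodDeg k K) Set.univ (fun _ => (1 : ℚ)) := by
  obtain ⟨δ, W, -, h1, -, h2⟩ := zeta_rat k K
  have h3 := schmidt hg ∅ δ fun x _ => h1 x
  subst h3
  exact ⟨W, by simpa using h2⟩

end H735Z
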