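import Pool.Agent.H735Z.Place

/-! Definitions for towers of function fields over a finite field, their zeta and L-functions,
and ramification indices of subfields of the p-adic complex numbers. -/

set_option autoImplicit false

namespace H735Z

/-- `K` is a function field of one variable over `k`: finitely generated, of transcendence
degree one. -/
class IsFF (k K : Type*) [Field k] [Field K] [Algebra k K] : Prop where
  ess : Algebra.EssFiniteType k K
  trdeg : Algebra.trdeg k K = 1

section
variable {k K L : Type*} [Field k] [Field K] [Field L] [Algebra k K] [Algebra k L] [Algebra K L]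

/-- The place `y` of `L` lies over the place `x` of `K` with ramification index `e`. -/
def Over (y : Place k L) (x : Place k K) (e : ℕ) : Prop :=
  0 < e ∧ ∀ f : K, y.ord (algebraMap K L f) = e * x.ord f

variable (L) in
/-- The place `x` of `K` ramifies in `L`: some place above it has ramification index `> 1`. -/
def Ramified (x : Place k K) : Prop :=
  ∃ (y : Place k L) (e : ℕ), Over y x e ∧ 1 < e

/-- `σ` is an arithmetic Frobenius element at a place `y` above `x`:
`σ a ≡ a ^ (q ^ deg x)` modulo the maximal ideal at `y`, for all `a` regular at `y`. -/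
def IsFrobAt (x : Place k K) (σ : L ≃ₐ[K] L) : Prop :=
  ∃ (y : Place k L) (e : ℕ), Over y x e ∧ ∀ a : L, y.Reg a →
    (σ a - a ^ (Nat.card k ^ x.deg) = 0 ∨ 0 < y.ord (σ a - a ^ (Nat.card k ^ x.deg)))

variable (L) in
open Classical in
/-- The arithmetic Frobenius element of the place `x` of `K` in `Gal(L/K)`. -/
noncomputable def frob (x : Place k K) : L ≃ₐ[K] L :=
  if h : ∃ σ : L ≃ₐ[K] L, IsFrobAt x σ then h.choose else 1

end

/-- A `ℤ_p`-tower of function fields over the finite field `k`: an increasing sequence of Galois
extensions `F n` of the function field `K`, with `Gal(F n / K)` cyclic of order `p ^ n`, and with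
`k` algebraically closed in each `F n` (the curves are geometrically irreducible). -/
structure IsZpTower (p : ℕ) (k : Type*) {K Ω : Type*} [Field k] [Field K] [Field Ω] [Algebra k K]
    [Algebra K Ω] [Algebra k Ω] [IsScalarTower k K Ω] (F : ℕ → IntermediateField K Ω) : Prop where
  ff : IsFF k K
  mono : ∀ n, F n ≤ F (n + 1)
  galois : ∀ n, IsGalois K (F n)
  cyclic : ∀ n, Nonempty ((F n ≃ₐ[K] F n) ≃* Multiplicative (ZMod (p ^ n)))
  geom : ∀ (n : ℕ) (a : F n), IsAlgebraic k a → a ∈ Set.range (algebraMap k (F n))

/-- The ramification locus of a tower: the places of `K` that ramify in some layer. -/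
def ramLocus (k : Type*) {K Ω : Type*} [Field k] [Field K] [Field Ω] [Algebra k K]
    [Algebra K Ω] [Algebra k Ω] [IsScalarTower k K Ω] (F : ℕ → IntermediateField K Ω) :
    Set (Place k K) :=
  {x | ∃ n, Ramified (F n) x}

open scoped PowerSeries.WithPiTopology in
/-- The zeta function `∏_y (1 - s ^ deg y)⁻¹` of the function field `L`, the product being over all
places, as a power series with rational coefficients. -/
noncomputable def zeta (k L : Type*) [Field k] [Field L] [Algebra k L] : PowerSeries ℚ :=
  ∏' y : Place k L, (1 - PowerSeries.X ^ y.deg)⁻¹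

open scoped PowerSeries.WithPiTopology in
/-- The L-function `∏_{x ∉ S} (1 - χ(Frob_x) s ^ deg x)⁻¹` of a character `χ` of `Gal(L/K)` with
values in a topological field `E`, as a power series over `E`. -/
noncomputable def lfun {E k K L : Type*} [Field E] [TopologicalSpace E] [Field k] [Field K]
    [Field L] [Algebra k K] [Algebra k L] [Algebra K L] (S : Set (Place k K))
    (χ : (L ≃ₐ[K] L) →* Eˣ) : PowerSeries E :=
  ∏' x : {x : Place k K // x ∉ S},
    (1 - PowerSeries.C ((χ (frob L x.1) : Eˣ) : E) * PowerSeries.X ^ x.1.deg)⁻¹

/-- The subfield of `E` generated over `F` by the reciprocal roots of `P`. -/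
noncomputable def rootField (F : Type*) {E : Type*} [Field F] [Field E] [Algebra F E]
    (P : Polynomial E) : IntermediateField F E :=
  IntermediateField.adjoin F {α : E | α ≠ 0 ∧ P.eval α⁻¹ = 0}

/-- The group of absolute values of the nonzero elements of a subfield `M` of a normed field. -/
noncomputable def valueGroup {F E : Type*} [Field F] [NormedField E] [Algebra F E]
    (M : IntermediateField F E) : Subgroup ℝˣ where
  carrier := {r | ∃ a ∈ M, ‖a‖ = (r : ℝ)}
  one_mem' := ⟨1, M.one_mem, norm_one⟩
  mul_mem' := by
    rintro r s ⟨a, ha, hr⟩ ⟨b, hb, hs⟩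
    exact ⟨a * b, M.mul_mem ha hb, by rw [norm_mul, hr, hs, Units.val_mul]⟩
  inv_mem' := by
    rintro r ⟨a, ha, hr⟩
    exact ⟨a⁻¹, M.inv_mem ha, by rw [norm_inv, hr, Units.val_inv_eq_inv_val]⟩

/-- The ramification index over `F` of an intermediate field `M` of a normed field `E / F`: the
index of the value group of `F` in the value group of `M`. -/
noncomputable def ramIndex {F E : Type*} [Field F] [NormedField E] [Algebra F E]
    (M : IntermediateField F E) : ℕ :=
  (valueGroup (⊥ : IntermediateField F E)).relIndex (valueGroup M)

end H735Z
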