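import Pool.Agent.H735Z.Fund

/-! Function fields in one variable; zeros and poles; degree of principal divisors. -/

set_option autoImplicit false
set_option linter.all false
set_option linter.overlappingInstances false

open Module IsDedekindDomain IntermediateField

namespace H735Z

section
variable {k K : Type*} [Field k] [Field K] [Algebra k K]

theorem IsFF.basis [h : IsFF k K] {f : K} (hf : Transcendental k f) :
    IsTranscendenceBasis k (fun _ : Unit => f) := by
  have h1 : AlgebraicIndependent k (fun _ : Unit => f) := by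
    rw [algebraicIndependent_unique_type_iff]
    exact hf
  refine h1.isTranscendenceBasis_of_lift_trdeg_le_of_finite ?_
  rw [h.trdeg]; simp

theorem IsFF.isAlgebraic [h : IsFF k K] {f : K} (hf : Transcendental k f) :
    Algebra.IsAlgebraic k⟮f⟯ K := by
  have h1 := (IsFF.basis hf).isAlgebraic_field
  have h2 : Set.range (fun _ : Unit => f) = {f} := by simp
  rwa [h2] at h1

theorem IsFF.finite [h : IsFF k K] {f : K} (hf : Transcendental k f) :
    FiniteDimensional k⟮f⟯ K := by
  have h1 := IsFF.isAlgebraic hf
  have h2 := h.ess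
  have h3 : Algebra.EssFiniteType k⟮f⟯ K := Algebra.EssFiniteType.of_comp k k⟮f⟯ K
  have h4 := IntermediateField.fg_top k⟮f⟯ K
  obtain ⟨s, hs⟩ := h4
  have h5 : FiniteDimensional k⟮f⟯ (IntermediateField.adjoin k⟮f⟯ (s : Set K)) :=
    IntermediateField.finiteDimensional_adjoin (fun x _ => (h1.isAlgebraic x).isIntegral)
  rw [hs] at h5
  exact IntermediateField.topEquiv.toLinearEquiv.finiteDimensional

theorem IsFF.exists_transcendental [h : IsFF k K] : ∃ f : K, Transcendental k f := by
  by_contra hc
  push Not at hc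
  have h2 : Algebra.IsAlgebraic k K := ⟨fun x => by
    have := hc x
    simpa [Transcendental] using this⟩
  have h3 := h.trdeg
  rw [_root_.trdeg_eq_zero_iff.2 h2] at h3
  exact zero_ne_one h3

theorem IsFF.of_finite {f : K} (hf : Transcendental k f) (hfin : FiniteDimensional k⟮f⟯ K) : IsFF k K := by
  have h1 : AlgebraicIndependent k (fun _ : Unit => f) := by
    rw [algebraicIndependent_unique_type_iff]
    exact hf
  constructor
  · have h2 : Algebra.EssFiniteType k k⟮f⟯ := IntermediateField.essFiniteType_iff.2 ⟨{f}, by simp⟩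
    exact Algebra.EssFiniteType.comp k k⟮f⟯ K
  · have h2 : IsTranscendenceBasis k (fun _ : Unit => f) := by
      rw [isTranscendenceBasis_iff_algebraicIndependent_isAlgebraic]
      refine ⟨h1, ?_⟩
      have h3 : Set.range (fun _ : Unit => f) = {f} := by simp
      rw [h3]
      open scoped algebraAdjoinAdjoin in
      have h4 : Algebra.IsAlgebraic (Algebra.adjoin k {f}) k⟮f⟯ := inferInstance
      open scoped algebraAdjoinAdjoin in
      exact Algebra.IsAlgebraic.trans (Algebra.adjoin k {f}) k⟮f⟯ K
    have := h2.lift_cardinalMk_eq_trdeg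
    simpa using this.symm

theorem Place.ord_eq_zero_of_isAlgebraic (P : Place k K) {f : K} (hf0 : f ≠ 0) (hf : IsAlgebraic k f) :
    P.ord f = 0 := by
  have h1 : P.Reg f := P.reg_of_isIntegral (A := k) P.reg_const hf.isIntegral
  have h2 : P.Reg f⁻¹ := P.reg_of_isIntegral (A := k) P.reg_const hf.inv.isIntegral
  have h3 := (P.reg_iff hf0).1 h1
  have h4 := (P.reg_iff (inv_ne_zero hf0)).1 h2
  rw [P.ord_inv] at h4
  omega

theorem Place.transcendental_of_ord_ne (P : Place k K) {f : K} (hf : P.ord f ≠ 0) :
    Transcendental k f := by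
  intro h
  apply hf
  by_cases hf0 : f = 0
  · rw [hf0, P.ord_zero]
  · exact P.ord_eq_zero_of_isAlgebraic hf0 h

open scoped algebraAdjoinAdjoin in
theorem finite_integralClosure [Finite k] [h : IsFF k K] {f : K} (hf : Transcendental k f) :
    Module.Finite (Algebra.adjoin k {f}) (integralClosure (Algebra.adjoin k {f}) K) := by
  classical
  let A := Algebra.adjoin k {f}
  let e := Polynomial.algEquivOfTranscendental k f hf
  have hpid : IsPrincipalIdealRing A := IsPrincipalIdealRing.of_surjective e.toRingEquiv e.surjective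
  have hded : IsDedekindDomain A := inferInstance
  have hfin := IsFF.finite hf
  have := Fintype.ofFinite k
  obtain ⟨p, hp⟩ := CharP.exists k
  obtain ⟨r, hpp, hr⟩ := FiniteField.card k p
  have : Fact p.Prime := ⟨hpp⟩
  let Ks := separableClosure k⟮f⟯ K
  have hcK : CharP K p := charP_of_injective_algebraMap (algebraMap k K).injective p
  have hcKs : CharP Ks p := (Algebra.charP_iff Ks K p).2 hcK
  have hecKs : ExpChar Ks p := ExpChar.prime hpp
  let Ω := AlgebraicClosure K
  have hcΩ : CharP Ω p := charP_of_injective_algebraMap (algebraMap K Ω).injective p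
  have hecΩ : ExpChar Ω p := ExpChar.prime hpp
  let ex := IsPurelyInseparable.exponent Ks K
  have hex : ∀ a : K, a ^ p ^ ex ∈ (algebraMap Ks K).range :=
    fun a => IsPurelyInseparable.exponent_def' Ks p a
  let ψ : Ω ≃+* Ω := (iterateFrobeniusEquiv Ω p (r * ex)).symm
  have hψ : ∀ x : Ω, ψ (x ^ p ^ (r * ex)) = x := by
    intro x
    have : x ^ p ^ (r * ex) = iterateFrobeniusEquiv Ω p (r * ex) x := by
      rw [coe_iterateFrobeniusEquiv, iterateFrobenius_def]
    rw [this]
    exact (iterateFrobeniusEquiv Ω p (r * ex)).symm_apply_apply x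
  have hψ' : ∀ x : Ω, (ψ x) ^ p ^ (r * ex) = x := by
    intro x
    rw [← map_pow, hψ]
  have hpos : 0 < p ^ (r * ex) := pow_pos hpp.pos _
  have hst : IsScalarTower A Ks K := IsScalarTower.of_algebraMap_eq fun _ => rfl
  let Bs := integralClosure A Ks
  have hBs : Module.Finite A Bs := IsIntegralClosure.finite A k⟮f⟯ Ks Bs
  obtain ⟨s, hs⟩ := hBs.fg_top
  let ι : Bs → Ω := fun b => algebraMap K Ω (algebraMap Ks K b.1)
  let G : Set Ω := insert (ψ (algebraMap K Ω f)) ((fun b => ψ (ι b)) '' (s : Set Bs))
  have hGfin : G.Finite := (s.finite_toSet.image _).insert _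
  have hιint : ∀ b : Bs, IsIntegral A (ι b) := by
    intro b
    have h1 : IsIntegral A b.1 := b.2
    exact (h1.algebraMap (B := K)).algebraMap (B := Ω)
  have hGint : ∀ x ∈ G, IsIntegral A x := by
    rintro x (rfl | ⟨b, -, rfl⟩)
    · apply IsIntegral.of_pow hpos
      rw [hψ']
      have : algebraMap K Ω f = algebraMap A Ω ⟨f, Algebra.self_mem_adjoin_singleton k f⟩ := rfl
      rw [this]
      exact isIntegral_algebraMap
    · apply IsIntegral.of_pow hpos
      rw [hψ']
      exact hιint b
  let C := Algebra.adjoin A G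
  have hC : Module.Finite A C := Algebra.finite_adjoin_of_finite_of_isIntegral hGfin hGint
  have hψA : ∀ a : A, ψ (algebraMap A Ω a) ∈ C := by
    rintro ⟨a, ha⟩
    change ψ (algebraMap K Ω a) ∈ C
    induction ha using Algebra.adjoin_induction with
    | mem x hx =>
      rw [Set.mem_singleton_iff] at hx
      subst hx
      exact Algebra.subset_adjoin (Or.inl rfl)
    | algebraMap c =>
      have h1 : c ^ p ^ (r * ex) = c := by
        rw [pow_mul, ← hr]
        exact FiniteField.pow_card_pow ex c
      have h2 : algebraMap K Ω (algebraMap k K c) = (algebraMap K Ω (algebraMap k K c)) ^ p ^ (r * ex) := by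
        rw [← map_pow, ← map_pow, h1]
      rw [h2, hψ]
      exact C.algebraMap_mem (algebraMap k A c)
    | add x y _ _ hx hy => rw [map_add, map_add]; exact C.add_mem hx hy
    | mul x y _ _ hx hy => rw [map_mul, map_mul]; exact C.mul_mem hx hy
  have hψB : ∀ b : Bs, ψ (ι b) ∈ C := by
    intro b
    have hb : b ∈ Submodule.span A (s : Set Bs) := by rw [hs]; trivial
    induction hb using Submodule.span_induction with
    | mem x hx => exact Algebra.subset_adjoin (Or.inr ⟨x, hx, rfl⟩)
    | zero => simp [ι]
    | add x y _ _ hx hy =>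
      have : ι (x + y) = ι x + ι y := by simp [ι]
      rw [this, map_add]; exact C.add_mem hx hy
    | smul a x _ hx =>
      have : ι (a • x) = algebraMap A Ω a * ι x := by
        simp only [ι]
        rw [Subalgebra.coe_smul, Algebra.smul_def, map_mul, map_mul]
        rfl
      rw [this, map_mul]
      exact C.mul_mem (hψA a) hx
  have hmem : ∀ b : integralClosure A K, algebraMap K Ω b.1 ∈ C := by
    intro b
    obtain ⟨c, hc⟩ := hex b.1
    have hr1 : 1 ≤ (r : ℕ) := r.2
    have h1 : b.1 ^ p ^ (r * ex) = algebraMap Ks K (c ^ p ^ ((r - 1) * ex)) := by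
      rw [map_pow, hc, ← pow_mul, ← pow_add]
      congr 2
      obtain ⟨r', hr'⟩ : ∃ r', (r : ℕ) = r' + 1 := ⟨r - 1, by omega⟩
      rw [hr']; simp; ring
    have h2 : IsIntegral A (c ^ p ^ ((r - 1) * ex)) := by
      have h3 : IsIntegral A (algebraMap Ks K (c ^ p ^ ((r - 1) * ex))) := by
        rw [← h1]; exact b.2.pow _
      exact (isIntegral_algebraMap_iff (algebraMap Ks K).injective).1 h3
    have h4 := hψB ⟨_, h2⟩
    simp only [ι] at h4
    rw [← h1, map_pow, hψ] at h4
    exact h4
  let j : integralClosure A K →ₗ[A] C :=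
    { toFun := fun b => ⟨algebraMap K Ω b.1, hmem b⟩
      map_add' := fun a b => by apply Subtype.ext; simp
      map_smul' := fun a b => by
        apply Subtype.ext
        change algebraMap K Ω (a • b.1) = a • algebraMap K Ω b.1
        rw [Algebra.smul_def, Algebra.smul_def, map_mul]
        rfl }
  refine Module.Finite.of_injective j ?_
  intro a b hab
  apply Subtype.ext
  exact (algebraMap K Ω).injective (congrArg Subtype.val hab)

theorem zeros [Finite k] [h : IsFF k K] {f : K} (hf : Transcendental k f) :
    ∃ S : Finset (Place k K), (∀ w, w ∈ S ↔ 0 < w.ord f) ∧ (∀ w ∈ S, 0 < w.deg) ∧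
      ∑ w ∈ S, (w.ord f).toNat * w.deg = finrank k⟮f⟯ K := by
  open scoped algebraAdjoinAdjoin in
  let A := Algebra.adjoin k {f}
  let e := Polynomial.algEquivOfTranscendental k f hf
  have hpid : IsPrincipalIdealRing A := IsPrincipalIdealRing.of_surjective e.toRingEquiv e.surjective
  have hded : IsDedekindDomain A := inferInstance
  have hfin := IsFF.finite hf
  let π : A := ⟨f, Algebra.self_mem_adjoin_singleton k f⟩
  have hf0 : f ≠ 0 := by
    rintro rfl
    exact hf (isAlgebraic_zero)
  have hπ : π ≠ 0 := by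
    intro h; exact hf0 (congrArg Subtype.val h)
  have heπ : e Polynomial.X = π := Polynomial.algEquivOfTranscendental_apply_X k f hf
  have hmax : (Ideal.span {π}).IsMaximal := by
    have h1 : (Ideal.span {(Polynomial.X : Polynomial k)}).IsMaximal := by
      have := PrincipalIdealRing.isMaximal_of_irreducible (Polynomial.irreducible_X (R := k))
      exact this
    have h2 : Ideal.span {π} = Ideal.map e.toRingEquiv.toRingHom (Ideal.span {(Polynomial.X : Polynomial k)}) := by
      rw [Ideal.map_span, Set.image_singleton]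
      congr 2
      exact heπ.symm
    rw [h2]
    exact Ideal.map_isMaximal_of_equiv e.toRingEquiv
  obtain ⟨S, hS1, hS2, hS3⟩ := fundamental (k := k) (A := A) (L := K) k⟮f⟯ (finite_integralClosure hf) π hπ hmax
  have hreg : ∀ w : Place k K, 0 < w.ord f → ∀ a : A, w.Reg (algebraMap A K a) := by
    rintro w hw ⟨a, ha⟩
    change w.Reg a
    induction ha using Algebra.adjoin_induction with
    | mem x hx =>
      rw [Set.mem_singleton_iff] at hx
      subst hx
      exact Or.inr hw.le
    | algebraMap r => exact w.reg_const r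
    | add x y _ _ hx hy => exact w.reg_add hx hy
    | mul x y _ _ hx hy => exact w.reg_mul hx hy
  have hS1' : ∀ w, w ∈ S ↔ 0 < w.ord f := by
    intro w
    rw [hS1]
    exact ⟨fun h => h.2, fun h => ⟨hreg w h, h⟩⟩
  have hdeg : ∀ w ∈ S, w.relf A = w.deg := by
    intro w hw
    have hw0 := (hS1' w).1 hw
    have h1 : ∀ a : A, ∃ c : k, w.red (algebraMap A K a) = algebraMap k w.RF c := by
      rintro ⟨a, ha⟩
      change ∃ c : k, w.red a = algebraMap k w.RF c
      suffices hh : w.Reg a ∧ ∃ c : k, w.red a = algebraMap k w.RF c from hh.2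
      induction ha using Algebra.adjoin_induction with
      | mem x hx =>
        rw [Set.mem_singleton_iff] at hx
        subst hx
        have hr : w.Reg x := Or.inr hw0.le
        exact ⟨hr, 0, by rw [map_zero, w.red_eq_zero_iff hr]; exact Or.inr hw0⟩
      | algebraMap r => exact ⟨w.reg_const r, r, rfl⟩
      | add x y _ _ hx hy =>
        obtain ⟨hx, c, hc⟩ := hx
        obtain ⟨hy, d, hd⟩ := hy
        exact ⟨w.reg_add hx hy, c + d, by rw [w.red_add hx hy, hc, hd, map_add]⟩
      | mul x y _ _ hx hy =>
        obtain ⟨hx, c, hc⟩ := hx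
        obtain ⟨hy, d, hd⟩ := hy
        exact ⟨w.reg_mul hx hy, c * d, by rw [w.red_mul hx hy, hc, hd, map_mul]⟩
    have h2 : Subfield.closure (Set.range fun a : A => w.red (algebraMap A K a)) = (algebraMap k w.RF).fieldRange := by
      apply le_antisymm
      · rw [Subfield.closure_le]
        rintro _ ⟨a, rfl⟩
        obtain ⟨c, hc⟩ := h1 a
        exact ⟨c, hc.symm⟩
      · rintro _ ⟨c, rfl⟩
        apply Subfield.subset_closure
        exact ⟨algebraMap k A c, rfl⟩
    unfold Place.relf Place.deg
    rw [h2]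
    let i : k ≃+* (algebraMap k w.RF).fieldRange :=
      RingEquiv.ofBijective (algebraMap k w.RF).rangeRestrictField
        ⟨(algebraMap k w.RF).rangeRestrictField.injective, by
          rintro ⟨_, ⟨c, rfl⟩⟩
          exact ⟨c, rfl⟩⟩
    exact (Algebra.finrank_eq_of_equiv_equiv i (RingEquiv.refl _) (by ext; rfl)).symm
  refine ⟨S, hS1', ?_, ?_⟩
  · intro w hw
    rw [← hdeg w hw]
    exact hS2 w hw
  · rw [← hS3]
    refine Finset.sum_congr rfl fun w hw => ?_
    rw [hdeg w hw]
    rfl

theorem Place.deg_pos [Finite k] [IsFF k K] (P : Place k K) : 0 < P.deg := by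
  obtain ⟨t, ht0, ht⟩ := P.surj
  obtain ⟨S, hS, hS2, -⟩ := zeros (P.transcendental_of_ord_ne (f := t) (by omega))
  exact hS2 P ((hS P).2 (by omega))

instance [Finite k] [IsFF k K] (P : Place k K) : FiniteDimensional k P.RF :=
  FiniteDimensional.of_finrank_pos P.deg_pos

theorem adjoin_inv (f : K) : k⟮f⁻¹⟯ = k⟮f⟯ := by
  apply le_antisymm
  · rw [IntermediateField.adjoin_simple_le_iff]
    exact inv_mem (IntermediateField.mem_adjoin_simple_self k f)
  · rw [IntermediateField.adjoin_simple_le_iff]
    have := inv_mem (IntermediateField.mem_adjoin_simple_self k f⁻¹)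
    rwa [inv_inv] at this

theorem poles [Finite k] [h : IsFF k K] {f : K} (hf : Transcendental k f) :
    ∃ S : Finset (Place k K), (∀ w, w ∈ S ↔ w.ord f < 0) ∧
      ∑ w ∈ S, (- w.ord f).toNat * w.deg = finrank k⟮f⟯ K := by
  obtain ⟨S, hS, -, hS3⟩ := zeros (k := k) (K := K) (f := f⁻¹) (by
    intro h; apply hf; simpa using h.inv)
  refine ⟨S, ?_, ?_⟩
  · intro w
    rw [hS, w.ord_inv]; omega
  · rw [adjoin_inv] at hS3
    rw [← hS3]
    refine Finset.sum_congr rfl fun w _ => ?_
    rw [w.ord_inv]

end

end H735Z
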