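import Pool.Agent.H735Z.Approx

/-! Decomposition groups, inertia groups and Frobenius elements. -/

set_option autoImplicit false
set_option linter.all false
set_option linter.overlappingInstances false

open Module

namespace H735Z

section
variable {k K L : Type*} [Field k] [Field K] [Field L] [Algebra k K] [Algebra k L]

theorem Place.ord_prod (P : Place k K) {ι : Type*} (s : Finset ι) (f : ι → K)
    (h : ∀ i ∈ s, f i ≠ 0) : P.ord (∏ i ∈ s, f i) = ∑ i ∈ s, P.ord (f i) := by
  classical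
  induction s using Finset.induction_on with
  | empty => simp [P.ord_one]
  | insert a s ha ih =>
    rw [Finset.prod_insert ha, Finset.sum_insert ha,
      P.ord_mul (h a (Finset.mem_insert_self _ _))
        (Finset.prod_ne_zero_iff.2 fun i hi => h i (Finset.mem_insert_of_mem hi)),
      ih fun i hi => h i (Finset.mem_insert_of_mem hi)]

/-- The map on residue fields induced by an embedding. -/
noncomputable def resHomOf (w : Place k L) (w0 : Place k K) (φ : K →ₐ[k] L) (e : ℕ) (he : 0 < e)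
    (h : ∀ f, w.ord (φ f) = e * w0.ord f) : w0.RF →ₐ[k] w.RF :=
  letI : Algebra K L := φ.toRingHom.toAlgebra
  haveI : IsScalarTower k K L := IsScalarTower.of_algebraMap_eq fun c => (φ.commutes c).symm
  Over.resMap (w := w) (w0 := w0) (e := e) ⟨he, h⟩

theorem resHomOf_red (w : Place k L) (w0 : Place k K) (φ : K →ₐ[k] L) (e : ℕ) (he : 0 < e)
    (h : ∀ f, w.ord (φ f) = e * w0.ord f) {f : K} (hf : w0.Reg f) :
    resHomOf w w0 φ e he h (w0.red f) = w.red (φ f) := by
  letI : Algebra K L := φ.toRingHom.toAlgebra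
  haveI : IsScalarTower k K L := IsScalarTower.of_algebraMap_eq fun c => (φ.commutes c).symm
  exact Over.resMap_red (w := w) (w0 := w0) (e := e) ⟨he, h⟩ hf

variable [Algebra K L] [IsScalarTower k K L]

theorem IsFF.of_ext [h : IsFF k K] [FiniteDimensional K L] : IsFF k L := by
  constructor
  · have := h.ess
    exact Algebra.EssFiniteType.comp k K L
  · have h1 := lift_trdeg_add_eq k K L
    have h2 : Algebra.trdeg K L = 0 := trdeg_eq_zero_iff.2 inferInstance
    rw [h.trdeg, h2] at h1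
    simpa using h1.symm

noncomputable instance : MulAction (L ≃ₐ[K] L) (Place k L) where
  smul σ y := y.comp (σ.symm.restrictScalars k)
  one_smul y := by ext f; rfl
  mul_smul σ τ y := by ext f; rfl

theorem smul_ord' (σ : L ≃ₐ[K] L) (y : Place k L) (f : L) : (σ • y).ord f = y.ord (σ.symm f) := rfl

theorem smul_ord (σ : L ≃ₐ[K] L) (y : Place k L) (f : L) : (σ • y).ord (σ f) = y.ord f := by
  rw [smul_ord', AlgEquiv.symm_apply_apply]

theorem inv_smul_ord (σ : L ≃ₐ[K] L) (y : Place k L) (f : L) : (σ⁻¹ • y).ord f = y.ord (σ f) := rfl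

theorem ge_smul (σ : L ≃ₐ[K] L) (y : Place k L) (n : ℤ) (f : L) :
    (σ • y).Ge n (σ f) ↔ y.Ge n f := by
  unfold Place.Ge
  rw [smul_ord, map_eq_zero_iff σ σ.injective]

theorem ge_inv_smul (σ : L ≃ₐ[K] L) (y : Place k L) (n : ℤ) (f : L) :
    (σ⁻¹ • y).Ge n f ↔ y.Ge n (σ f) := by
  rw [← ge_smul σ (σ⁻¹ • y), smul_inv_smul]

theorem Over.smul {y : Place k L} {x : Place k K} {e : ℕ} (h : Over y x e) (σ : L ≃ₐ[K] L) :
    Over (σ • y) x e := by
  refine ⟨h.1, fun f => ?_⟩
  rw [smul_ord', AlgEquiv.commutes, h.2]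

theorem Over.ge {y : Place k L} {x : Place k K} {e : ℕ} (h : Over y x e) {f : K} :
    y.Ge 1 (algebraMap K L f) ↔ x.Ge 1 f := by
  unfold Place.Ge
  rw [h.2, map_eq_zero_iff _ (algebraMap K L).injective]
  have : (0 : ℤ) < e := by exact_mod_cast h.1
  constructor
  · rintro (h1 | h1)
    · exact Or.inl h1
    · right
      by_contra hc
      have : x.ord f ≤ 0 := by omega
      nlinarith
  · rintro (h1 | h1)
    · exact Or.inl h1
    · right; nlinarith

theorem Over.under_unique {y : Place k L} {x x' : Place k K} {e e' : ℕ} (h : Over y x e)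
    (h' : Over y x' e') : x = x' := by
  apply Place.eq_of_le
  intro f hf h1
  have h2 : x.Reg f := Or.inr h1
  exact (x'.reg_iff hf).1 (h'.reg.1 (h.reg.2 h2))

theorem exists_under [FiniteDimensional K L] (y : Place k L) : ∃ (e : ℕ) (x : Place k K), Over y x e := by
  apply exists_over
  by_contra hc
  push Not at hc
  obtain ⟨t, ht0, ht⟩ := y.surj
  have h1 : y.Reg t⁻¹ := y.reg_of_isIntegral (A := K) (fun a => Or.inr (hc a).ge)
    (Algebra.IsIntegral.isIntegral _)
  rw [y.reg_iff (inv_ne_zero ht0), y.ord_inv] at h1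
  omega

theorem Over.trans {M : Type*} [Field M] [Algebra k M] [Algebra K M] [Algebra M L]
    [IsScalarTower K M L] {y : Place k L} {z : Place k M} {x : Place k K} {e1 e2 : ℕ}
    (h1 : Over y z e1) (h2 : Over z x e2) : Over y x (e1 * e2) := by
  refine ⟨Nat.mul_pos h1.1 h2.1, fun f => ?_⟩
  rw [IsScalarTower.algebraMap_apply K M L, h1.2, h2.2]
  push_cast; ring

variable [Finite k] [IsFF k K] [IsFF k L]

theorem Over.deg_mul {y : Place k L} {x : Place k K} {e : ℕ} (h : Over y x e) :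
    x.deg * @finrank x.RF y.RF _ _ h.resMap.toRingHom.toAlgebra.toModule = y.deg := by
  letI : Algebra x.RF y.RF := h.resMap.toRingHom.toAlgebra
  haveI : IsScalarTower k x.RF y.RF :=
    IsScalarTower.of_algebraMap_eq fun c => (h.resMap.commutes c).symm
  exact Module.finrank_mul_finrank k x.RF y.RF

theorem deg_smul (σ : L ≃ₐ[K] L) (y : Place k L) : (σ • y).deg = y.deg := by
  have key : ∀ (σ : L ≃ₐ[K] L) (y : Place k L), y.deg ≤ (σ • y).deg := by
    intro σ y
    let φ := resHomOf (σ • y) y (σ.restrictScalars k : L →ₐ[k] L) 1 one_pos (fun f => by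
      simpa using smul_ord σ y f)
    exact LinearMap.finrank_le_finrank_of_injective (f := φ.toLinearMap) φ.toRingHom.injective
  apply le_antisymm
  · have := key σ⁻¹ (σ • y)
    rwa [inv_smul_smul] at this
  · exact key σ y

variable [FiniteDimensional K L] [IsGalois K L]

variable (L) in
theorem finite_above (x : Place k K) : {y : Place k L | ∃ e, Over y x e}.Finite := by
  obtain ⟨S, T, hS, -, -⟩ := exists_places_over (K' := L) x
  exact S.finite_toSet.subset fun y ⟨e, he⟩ => hS y e he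

variable (L) in
/-- The places above `x`. -/
noncomputable def above (x : Place k K) : Finset (Place k L) := (finite_above L x).toFinset

theorem mem_above {x : Place k K} {y : Place k L} : y ∈ above L x ↔ ∃ e, Over y x e := by
  unfold above; rw [Set.Finite.mem_toFinset]; rfl

variable (L) in
theorem exists_above (x : Place k K) : ∃ (y : Place k L) (e : ℕ), Over y x e := by
  obtain ⟨S, T, -, hT, hsum⟩ := exists_places_over (K' := L) x
  have h1 : 0 < finrank K L := finrank_pos
  have h2 : S.Nonempty := by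
    rw [Finset.nonempty_iff_ne_empty]
    rintro rfl
    simp at hsum
    omega
  obtain ⟨y, hy⟩ := h2
  obtain ⟨e, he, -⟩ := hT y hy
  exact ⟨y, e, he⟩

theorem transitive {x : Place k K} {y y' : Place k L} {e e' : ℕ} (h : Over y x e)
    (h' : Over y' x e') : ∃ σ : L ≃ₐ[K] L, σ • y = y' := by
  classical
  by_contra hc
  push Not at hc
  obtain ⟨b, hb⟩ := weak_approx (above L x) (fun w => if w = y' then 0 else 1) 1
  have hb1 : ∀ σ : L ≃ₐ[K] L, σ b ≠ 0 ∧ y.ord (σ b) = 0 := by
    intro σ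
    have h1 := hb (σ⁻¹ • y) (mem_above.2 ⟨e, h.smul _⟩)
    rw [if_neg (hc _)] at h1
    have h2 := (σ⁻¹ • y).ord_eq_zero_of_ge_one h1
    exact ⟨(map_ne_zero_iff σ σ.injective).2 h2.1, h2.2⟩
  have hb2 : ∀ σ : L ≃ₐ[K] L, 0 ≤ y'.ord (σ b) := by
    intro σ
    have h1 := hb (σ⁻¹ • y') (mem_above.2 ⟨e', h'.smul _⟩)
    have hb0 : b ≠ 0 := by simpa using (hb1 1).1
    have h2 : (σ⁻¹ • y').Reg b := by
      split_ifs at h1
      · exact ((σ⁻¹ • y').red_eq_of_ge (σ⁻¹ • y').reg_zero h1).1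
      · exact ((σ⁻¹ • y').red_eq_of_ge (σ⁻¹ • y').reg_one h1).1
    exact ((σ⁻¹ • y').reg_iff hb0).1 h2
  have hb3 : 1 ≤ y'.ord b := by
    have h1 := hb y' (mem_above.2 ⟨e', h'⟩)
    rw [if_pos rfl, sub_zero] at h1
    exact h1.resolve_left (by simpa using (hb1 1).1)
  have hN := Algebra.norm_eq_prod_automorphisms K b
  have h1 : y.ord (algebraMap K L (Algebra.norm K b)) = 0 := by
    rw [hN, y.ord_prod _ _ fun σ _ => (hb1 σ).1]
    exact Finset.sum_eq_zero fun σ _ => (hb1 σ).2
  have h2 : 1 ≤ y'.ord (algebraMap K L (Algebra.norm K b)) := by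
    rw [hN, y'.ord_prod _ _ fun σ _ => (hb1 σ).1]
    refine hb3.trans ?_
    exact Finset.single_le_sum (f := fun σ : L ≃ₐ[K] L => y'.ord (σ b)) (fun σ _ => hb2 σ)
      (Finset.mem_univ 1)
  rw [h.2] at h1
  rw [h'.2] at h2
  have he : (e : ℤ) ≠ 0 := by have := h.1; omega
  rw [(mul_eq_zero.1 h1).resolve_left he] at h2
  omega

/-- Frobenius condition at a given place. -/
def FrobAt (y : Place k L) (x : Place k K) (σ : L ≃ₐ[K] L) : Prop :=
  ∀ a : L, y.Reg a → y.Ge 1 (σ a - a ^ (Nat.card k ^ x.deg))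

theorem isFrobAt_iff {x : Place k K} {σ : L ≃ₐ[K] L} :
    IsFrobAt x σ ↔ ∃ (y : Place k L) (e : ℕ), Over y x e ∧ FrobAt y x σ := Iff.rfl

theorem smul_eq_of_reg {y : Place k L} {σ : L ≃ₐ[K] L} (h : ∀ a, y.Reg a → y.Reg (σ a)) :
    σ • y = y := by
  have h1 : y = σ⁻¹ • y := by
    apply Place.eq_of_le
    intro f hf h2
    rw [inv_smul_ord]
    exact (y.reg_iff ((map_ne_zero_iff σ σ.injective).2 hf)).1 (h f (Or.inr h2))
  conv_lhs => rw [h1]
  rw [smul_inv_smul]

theorem reg_of_smul_eq {y : Place k L} {σ : L ≃ₐ[K] L} (h : σ • y = y) {a : L} (ha : y.Reg a) :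
    y.Reg (σ a) := by
  have := (ge_smul σ y 0 a).2 ha
  rwa [h] at this

theorem FrobAt.red {y : Place k L} {x : Place k K} {σ : L ≃ₐ[K] L} (h : FrobAt y x σ) {a : L}
    (ha : y.Reg a) : y.Reg (σ a) ∧ y.red (σ a) = y.red a ^ (Nat.card k ^ x.deg) := by
  have := y.red_eq_of_ge (y.reg_pow ha _) (h a ha)
  rwa [y.red_pow ha] at this

theorem FrobAt.smul_eq {y : Place k L} {x : Place k K} {σ : L ≃ₐ[K] L} (h : FrobAt y x σ) :
    σ • y = y := smul_eq_of_reg fun a ha => (h.red ha).1

theorem FrobAt.conj {y : Place k L} {x : Place k K} {σ : L ≃ₐ[K] L} (h : FrobAt y x σ)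
    (τ : L ≃ₐ[K] L) : FrobAt (τ • y) x (τ * σ * τ⁻¹) := by
  intro a ha
  obtain ⟨b, rfl⟩ := τ.surjective a
  have hb : y.Reg b := (ge_smul τ y 0 b).1 ha
  have h1 := (ge_smul τ y 1 _).2 (h b hb)
  rw [map_sub, map_pow] at h1
  simpa using h1

theorem stab_ord (y : Place k L) (σ : MulAction.stabilizer (L ≃ₐ[K] L) y) (f : L) :
    y.ord ((σ.1.restrictScalars k : L →ₐ[k] L) f) = (1 : ℕ) * y.ord f := by
  have := smul_ord σ.1 y f
  rw [σ.2] at this
  simpa using this

/-- The automorphism of the residue field induced by an element of the decomposition group. -/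
noncomputable def resAut (y : Place k L) (σ : MulAction.stabilizer (L ≃ₐ[K] L) y) :
    y.RF ≃ₐ[k] y.RF :=
  AlgEquiv.ofBijective (resHomOf y y (σ.1.restrictScalars k : L →ₐ[k] L) 1 one_pos (stab_ord y σ))
    (Algebra.IsAlgebraic.algHom_bijective _)

theorem resAut_red (y : Place k L) (σ : MulAction.stabilizer (L ≃ₐ[K] L) y) {a : L} (ha : y.Reg a) :
    resAut y σ (y.red a) = y.red (σ.1 a) := 
  resHomOf_red y y (σ.1.restrictScalars k : L →ₐ[k] L) 1 one_pos (stab_ord y σ) ha

variable (K) in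
/-- The action of the decomposition group on the residue field. -/
noncomputable def resRep (y : Place k L) :
    MulAction.stabilizer (L ≃ₐ[K] L) y →* (y.RF ≃ₐ[k] y.RF) where
  toFun := resAut y
  map_one' := by
    ext c
    obtain ⟨a, ha, rfl⟩ := y.red_surjective c
    rw [resAut_red y _ ha]; rfl
  map_mul' σ τ := by
    ext c
    obtain ⟨a, ha, rfl⟩ := y.red_surjective c
    rw [AlgEquiv.mul_apply, resAut_red y _ ha, resAut_red y _ ha,
      resAut_red y _ (reg_of_smul_eq τ.2 ha)]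
    rfl

theorem resRep_red (y : Place k L) (σ : MulAction.stabilizer (L ≃ₐ[K] L) y) {a : L} (ha : y.Reg a) :
    resRep K y σ (y.red a) = y.red (σ.1 a) := resAut_red y σ ha

variable (K) in
/-- The inertia group. -/
def inert (y : Place k L) : Subgroup (L ≃ₐ[K] L) where
  carrier := {σ | ∀ a, y.Reg a → y.Ge 1 (σ a - a)}
  one_mem' := fun a _ => Or.inl (by simp)
  mul_mem' := by
    intro σ τ hσ hτ a ha
    have h1 := hτ a ha
    have h2 := hσ (τ a) (y.red_eq_of_ge ha h1).1
    have := h2.add h1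
    simpa using this
  inv_mem' := by
    intro σ hσ a ha
    have h1 : σ • y = y := smul_eq_of_reg fun a ha => (y.red_eq_of_ge ha (hσ a ha)).1
    have h2 : σ⁻¹ • y = y := by rw [inv_smul_eq_iff, h1]
    have h3 := (hσ (σ⁻¹ a) (reg_of_smul_eq h2 ha)).neg
    simpa using h3

theorem mem_inert {y : Place k L} {σ : L ≃ₐ[K] L} :
    σ ∈ inert K y ↔ ∀ a, y.Reg a → y.Ge 1 (σ a - a) := Iff.rfl

theorem inert_le (y : Place k L) : inert K y ≤ MulAction.stabilizer (L ≃ₐ[K] L) y :=
  fun σ hσ => smul_eq_of_reg fun a ha => (y.red_eq_of_ge ha (hσ a ha)).1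

theorem ker_resRep (y : Place k L) :
    (resRep K y).ker = (inert K y).subgroupOf (MulAction.stabilizer (L ≃ₐ[K] L) y) := by
  ext σ
  rw [MonoidHom.mem_ker, Subgroup.mem_subgroupOf, mem_inert]
  constructor
  · intro h a ha
    have h1 := resRep_red y σ ha
    rw [h] at h1
    have h2 := reg_of_smul_eq σ.2 ha
    rw [y.ge_one_iff (y.reg_sub h2 ha), y.red_sub h2 ha, ← h1]
    simp
  · intro h
    ext c
    obtain ⟨a, ha, rfl⟩ := y.red_surjective c
    rw [resRep_red y σ ha]
    exact (y.red_eq_of_ge ha (h a ha)).2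

theorem exists_frobAt {x : Place k K} {y : Place k L} {e : ℕ} (h : Over y x e) :
    ∃ σ : L ≃ₐ[K] L, FrobAt y x σ := by
  classical
  have := Fintype.ofFinite k
  obtain ⟨g, hg⟩ := IsCyclic.exists_monoid_generator (α := (y.RF)ˣ)
  obtain ⟨a0, ha0, hred0⟩ := y.red_surjective (g : y.RF)
  obtain ⟨a, ha⟩ := weak_approx (above L x) (fun w => if w = y then a0 else 0) 1
  have hay := ha y (mem_above.2 ⟨e, h⟩)
  rw [if_pos rfl] at hay
  obtain ⟨hreg, hred⟩ := y.red_eq_of_ge ha0 hay
  rw [hred0] at hred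
  have hregσ : ∀ σ : L ≃ₐ[K] L, y.Reg (σ a) := by
    intro σ
    rw [← y.ge_zero_iff, ← ge_inv_smul, Place.ge_zero_iff]
    have h1 := ha (σ⁻¹ • y) (mem_above.2 ⟨e, h.smul _⟩)
    split_ifs at h1 with h2
    · rw [h2]; exact hreg
    · exact ((σ⁻¹ • y).red_eq_of_ge (σ⁻¹ • y).reg_zero h1).1
  let Q := Nat.card k ^ x.deg
  let φ : y.RF →+* y.RF := ((FiniteField.frobeniusAlgHom k y.RF) ^ x.deg).toRingHom
  have hφ : ∀ c, φ c = c ^ Q := by
    intro c
    change ((FiniteField.frobeniusAlgHom k y.RF) ^ x.deg) c = _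
    rw [AlgHom.coe_pow, FiniteField.coe_frobeniusAlgHom, pow_iterate, ← Nat.card_eq_fintype_card]
  let PO : Polynomial y.O := ∏ σ : L ≃ₐ[K] L, (Polynomial.X - Polynomial.C ⟨σ a, hregσ σ⟩)
  have hP1 : PO.map y.O.subtype = MulSemiringAction.charpoly (L ≃ₐ[K] L) a := by
    simp only [PO, MulSemiringAction.charpoly_eq, Polynomial.map_prod, Polynomial.map_sub,
      Polynomial.map_X, Polynomial.map_C]
    rfl
  have hP2 : PO.map y.resHom = ∏ σ : L ≃ₐ[K] L, (Polynomial.X - Polynomial.C (y.red (σ a))) := by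
    simp only [PO, Polynomial.map_prod, Polynomial.map_sub, Polynomial.map_X, Polynomial.map_C]
    refine Finset.prod_congr rfl fun σ _ => ?_
    rw [y.red_of_reg (hregσ σ)]
  have hP3 : (PO.map y.resHom).map φ = PO.map y.resHom := by
    ext i
    rw [Polynomial.coeff_map, Polynomial.coeff_map, hφ]
    have h1 : ((PO.coeff i : y.O) : L) ∈ Set.range (algebraMap K L) := by
      rw [IsGalois.mem_range_algebraMap_iff_fixed]
      intro σ
      have h2 := MulSemiringAction.smul_coeff_charpoly a i σ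
      rw [← hP1, Polynomial.coeff_map] at h2
      exact h2
    obtain ⟨c, hc⟩ := h1
    have hcr : x.Reg c := h.reg.1 (by rw [hc]; exact (PO.coeff i).2)
    have h3 : y.resHom (PO.coeff i) = h.resMap (x.red c) := by
      rw [h.resMap_red hcr, hc, y.red_of_reg (PO.coeff i).2]
    rw [h3, ← map_pow]
    congr 1
    have := pow_card_RF x (x.red c) 1
    rwa [mul_one] at this
  have hroot : (PO.map y.resHom).eval (y.red a) = 0 := by
    rw [hP2, Polynomial.eval_prod]
    apply Finset.prod_eq_zero (Finset.mem_univ 1)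
    simp
  have hroot2 : (PO.map y.resHom).eval (y.red a ^ Q) = 0 := by
    rw [← hP3, ← hφ, Polynomial.eval_map, Polynomial.eval₂_at_apply, hroot, map_zero]
  rw [hP2, Polynomial.eval_prod, Finset.prod_eq_zero_iff] at hroot2
  obtain ⟨σ, -, hσ⟩ := hroot2
  simp only [Polynomial.eval_sub, Polynomial.eval_X, Polynomial.eval_C, sub_eq_zero] at hσ
  have hfix : σ • y = y := by
    by_contra hne
    have h1 := ha (σ⁻¹ • y) (mem_above.2 ⟨e, h.smul _⟩)
    rw [if_neg (by rw [inv_smul_eq_iff]; exact fun h => hne h.symm), sub_zero, ge_inv_smul,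
      y.ge_one_iff (hregσ σ), ← hσ, hred] at h1
    exact (pow_ne_zero _ g.ne_zero) h1
  refine ⟨σ, fun b hb => ?_⟩
  have hσb := reg_of_smul_eq hfix hb
  rw [y.ge_one_iff (y.reg_sub hσb (y.reg_pow hb _)), y.red_sub hσb (y.reg_pow hb _), y.red_pow hb,
    sub_eq_zero, ← resRep_red y ⟨σ, hfix⟩ hb]
  by_cases hb0 : y.red b = 0
  · rw [hb0, map_zero, zero_pow (pow_ne_zero _ Nat.card_pos.ne')]
  · obtain ⟨m, hm⟩ := hg (Units.mk0 _ hb0)
    have h1 : y.red b = y.red a ^ m := by
      rw [hred]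
      have := congrArg Units.val hm
      simpa using this.symm
    rw [h1, map_pow, resRep_red y _ hreg, ← pow_mul, mul_comm, pow_mul, hσ]

theorem resRep_frob {x : Place k K} {y : Place k L} {σ : L ≃ₐ[K] L} (h : FrobAt y x σ)
    [Fintype k] : resRep K y ⟨σ, h.smul_eq⟩ =
      FiniteField.frobeniusAlgEquivOfAlgebraic k y.RF ^ x.deg := by
  ext c
  obtain ⟨a, ha, rfl⟩ := y.red_surjective c
  rw [resRep_red y _ ha, (h.red ha).2, AlgEquiv.coe_pow,
    FiniteField.coe_frobeniusAlgEquivOfAlgebraic_iterate, Nat.card_eq_fintype_card]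

theorem orderOf_frob_pow {x : Place k K} {y : Place k L} {e : ℕ} (h : Over y x e) [Fintype k] :
    x.deg * orderOf (FiniteField.frobeniusAlgEquivOfAlgebraic k y.RF ^ x.deg) = y.deg := by
  have h1 : x.deg ∣ y.deg := ⟨_, h.deg_mul.symm⟩
  rw [orderOf_pow' _ x.deg_pos.ne', FiniteField.orderOf_frobeniusAlgEquivOfAlgebraic]
  change x.deg * (y.deg / y.deg.gcd x.deg) = y.deg
  rw [Nat.gcd_eq_right h1, Nat.mul_div_cancel' h1]

theorem range_resRep {x : Place k K} {y : Place k L} {e : ℕ} (h : Over y x e) [Fintype k] :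
    (resRep K y).range =
      Subgroup.zpowers (FiniteField.frobeniusAlgEquivOfAlgebraic k y.RF ^ x.deg) := by
  apply le_antisymm
  · rintro _ ⟨σ, rfl⟩
    obtain ⟨j, hj⟩ := (FiniteField.bijective_frobeniusAlgEquivOfAlgebraic_pow k y.RF).2 (resRep K y σ)
    have h1 : FiniteField.frobeniusAlgEquivOfAlgebraic k x.RF ^ j.1 = 1 := by
      ext c
      apply h.resMap.toRingHom.injective
      obtain ⟨a, ha, rfl⟩ := x.red_surjective c
      have h2 := resRep_red y σ (h.reg.2 ha)
      rw [← hj, AlgEquiv.commutes, ← h.resMap_red ha] at h2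
      simp only [AlgEquiv.coe_pow, FiniteField.coe_frobeniusAlgEquivOfAlgebraic_iterate] at h2 ⊢
      rw [← map_pow] at h2
      exact h2
    have h2 := orderOf_dvd_of_pow_eq_one h1
    rw [FiniteField.orderOf_frobeniusAlgEquivOfAlgebraic] at h2
    obtain ⟨m, hm⟩ := h2
    rw [← hj]
    change FiniteField.frobeniusAlgEquivOfAlgebraic k y.RF ^ j.1 ∈ _
    rw [hm, pow_mul]
    exact Subgroup.npow_mem_zpowers _ _
  · rw [Subgroup.zpowers_le]
    obtain ⟨σ, hσ⟩ := exists_frobAt h
    exact ⟨⟨σ, hσ.smul_eq⟩, resRep_frob hσ⟩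

theorem card_stab {x : Place k K} {y : Place k L} {e : ℕ} (h : Over y x e) :
    x.deg * Nat.card (MulAction.stabilizer (L ≃ₐ[K] L) y) = Nat.card (inert K y) * y.deg := by
  have := Fintype.ofFinite k
  have h1 := Subgroup.card_eq_card_quotient_mul_card_subgroup (resRep K y).ker
  rw [Nat.card_congr (QuotientGroup.quotientKerEquivRange (resRep K y)).toEquiv, range_resRep h,
    Nat.card_zpowers, ker_resRep,
    Nat.card_congr (Subgroup.subgroupOfEquivOfLe (inert_le y)).toEquiv] at h1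
  rw [h1, ← orderOf_frob_pow h]
  ring

theorem card_above_mul {x : Place k K} {y : Place k L} {e : ℕ} (h : Over y x e) :
    (above L x).card * Nat.card (MulAction.stabilizer (L ≃ₐ[K] L) y) = Nat.card (L ≃ₐ[K] L) := by
  classical
  have h1 : MulAction.orbit (L ≃ₐ[K] L) y = (above L x : Set (Place k L)) := by
    ext w
    rw [Finset.mem_coe, mem_above]
    constructor
    · rintro ⟨σ, rfl⟩
      exact ⟨e, h.smul σ⟩
    · rintro ⟨e', h'⟩
      exact transitive h h'
  have h2 := Nat.card_congr (MulAction.orbitProdStabilizerEquivGroup (L ≃ₐ[K] L) y)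
  rw [Nat.card_prod, h1] at h2
  rw [← h2]
  congr 1
  simp

theorem efg {x : Place k K} {y : Place k L} {e : ℕ} (h : Over y x e) :
    (above L x).card * (e * y.deg) = Nat.card (L ≃ₐ[K] L) * x.deg := by
  classical
  obtain ⟨S, T, hS, hT, hsum⟩ := exists_places_over (K' := L) x
  have h1 : S = above L x := by
    ext w
    rw [mem_above]
    constructor
    · intro hw
      obtain ⟨e', he', -⟩ := hT w hw
      exact ⟨e', he'⟩
    · rintro ⟨e', he'⟩
      exact hS w e' he'
  rw [IsGalois.card_aut_eq_finrank, ← hsum, Finset.sum_mul, ← h1, ← smul_eq_mul, ← Finset.sum_const]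
  refine Finset.sum_congr rfl fun w hw => ?_
  obtain ⟨e', he', h2, -⟩ := hT w hw
  obtain ⟨σ, rfl⟩ := transitive h he'
  have h3 : e' = e := he'.unique (h.smul σ)
  subst h3
  rw [h2, ← deg_smul σ y, ← he'.deg_mul]
  ring

theorem card_inert {x : Place k K} {y : Place k L} {e : ℕ} (h : Over y x e) :
    Nat.card (inert K y) = e := by
  have h1 := card_stab h
  have h2 := card_above_mul h
  have h3 := efg h
  have h4 : 0 < (above L x).card := Finset.card_pos.2 ⟨y, mem_above.2 ⟨e, h⟩⟩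
  have h5 := y.deg_pos
  have h6 : (above L x).card * (e * y.deg) = (above L x).card * (Nat.card (inert K y) * y.deg) := by
    rw [h3, ← h2, ← h1]; ring
  have h7 := Nat.eq_of_mul_eq_mul_left h4 h6
  exact (Nat.eq_of_mul_eq_mul_right h5 h7).symm

theorem inert_eq_bot {x : Place k K} {y : Place k L} {e : ℕ} (h : Over y x e)
    (hx : ¬ Ramified L x) : inert K y = ⊥ := by
  have h1 : e = 1 := by
    by_contra hc
    exact hx ⟨y, e, h, by have := h.1; omega⟩
  rw [← Subgroup.card_eq_one, card_inert h, h1]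

theorem not_ramified_of_inert {x : Place k K}
    (h : ∀ (y : Place k L) (e : ℕ), Over y x e → inert K y = ⊥) : ¬ Ramified L x := by
  rintro ⟨y, e, h1, h2⟩
  have h3 := card_inert h1
  rw [h y e h1, Subgroup.card_bot] at h3
  omega

theorem FrobAt.unique {x : Place k K} {y : Place k L} {σ τ : L ≃ₐ[K] L} (h1 : FrobAt y x σ)
    (h2 : FrobAt y x τ) (hI : inert K y = ⊥) : σ = τ := by
  have := Fintype.ofFinite k
  have h3 : (⟨σ, h1.smul_eq⟩ : MulAction.stabilizer (L ≃ₐ[K] L) y)⁻¹ * ⟨τ, h2.smul_eq⟩ ∈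
      (resRep K y).ker := by
    rw [MonoidHom.mem_ker, map_mul, map_inv, resRep_frob h1, resRep_frob h2, inv_mul_cancel]
  rw [ker_resRep, Subgroup.mem_subgroupOf, hI, Subgroup.mem_bot] at h3
  exact inv_mul_eq_one.1 h3

theorem FrobAt.deg {x : Place k K} {y : Place k L} {e : ℕ} (h : Over y x e) {σ : L ≃ₐ[K] L}
    (h1 : FrobAt y x σ) (hI : inert K y = ⊥) : x.deg * orderOf σ = y.deg := by
  have := Fintype.ofFinite k
  have h2 : Function.Injective (resRep K y) := by
    rw [← MonoidHom.ker_eq_bot_iff, ker_resRep, hI, Subgroup.bot_subgroupOf]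
  rw [← orderOf_frob_pow h, ← resRep_frob h1, orderOf_injective _ h2]
  congr 1
  exact (Subgroup.orderOf_mk _ _).symm

theorem FrobAt.card {x : Place k K} {y : Place k L} {e : ℕ} (h : Over y x e) {σ : L ≃ₐ[K] L}
    (h1 : FrobAt y x σ) (hI : inert K y = ⊥) :
    (above L x).card * orderOf σ = Nat.card (L ≃ₐ[K] L) := by
  have h2 := efg h
  have h3 := card_inert h
  rw [hI, Subgroup.card_bot] at h3
  rw [← h3, ← h1.deg h hI] at h2
  have h4 := x.deg_pos
  apply Nat.eq_of_mul_eq_mul_right h4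
  rw [← h2]; ring

theorem isFrobAt_frob (x : Place k K) : IsFrobAt x (frob L x) := by
  have h : ∃ σ : L ≃ₐ[K] L, IsFrobAt x σ := by
    obtain ⟨y, e, h⟩ := exists_above L x
    obtain ⟨σ, hσ⟩ := exists_frobAt h
    exact ⟨σ, y, e, h, hσ⟩
  unfold frob
  rw [dif_pos h]
  exact h.choose_spec

theorem IsFrobAt.frobAt (hc : ∀ σ τ : L ≃ₐ[K] L, σ * τ = τ * σ) {x : Place k K}
    {σ : L ≃ₐ[K] L} (hσ : IsFrobAt x σ) {y : Place k L} {e : ℕ} (h : Over y x e) :
    FrobAt y x σ := by
  obtain ⟨y', e', h', h1⟩ := isFrobAt_iff.1 hσ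
  obtain ⟨τ, rfl⟩ := transitive h' h
  have := h1.conj τ
  rwa [hc τ σ, mul_inv_cancel_right] at this

theorem frobAt_frob (hc : ∀ σ τ : L ≃ₐ[K] L, σ * τ = τ * σ) {x : Place k K}
    {y : Place k L} {e : ℕ} (h : Over y x e) : FrobAt y x (frob L x) :=
  (isFrobAt_frob x).frobAt hc h

theorem IsFrobAt.eq_frob (hc : ∀ σ τ : L ≃ₐ[K] L, σ * τ = τ * σ) {x : Place k K}
    {σ : L ≃ₐ[K] L} (hσ : IsFrobAt x σ) (hx : ¬ Ramified L x) : σ = frob L x := by
  obtain ⟨y, e, h⟩ := exists_above L x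
  exact (hσ.frobAt hc h).unique (frobAt_frob hc h) (inert_eq_bot h hx)

section tower
variable {M : Type*} [Field M] [Algebra k M] [Algebra K M] [Algebra M L] [IsScalarTower k K M]
  [IsScalarTower k M L] [IsScalarTower K M L] [IsFF k M] [FiniteDimensional K M] [IsGalois K M]
  [FiniteDimensional M L] [IsGalois M L]

theorem exists_mid {x : Place k K} {y : Place k L} {e : ℕ} (h : Over y x e) :
    ∃ (z : Place k M) (e1 e2 : ℕ), Over y z e1 ∧ Over z x e2 ∧ e = e1 * e2 := by
  obtain ⟨e1, z, h1⟩ := exists_under (K := M) y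
  obtain ⟨e2, x', h2⟩ := exists_under (K := K) z
  have h3 := h1.trans h2
  have h4 := h.under_unique h3
  subst h4
  exact ⟨z, e1, e2, h1, h2, h.unique h3⟩

theorem IsFrobAt.restrict {x : Place k K} {σ : L ≃ₐ[K] L} (hσ : IsFrobAt x σ) :
    IsFrobAt x (AlgEquiv.restrictNormalHom M σ) := by
  obtain ⟨y, e, h, h1⟩ := isFrobAt_iff.1 hσ
  obtain ⟨z, e1, e2, h2, h3, -⟩ := exists_mid (M := M) h
  refine isFrobAt_iff.2 ⟨z, e2, h3, fun a ha => ?_⟩
  rw [← h2.ge, map_sub, map_pow]
  have h4 := h1 _ (h2.reg.2 ha)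
  rw [← AlgEquiv.restrictNormal_commutes σ M a] at h4
  exact h4

theorem inert_not_le {x : Place k K} (hx : Ramified M x) {y : Place k L} {e : ℕ}
    (h : Over y x e) : ¬ inert K y ≤ (AlgEquiv.restrictNormalHom (F := K) (K₁ := L) M).ker := by
  intro hle
  obtain ⟨z, e1, e2, h2, h3, h4⟩ := exists_mid (M := M) h
  obtain ⟨z', e', h5, h6⟩ := hx
  obtain ⟨τ, rfl⟩ := transitive h3 h5
  have h7 : e' = e2 := h5.unique (h3.smul τ)
  subst h7
  have hfix : ∀ σ : inert K y, ∀ a : M, σ.1 (algebraMap M L a) = algebraMap M L a := by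
    intro σ a
    have h8 : AlgEquiv.restrictNormalHom (F := K) (K₁ := L) M σ.1 = 1 := hle σ.2
    rw [← AlgEquiv.restrictNormal_commutes σ.1 M a]
    change algebraMap M L (AlgEquiv.restrictNormalHom (F := K) (K₁ := L) M σ.1 a) = _
    rw [h8]; rfl
  let j : inert K y → inert M y := fun σ =>
    ⟨{ σ.1.toRingEquiv with commutes' := hfix σ }, σ.2⟩
  have hj : Function.Injective j := by
    intro σ τ hστ
    apply Subtype.ext
    ext a
    exact congrArg (fun s : inert M y => s.1 a) hστ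
  have h8 := Nat.card_le_card_of_injective j hj
  rw [card_inert h, card_inert h2, h4] at h8
  have := h2.1
  nlinarith

end tower

end

end H735Z
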