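import Pool.Agent.H735Z.LinAlg

/-! Group rings of cyclic `p`-groups in characteristic `p`. -/

set_option autoImplicit false
set_option linter.all false

open Module MonoidAlgebra
open Polynomial hiding mapRingHom

namespace H735Z

variable {G : Type*} [CommGroup G]

section
variable {R S : Type*} [CommRing R] [CommRing S]

/-- the augmentation -/
noncomputable def aug (R G : Type*) [CommRing R] [CommGroup G] : MonoidAlgebra R G →ₐ[R] R :=
  MonoidAlgebra.lift R R G 1

theorem aug_single (τ : G) (a : R) : aug R G (single τ a) = a := by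
  simp [aug]

theorem aug_map (φ : R →+* S) (f : MonoidAlgebra R G) :
    aug S G (mapRingHom G φ f) = φ (aug R G f) := by
  induction f using MonoidAlgebra.induction_linear with
  | zero => simp
  | add x y hx hy => simp only [map_add, hx, hy]
  | single m r => rw [mapRingHom_single, aug_single, aug_single]

theorem charP_monoidAlgebra (p : ℕ) [CharP R p] : CharP (MonoidAlgebra R G) p :=
  charP_of_injective_algebraMap (R := R) (fun _ _ h => single_right_injective h) p

theorem exists_aug {σ : G} (hσ : ∀ τ : G, ∃ j : ℕ, τ = σ ^ j) (h : MonoidAlgebra R G) :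
    ∃ h', h = single 1 (aug R G h) + (single σ 1 - 1) * h' := by
  induction h using MonoidAlgebra.induction_linear with
  | zero => exact ⟨0, by simp⟩
  | add x y hx hy =>
    obtain ⟨x', hx⟩ := hx
    obtain ⟨y', hy⟩ := hy
    refine ⟨x' + y', ?_⟩
    rw [map_add, single_add]
    linear_combination hx + hy
  | single m r =>
    obtain ⟨j, rfl⟩ := hσ m
    refine ⟨single 1 r * ∑ i ∈ Finset.range j, single σ 1 ^ i, ?_⟩
    rw [aug_single, mul_left_comm, mul_geom_sum, single_pow, mul_sub, single_mul_single]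
    simp

theorem eps_pow {p n : ℕ} [Fact p.Prime] [CharP R p] {σ : G} (hN : σ ^ p ^ n = 1) :
    (single σ 1 - 1 : MonoidAlgebra R G) ^ p ^ n = 0 := by
  have := charP_monoidAlgebra (R := R) (G := G) p
  rw [sub_pow_char_pow, single_pow, hN, one_pow, one_pow, ← one_def, sub_self]

theorem factor_induction {p n : ℕ} [hp : Fact p.Prime] [CharP R p] {σ : G}
    (hσ : ∀ τ : G, ∃ j : ℕ, τ = σ ^ j) (hN : σ ^ p ^ n = 1) (P : MonoidAlgebra R G → Prop)
    (h1 : P 1) (hmul : ∀ f g, P f → P g → P (f * g))
    (hbase : ∀ (a : R) (r : ℕ), 0 < r → P (1 + single 1 a * (single σ 1 - 1) ^ r))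
    (f : MonoidAlgebra R G) (hf : aug R G f = 1) : P f := by
  have := charP_monoidAlgebra (R := R) (G := G) p
  have hε := eps_pow (R := R) hN
  set ε : MonoidAlgebra R G := single σ 1 - 1
  have hpos : 0 < p ^ n := pow_pos hp.out.pos n
  have key : ∀ t r : ℕ, 0 < r → p ^ n ≤ r + t → ∀ h, P (1 + ε ^ r * h) := by
    intro t
    induction t with
    | zero =>
      intro r _ hr h
      rw [pow_eq_zero_of_le (by omega) hε, zero_mul, add_zero]
      exact h1
    | succ t ih =>
      intro r hr0 hr h
      obtain ⟨h', hh⟩ := exists_aug hσ h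
      let U : MonoidAlgebra R G := 1 + single 1 (aug R G h) * ε ^ r
      have hU : U ^ p ^ n = 1 := by
        rw [add_pow_char_pow, one_pow, mul_pow, ← pow_mul, mul_comm r, pow_mul, hε,
          zero_pow hr0.ne', mul_zero, add_zero]
      have hU' : U * U ^ (p ^ n - 1) = 1 := by
        rw [← pow_succ', Nat.sub_add_cancel hpos, hU]
      have h2 : 1 + ε ^ r * h = U * (1 + ε ^ (r + 1) * (U ^ (p ^ n - 1) * h')) := by
        have h3 : U = 1 + single 1 (aug R G h) * ε ^ r := rfl
        linear_combination ε ^ r * hh - h3 - ε ^ (r + 1) * h' * hU'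
      rw [h2]
      exact hmul _ _ (hbase _ r hr0) (ih (r + 1) (by omega) (by omega) _)
  obtain ⟨h', hh⟩ := exists_aug hσ f
  rw [hf, ← one_def] at hh
  have h2 := key (p ^ n) 1 one_pos (by omega) h'
  rw [pow_one] at h2
  rw [hh]
  exact h2

theorem telescope (Φ : R →+* R) {ρ s : R} {N d : ℕ} (hN : 0 < N) (hρ : ρ ^ N = 1)
    (h : (Φ ^ d) ρ = s * ρ) : ∏ i ∈ Finset.range d, (Φ ^ i) (Φ ρ * ρ ^ (N - 1)) = s := by
  have h1 : ρ * ρ ^ (N - 1) = 1 := by rw [← pow_succ', Nat.sub_add_cancel hN, hρ]
  have h2 : ∀ d : ℕ, (∏ i ∈ Finset.range d, (Φ ^ i) (Φ ρ * ρ ^ (N - 1))) * ρ = (Φ ^ d) ρ := by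
    intro d
    induction d with
    | zero => simp
    | succ d ih =>
      rw [Finset.prod_range_succ, mul_right_comm, ih, ← map_mul, mul_left_comm, h1, mul_one,
        pow_succ]
      rfl
  have h3 := h2 d
  rw [h] at h3
  linear_combination ρ ^ (N - 1) * h3 -
    (∏ i ∈ Finset.range d, (Φ ^ i) (Φ ρ * ρ ^ (N - 1)) - s) * h1

variable [Fintype G]

/-- the resolvent -/
noncomputable def resolv (act : G → R →+* R) (θ : R) : MonoidAlgebra R G :=
  ∑ τ : G, single τ⁻¹ (act τ θ)

theorem resolv_pow {p n : ℕ} [Fact p.Prime] [CharP R p] (hN : ∀ τ : G, τ ^ p ^ n = 1)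
    (act : G → R →+* R) {θ : R} (hθ : ∑ τ : G, act τ θ = 1) : resolv act θ ^ p ^ n = 1 := by
  have := charP_monoidAlgebra (R := R) (G := G) p
  unfold resolv
  rw [sum_pow_char_pow]
  simp only [single_pow, hN]
  have h1 : ∑ τ : G, (single 1 (act τ θ ^ p ^ n) : MonoidAlgebra R G) =
      singleOneRingHom ((∑ τ : G, act τ θ) ^ p ^ n) := by
    rw [sum_pow_char_pow, map_sum]
    rfl
  rw [h1, hθ, one_pow, map_one]

theorem aug_resolv (act : G → R →+* R) {θ : R} (hθ : ∑ τ : G, act τ θ = 1) :
    aug R G (resolv act θ) = 1 := by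
  unfold resolv
  simp only [map_sum, aug_single, hθ]

theorem map_resolv (act : G → R →+* R) (hact : ∀ s t b, act s (act t b) = act (s * t) b) (θ : R)
    (s : G) : mapRingHom G (act s) (resolv act θ) = single s 1 * resolv act θ := by
  unfold resolv
  rw [map_sum, Finset.mul_sum]
  simp only [mapRingHom_single, single_mul_single, hact, one_mul]
  refine Fintype.sum_equiv (Equiv.mulLeft s) _ _ fun τ => ?_
  simp [mul_comm]

end

section
variable (k : Type*) [Field k] [Fintype k]

/-- the coefficientwise Frobenius -/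
noncomputable def fr (F G : Type*) [CommRing F] [Algebra k F] [CommGroup G] :
    MonoidAlgebra F G →+* MonoidAlgebra F G :=
  mapRingHom G (FiniteField.frobeniusAlgHom k F).toRingHom

variable {k} {F F' : Type*} [CommRing F] [Algebra k F] [CommRing F'] [Algebra k F']

theorem fr_single (τ : G) (a : F) : fr k F G (single τ a) = single τ (a ^ Nat.card k) := by
  rw [fr, mapRingHom_single, Nat.card_eq_fintype_card]
  rfl

theorem fr_pow_single (i : ℕ) (τ : G) (a : F) :
    (fr k F G ^ i) (single τ a) = single τ (a ^ (Nat.card k ^ i)) := by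
  induction i with
  | zero => simp
  | succ i ih =>
    rw [pow_succ', RingHom.mul_def, RingHom.comp_apply, ih, fr_single, ← pow_mul, ← pow_succ]

theorem map_fr (π : F →+* F') (w : MonoidAlgebra F G) :
    mapRingHom G π (fr k F G w) = fr k F' G (mapRingHom G π w) := by
  induction w using MonoidAlgebra.induction_linear with
  | zero => simp
  | add x y hx hy => simp only [map_add, hx, hy]
  | single m r => rw [fr_single, mapRingHom_single, mapRingHom_single, fr_single, map_pow]

theorem fr_pow_map (π : F →+* F') (φ : F →+* F) (d : ℕ)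
    (h : ∀ b, π (φ b) = π b ^ (Nat.card k ^ d)) (w : MonoidAlgebra F G) :
    (fr k F' G ^ d) (mapRingHom G π w) = mapRingHom G π (mapRingHom G φ w) := by
  induction w using MonoidAlgebra.induction_linear with
  | zero => simp
  | add x y hx hy => simp only [map_add, hx, hy]
  | single m r => simp only [mapRingHom_single, fr_pow_single, h]

theorem fr_pow_const (i : ℕ) (w : MonoidAlgebra k G) :
    (fr k F G ^ i) (mapRingHom G (algebraMap k F) w) = mapRingHom G (algebraMap k F) w := by
  rw [fr_pow_map (algebraMap k F) (RingHom.id k) i, MonoidAlgebra.mapRingHom_id, RingHom.id_apply]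
  intro b
  rw [← map_pow, Nat.card_eq_fintype_card, FiniteField.pow_card_pow, RingHom.id_apply]

theorem local_norm {F0 : Type*} [Field F0] [Algebra k F0] [FiniteDimensional k F0]
    (ψ : F0 →ₐ[k] F) (a : F0) (η : MonoidAlgebra k G) :
    mapRingHom G (algebraMap k F) (aeval η (Algebra.lmul k F0 a).charpoly.reverse) =
      ∏ i ∈ Finset.range (finrank k F0),
        (fr k F G ^ i) (1 - single 1 (ψ a) * mapRingHom G (algebraMap k F) η) := by
  let j : F0 →+* MonoidAlgebra F G := singleOneRingHom.comp ψ.toRingHom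
  have h1 : ∀ P : k[X], mapRingHom G (algebraMap k F) (aeval η P) =
      eval₂ j (mapRingHom G (algebraMap k F) η) (P.map (algebraMap k F0)) := by
    intro P
    rw [aeval_def, hom_eval₂, eval₂_map]
    congr 1
    ext c : 1
    simp [j]
  rw [h1, ← reverse_map', charpoly_lmul_finite, reverse_prod', eval₂_finset_prod]
  refine Finset.prod_congr rfl fun i _ => ?_
  rw [reverse_X_sub_C', map_sub, map_one, map_mul, fr_pow_const, fr_pow_single, eval₂_sub,
    eval₂_one, eval₂_mul, eval₂_C, eval₂_X, ← map_pow]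
  rfl

end

end H735Z
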