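import Mathlib

/-! Characteristic polynomials: multiplicativity, residue fields, reversal. -/

set_option autoImplicit false
set_option linter.all false

open Module Polynomial

namespace H735Z

open Module.Basis in
theorem charpoly_eq_mul {k V : Type*} [Field k] [AddCommGroup V] [Module k V]
    [FiniteDimensional k V] (W : Submodule k V) (e : V →ₗ[k] V) (he : W ≤ W.comap e) :
    e.charpoly = (e.restrict he).charpoly * (W.mapQ W e he).charpoly := by
  let m := Module.Free.ChooseBasisIndex k W
  let bW : Basis m k W := Module.Free.chooseBasis k W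
  let n := Module.Free.ChooseBasisIndex k (V ⧸ W)
  let bQ : Basis n k (V ⧸ W) := Module.Free.chooseBasis k (V ⧸ W)
  let b := sumQuot bW bQ
  let A : Matrix m m k := LinearMap.toMatrix bW bW (e.restrict he)
  let B : Matrix m n k := Matrix.of fun i l ↦
    ((sumQuot bW bQ).repr (e ((sumQuot bW bQ) (Sum.inr l)))) (Sum.inl i)
  let D : Matrix n n k := LinearMap.toMatrix bQ bQ (W.mapQ W e he)
  suffices LinearMap.toMatrix b b e = Matrix.fromBlocks A B 0 D by
    rw [← LinearMap.charpoly_toMatrix e b, this, ← LinearMap.charpoly_toMatrix _ bW,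
      ← LinearMap.charpoly_toMatrix _ bQ, Matrix.charpoly_fromBlocks_zero₂₁]
  ext u v
  cases u with
  | inl i =>
    cases v with
    | inl k =>
      simp only [b, sumQuot_inl, Matrix.fromBlocks_apply₁₁, A, LinearMap.toMatrix_apply]
      apply sumQuot_repr_inl_of_mem
    | inr l => simp [b, LinearMap.toMatrix_apply, Matrix.fromBlocks_apply₁₂, B]
  | inr j =>
    cases v with
    | inl k =>
      suffices W.mkQ (e (bW k)) = 0 by simp [LinearMap.toMatrix_apply, b, this]
      rw [← LinearMap.mem_ker, Submodule.ker_mkQ]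
      exact he (Submodule.coe_mem (bW k))
    | inr l =>
      simp only [LinearMap.toMatrix_apply, sumQuot_repr_inr,
        Matrix.fromBlocks_apply₂₂, b, D]
      rw [← sumQuot_inr bW bQ l, W.mapQ_apply]
      simp

theorem charpoly_eq_of_surj {k V Q1 Q2 : Type*} [Field k] [AddCommGroup V] [Module k V]
    [AddCommGroup Q1] [Module k Q1] [AddCommGroup Q2] [Module k Q2] [FiniteDimensional k Q1]
    [FiniteDimensional k Q2] (E1 : V →ₗ[k] Q1) (E2 : V →ₗ[k] Q2) (h1 : Function.Surjective E1)
    (h2 : Function.Surjective E2) (hker : LinearMap.ker E1 = LinearMap.ker E2) (T : V → V)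
    (φ1 : Q1 →ₗ[k] Q1) (φ2 : Q2 →ₗ[k] Q2) (h3 : ∀ v, φ1 (E1 v) = E1 (T v))
    (h4 : ∀ v, φ2 (E2 v) = E2 (T v)) : φ1.charpoly = φ2.charpoly := by
  let e : Q1 ≃ₗ[k] Q2 := (E1.quotKerEquivOfSurjective h1).symm ≪≫ₗ
    (Submodule.quotEquivOfEq _ _ hker) ≪≫ₗ E2.quotKerEquivOfSurjective h2
  have he : ∀ v, e (E1 v) = E2 v := by
    intro v
    have : (E1.quotKerEquivOfSurjective h1).symm (E1 v) = Submodule.Quotient.mk v := by
      rw [LinearEquiv.symm_apply_eq]; rfl
    simp only [e, LinearEquiv.trans_apply, this]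
    rfl
  rw [← LinearEquiv.charpoly_conj e φ1]
  congr 1
  ext q
  obtain ⟨v, rfl⟩ := h2 q
  rw [LinearEquiv.conj_apply_apply, ← he, LinearEquiv.symm_apply_apply, h3, he, he, h4]

theorem charpoly_lmul_finite {k F : Type*} [Field k] [Finite k] [Field F] [Algebra k F]
    [FiniteDimensional k F] (a : F) :
    (Algebra.lmul k F a).charpoly.map (algebraMap k F) =
      ∏ i ∈ Finset.range (finrank k F), (X - C (a ^ (Nat.card k ^ i))) := by
  classical
  have := Fintype.ofFinite k
  have : Finite F := Module.finite_of_finite k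
  let b := Module.finBasis k F
  let φ : Fin (finrank k F) → (F →ₐ[k] F) := fun i => FiniteField.frobeniusAlgHom k F ^ i.1
  have hφ : ∀ i x, φ i x = x ^ (Nat.card k ^ i.1) := by
    intro i x
    simp only [φ]
    rw [AlgHom.coe_pow, FiniteField.coe_frobeniusAlgHom, pow_iterate, Nat.card_eq_fintype_card]
  let S : Matrix (Fin (finrank k F)) (Fin (finrank k F)) F := Matrix.of fun i j => φ i (b j)
  have hli : LinearIndependent F fun i => (φ i).toLinearMap :=
    (linearIndependent_algHom_toLinearMap k F F).comp _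
      (FiniteField.bijective_frobeniusAlgHom_pow k F).1
  have hS : IsUnit S := by
    rw [← Matrix.linearIndependent_rows_iff_isUnit, Fintype.linearIndependent_iff]
    intro c hc
    apply Fintype.linearIndependent_iff.1 hli c
    apply b.ext
    intro j
    have := congrFun hc j
    simpa [S, Matrix.row, LinearMap.sum_apply] using this
  let M := (Algebra.leftMulMatrix b a).map (algebraMap k F)
  let D : Matrix (Fin (finrank k F)) (Fin (finrank k F)) F := Matrix.diagonal fun i => φ i a
  have hSM : S * M = D * S := by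
    ext i j
    rw [Matrix.diagonal_mul, Matrix.mul_apply]
    simp only [S, M, Matrix.of_apply, Matrix.map_apply, Algebra.leftMulMatrix_eq_repr_mul]
    rw [← map_mul]
    conv_rhs => rw [← b.sum_repr (a * b j)]
    rw [map_sum]
    refine Finset.sum_congr rfl fun l _ => ?_
    rw [map_smul, Algebra.smul_def, mul_comm]
  obtain ⟨U, hU⟩ := hS
  have hM : M = (U⁻¹ : (Matrix _ _ F)ˣ) * (D * S) := by
    rw [← hSM, ← hU, ← mul_assoc, Units.inv_mul, one_mul]
  have h1 : M.charpoly = D.charpoly := by
    rw [hM, Matrix.charpoly_mul_comm, ← hU, mul_assoc, Units.mul_inv, mul_one]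
  rw [← LinearMap.charpoly_toMatrix _ b, ← Matrix.charpoly_map]
  change M.charpoly = _
  rw [h1, Matrix.charpoly_diagonal, Finset.prod_range]
  simp only [hφ]

theorem reverse_one' {R : Type*} [CommRing R] : (1 : R[X]).reverse = 1 := by
  rw [← C_1, reverse_C]

theorem reverse_pow' {R : Type*} [CommRing R] [IsDomain R] (P : R[X]) (n : ℕ) :
    (P ^ n).reverse = P.reverse ^ n := by
  induction n with
  | zero => simp [reverse_one']
  | succ n ih => rw [pow_succ, reverse_mul_of_domain, ih, pow_succ]

theorem reverse_prod' {R ι : Type*} [CommRing R] [IsDomain R] (s : Finset ι) (P : ι → R[X]) :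
    (∏ i ∈ s, P i).reverse = ∏ i ∈ s, (P i).reverse := by
  classical
  induction s using Finset.induction_on with
  | empty => simp [reverse_one']
  | insert a s ha ih => rw [Finset.prod_insert ha, Finset.prod_insert ha, reverse_mul_of_domain, ih]

theorem reverse_X_sub_C' {R : Type*} [CommRing R] [IsDomain R] (a : R) :
    (X - C a).reverse = 1 - C a * X := by
  unfold reverse
  rw [natDegree_X_sub_C, reflect_sub, reflect_one_X, reflect_C, pow_one]

theorem reverse_map' {R S : Type*} [Field R] [Field S] (f : R →+* S) (P : R[X]) :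
    (P.map f).reverse = P.reverse.map f := by
  unfold reverse
  rw [natDegree_map, reflect_map]

theorem aeval_reverse_eq {k Γ : Type*} [Field k] [CommRing Γ] [Algebra k Γ] {η : Γ} {N : ℕ}
    (hη : η ^ N = 0) {P Q : k[X]} (hd : P.natDegree = Q.natDegree)
    (h : ∀ i, i < N → i ≤ P.natDegree → P.coeff (P.natDegree - i) = Q.coeff (P.natDegree - i)) :
    aeval η P.reverse = aeval η Q.reverse := by
  have h1 : X ^ N ∣ P.reverse - Q.reverse := by
    rw [X_pow_dvd_iff]
    intro i hi
    rw [coeff_sub, coeff_reverse, coeff_reverse, ← hd, sub_eq_zero]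
    by_cases h2 : i ≤ P.natDegree
    · rw [revAt_le h2]; exact h i hi h2
    · rw [revAt_eq_self_of_lt (by omega), coeff_eq_zero_of_natDegree_lt (by omega),
        coeff_eq_zero_of_natDegree_lt (by omega)]
  obtain ⟨R, hR⟩ := h1
  rw [← sub_eq_zero, ← map_sub, hR, map_mul, map_pow, aeval_X, hη, zero_mul]

theorem coeff_mem_of_monic {Ω : Type*} [Field Ω] [IsAlgClosed Ω] (R : Subring Ω)
    (P : Polynomial Ω) (hP : P.Monic) (h : ∀ α : Ω, P.eval α = 0 → α ∈ R) (m : ℕ) :
    P.coeff m ∈ R := by
  have h1 := (IsAlgClosed.splits P).eq_prod_roots_of_monic hP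
  have h2 : (P.roots.map fun a => X - C a).prod ∈ lifts R.subtype := by
    apply Subsemiring.multiset_prod_mem
    intro Q hQ
    obtain ⟨r, hr', rfl⟩ := Multiset.mem_map.1 hQ
    exact ⟨X - C ⟨r, h r ((mem_roots hP.ne_zero).1 hr')⟩, by simp⟩
  rw [← h1] at h2
  obtain ⟨y, hy⟩ := (lifts_iff_coeff_lifts _).1 h2 m
  rw [← hy]; exact y.2

/-- Roots of the characteristic polynomial of multiplication by `a` are conjugates of `a`. -/
theorem exists_algHom_of_charpoly {K0 K Ω ι : Type*} [Field K0] [Field K] [Field Ω] [Algebra K0 K]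
    [Algebra K0 Ω] [IsAlgClosed Ω] [Fintype ι] [DecidableEq ι] (b : Basis ι K0 K) (a : K) (α : Ω)
    (h : ((Algebra.leftMulMatrix b a).charpoly.map (algebraMap K0 Ω)).eval α = 0) :
    ∃ φ : K →ₐ[K0] Ω, φ a = α := by
  have : FiniteDimensional K0 K := b.finiteDimensional_of_finite
  apply IntermediateField.exists_algHom_of_splits_of_aeval
    (fun s => ⟨IsIntegral.of_finite K0 s, IsAlgClosed.splits _⟩)
  rw [← Matrix.charpoly_map] at h
  have h1 := Matrix.mem_spectrum_iff_isRoot_charpoly.2 h
  have h2 := spectrum.subset_polynomial_aeval _ ((minpoly K0 a).map (algebraMap K0 Ω)) ⟨α, h1, rfl⟩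
  have h3 : aeval ((Algebra.leftMulMatrix b a).map (algebraMap K0 Ω))
      ((minpoly K0 a).map (algebraMap K0 Ω)) = 0 := by
    rw [aeval_map_algebraMap]
    have h4 : (Algebra.leftMulMatrix b a).map (algebraMap K0 Ω) =
        ((Algebra.ofId K0 Ω).mapMatrix.comp (Algebra.leftMulMatrix b)) a := rfl
    rw [h4, aeval_algHom_apply, minpoly.aeval, map_zero]
  rw [h3] at h2
  have : Nonempty ι := by
    by_contra h0
    rw [not_nonempty_iff] at h0
    have : Subsingleton K := b.repr.toEquiv.subsingleton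
    exact not_subsingleton K this
  rw [spectrum.zero_eq, Set.mem_singleton_iff] at h2
  rw [aeval_def, ← eval_map]
  exact h2

theorem isIntegral_coeff_pow {R K Ω : Type*} [CommRing R] [Field K] [Field Ω] [Algebra R K]
    [Algebra K Ω] [Algebra R Ω] [IsScalarTower R K Ω] [IsAlgClosed Ω] (χ : K[X]) (hχ : χ.Monic)
    {v : K} (hv : v ≠ 0) {N : ℕ} (hN : 0 < N)
    (hroot : ∀ α : Ω, (χ.map (algebraMap K Ω)).eval α = 0 →
      IsIntegral R (α ^ N * algebraMap K Ω v)) {i : ℕ} (hi : i ≤ χ.natDegree) :
    IsIntegral R (χ.coeff (χ.natDegree - i) ^ N * v ^ i) := by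
  obtain ⟨ω, hω⟩ := IsAlgClosed.exists_pow_nat_eq (algebraMap K Ω v) hN
  have hω0 : ω ≠ 0 := by
    rintro rfl
    rw [zero_pow hN.ne', eq_comm, map_eq_zero] at hω
    exact hv hω
  have h1 := coeff_mem_of_monic (integralClosure R Ω).toSubring
    ((χ.map (algebraMap K Ω)).scaleRoots ω) ((monic_scaleRoots_iff ω).2 (hχ.map _)) (by
      intro β hβ
      rw [← mul_div_cancel₀ β hω0, scaleRoots_eval_mul] at hβ
      have h2 := hroot _ ((mul_eq_zero.1 hβ).resolve_left (pow_ne_zero _ hω0))
      rw [← hω, ← mul_pow, div_mul_cancel₀ _ hω0] at h2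
      exact IsIntegral.of_pow hN h2) (χ.natDegree - i)
  rw [coeff_scaleRoots, natDegree_map, Nat.sub_sub_self hi, coeff_map] at h1
  have h3 : IsIntegral R ((algebraMap K Ω (χ.coeff (χ.natDegree - i)) * ω ^ i) ^ N) :=
    IsIntegral.pow h1 N
  rw [mul_pow, ← pow_mul, mul_comm i N, pow_mul, hω, ← map_pow, ← map_pow, ← map_mul,
    isIntegral_algebraMap_iff (algebraMap K Ω).injective] at h3
  exact h3

open scoped nonZeroDivisors in
theorem exists_algHom_of_charpoly' {A B K Ω ι : Type*} (K0 : Type*) [CommRing A] [CommRing B]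
    [Algebra A B] [Field K0] [Algebra A K0] [IsFractionRing A K0] [Field K] [Algebra B K]
    [Algebra K0 K] [Algebra A K] [IsScalarTower A K0 K] [IsScalarTower A B K]
    [IsLocalization (Algebra.algebraMapSubmonoid B A⁰) K] [Field Ω] [Algebra K Ω] [Algebra K0 Ω]
    [IsScalarTower K0 K Ω] [IsAlgClosed Ω] [Fintype ι] [DecidableEq ι] (b : Basis ι A B) (a : B)
    (α : Ω) (h : (((Algebra.leftMulMatrix b a).charpoly.map (algebraMap A K)).map
      (algebraMap K Ω)).eval α = 0) : ∃ φ : K →ₐ[K0] Ω, φ (algebraMap B K a) = α := by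
  apply exists_algHom_of_charpoly (b.localizationLocalization K0 A⁰ K)
  rw [← Algebra.map_leftMulMatrix_localization A A⁰ b a, RingHom.mapMatrix_apply,
    Matrix.charpoly_map, Polynomial.map_map, IsScalarTower.algebraMap_eq K0 K Ω, RingHom.comp_assoc,
    ← IsScalarTower.algebraMap_eq A K0 K, ← Polynomial.map_map]
  exact h

end H735Z
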