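import Pool.Agent.H735Z.Recip1
import Pool.Agent.H735Z.GroupRing
import Pool.Agent.H735Z.Galois

/-! The Artin reciprocity law for cyclic `p`-extensions of function fields in characteristic
`p`. -/

set_option autoImplicit false
set_option linter.all false
set_option linter.overlappingInstances false

open Module MonoidAlgebra
open Polynomial hiding mapRingHom

namespace H735Z

variable {k K L : Type*} [Field k] [Field K] [Field L] [Algebra k K] [Algebra k L] [Algebra K L]
  [IsScalarTower k K L]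

/-- functions regular outside `T` -/
def regOut (T : Finset (Place k K)) : Subalgebra k K where
  carrier := {f | ∀ x : Place k K, x ∉ T → x.Reg f}
  mul_mem' := fun ha hb x hx => x.reg_mul (ha x hx) (hb x hx)
  add_mem' := fun ha hb x hx => x.reg_add (ha x hx) (hb x hx)
  algebraMap_mem' := fun c x _ => x.reg_const c

variable (L) in
/-- functions regular outside the places above `T` -/
def regAbove (T : Finset (Place k K)) : Subalgebra k L where
  carrier := {f | ∀ (y : Place k L) (x : Place k K) (e : ℕ), Over y x e → x ∉ T → y.Reg f}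
  mul_mem' := fun ha hb y x e h hx => y.reg_mul (ha y x e h hx) (hb y x e h hx)
  add_mem' := fun ha hb y x e h hx => y.reg_add (ha y x e h hx) (hb y x e h hx)
  algebraMap_mem' := fun c y _ _ _ _ => y.reg_const c

/-- the inclusion -/
def regInc (T : Finset (Place k K)) : regOut T →+* regAbove L T :=
  ((algebraMap K L).comp (regOut T).val.toRingHom).codRestrict (regAbove L T)
    fun a y x e h hx => h.reg.2 (a.2 x hx)

/-- the Galois action -/
def regAct (T : Finset (Place k K)) (σ : L ≃ₐ[K] L) : regAbove L T →+* regAbove L T :=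
  ((σ : L →+* L).comp (regAbove L T).val.toRingHom).codRestrict (regAbove L T)
    fun a y x e h hx => (ge_inv_smul σ y 0 a.1).1 (a.2 _ x e (h.smul σ⁻¹) hx)

/-- the reduction map -/
noncomputable def regRed {T : Finset (Place k K)} {y : Place k L} {x : Place k K} {e : ℕ}
    (h : Over y x e) (hx : x ∉ T) : regAbove L T →+* y.RF :=
  y.redHom (regAbove L T).val.toRingHom fun a => a.2 y x e h hx

theorem Cong.mono {T : Finset (Place k K)} {μ μ' : ℕ} (h : μ ≤ μ') {g : K} (hg : Cong T μ' g) :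
    Cong T μ g := fun x hx => (hg x hx).mono (by exact_mod_cast h)

variable [Fintype k] [IsFF k K] {G : Type*} [CommGroup G]

variable (L) in
/-- elements of the group ring whose local norms satisfy a reciprocity law -/
def Good (T : Finset (Place k K)) (f : MonoidAlgebra (regOut T) G) : Prop :=
  ∃ (n : Place k K → MonoidAlgebra k G) (μ : ℕ),
    (∀ (y : Place k L) (x : Place k K) (e : ℕ) (h : Over y x e) (hx : x ∉ T),
      mapRingHom G (algebraMap k y.RF) (n x) = ∏ i ∈ Finset.range x.deg,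
        (fr k y.RF G ^ i) (mapRingHom G ((regRed h hx).comp (regInc T)) f)) ∧
    ∀ g : K, Transcendental k g → Cong T μ g →
      wt n (tn (divisor k ((g - 1)⁻¹ + 1))) = wt n (tn (divisor k (g - 1)⁻¹))

theorem wt_mul {ι E : Type*} [CommRing E] (c c' : ι → E) (D : ι →₀ ℕ) :
    wt (fun x => c x * c' x) D = wt c D * wt c' D := by
  unfold wt
  simp only [mul_pow]
  exact Finsupp.prod_mul

theorem good_one (T : Finset (Place k K)) : Good L T (1 : MonoidAlgebra (regOut T) G) :=
  ⟨fun _ => 1, 0, fun y x e h hx => by simp, fun g _ _ => by rw [wt_one, wt_one]⟩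

theorem good_mul {T : Finset (Place k K)} (f g : MonoidAlgebra (regOut T) G) (hf : Good L T f)
    (hg : Good L T g) : Good L T (f * g) := by
  obtain ⟨n1, μ1, h1, h2⟩ := hf
  obtain ⟨n2, μ2, h3, h4⟩ := hg
  refine ⟨fun x => n1 x * n2 x, max μ1 μ2, fun y x e h hx => ?_, fun g hg hc => ?_⟩
  · simp only [map_mul, Finset.prod_mul_distrib, h1 y x e h hx, h3 y x e h hx]
  · rw [wt_mul, wt_mul, h2 g hg (hc.mono (le_max_left _ _)), h4 g hg (hc.mono (le_max_right _ _))]

theorem not_reg_of_cong {T : Finset (Place k K)} {μ : ℕ} (hμ : 0 < μ) {g : K} (hg : g ≠ 1)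
    (hc : Cong T μ g) {x : Place k K} (hx : x ∈ T) : x.ord (g - 1)⁻¹ < 0 := by
  have h1 := (hc x hx).resolve_left (sub_ne_zero.2 hg)
  rw [x.ord_inv]
  omega

theorem good_base {p n : ℕ} [hp : Fact p.Prime] [CharP k p] {σ : G} (hN : σ ^ p ^ n = 1)
    (T : Finset (Place k K)) (a : regOut T) (r : ℕ) (hr : 0 < r) :
    Good L T (1 + single 1 a * (single σ 1 - 1) ^ r : MonoidAlgebra (regOut T) G) := by
  let η : MonoidAlgebra k G := - (single σ 1 - 1) ^ r
  have hη : η ^ p ^ n = 0 := by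
    rw [neg_pow, ← pow_mul, mul_comm r, pow_mul, eps_pow hN, zero_pow hr.ne', mul_zero]
  refine ⟨fun x => aeval η (Cx a.1 x).reverse,
    p ^ n * T.sup (fun x => (- x.ord a.1).toNat) + 1, fun y x e h hx => ?_, fun g hg hc => ?_⟩
  · refine (local_norm h.resMap (x.red a.1) η).trans (Finset.prod_congr rfl fun i _ => ?_)
    congr 1
    simp only [η, map_neg, map_pow, map_sub, map_add, map_mul, map_one, mapRingHom_single,
      mul_neg, sub_neg_eq_add]
    rw [h.resMap_red (a.2 x hx)]
    rfl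
  · have hg1 : g ≠ 1 := by rintro rfl; exact hg isAlgebraic_one
    have hg2 : g - 1 ≠ 0 := sub_ne_zero.2 hg1
    have hu : Transcendental k (g - 1)⁻¹ := by
      intro h
      apply hg
      have h1 : IsAlgebraic k (g - 1) := by simpa using h.inv
      simpa using h1.add isAlgebraic_one
    refine recip_one hu (pow_pos hp.out.pos n) ?_ ?_ hη
    · intro x hx
      apply a.2
      intro hxT
      have h1 := not_reg_of_cong (by omega) hg1 hc hxT
      rw [x.reg_iff (inv_ne_zero hg2)] at hx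
      omega
    · intro x hx
      rw [inv_inv] at hx ⊢
      by_cases hxT : x ∈ T
      · refine x.reg_of_ge ?_ (((x.ge_ord a.1).pow (p ^ n)).mul (hc x hxT))
        have h1 : (- x.ord a.1).toNat ≤ T.sup (fun x => (- x.ord a.1).toNat) :=
          Finset.le_sup (f := fun x : Place k K => (- x.ord a.1).toNat) hxT
        generalize T.sup (fun x => (- x.ord a.1).toNat) = s at h1
        have h2 : - x.ord a.1 ≤ s := by omega
        have h3 : (0 : ℤ) ≤ (p ^ n : ℕ) := by positivity
        have h4 := mul_le_mul_of_nonneg_left h2 h3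
        push_cast at h4 ⊢
        linarith
      · exact x.reg_mul (x.reg_pow (a.2 x hxT) _) hx

theorem divisor_eq_zero_of_isAlgebraic {g : K} (hg0 : g ≠ 0) (hg : IsAlgebraic k g) :
    divisor k g = 0 := by
  ext x
  rw [divisor_apply, x.ord_eq_zero_of_isAlgebraic hg0 hg]
  rfl

theorem divisor_split {g : K} (hg0 : g ≠ 0) (hg1 : g ≠ 1) :
    divisor k g = nd (tn (divisor k ((g - 1)⁻¹ + 1))) - nd (tn (divisor k (g - 1)⁻¹)) := by
  have hv : g - 1 ≠ 0 := sub_ne_zero.2 hg1
  have h1 : (g - 1)⁻¹ + 1 = g * (g - 1)⁻¹ := by field_simp; ring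
  ext x
  rw [Finsupp.sub_apply, nd_apply, nd_apply, tn_apply, tn_apply, divisor_apply, divisor_apply,
    divisor_apply, h1, x.ord_mul hg0 (inv_ne_zero hv), x.ord_inv]
  rcases lt_trichotomy (x.ord g) 0 with h | h | h
  · have h2 := (x.ord_add_eq hg0 (neg_ne_zero.2 one_ne_zero) (by rw [x.ord_neg_one]; exact h)).2
    rw [← sub_eq_add_neg] at h2
    omega
  · have h2 := x.ord_sub hg0 one_ne_zero hv
    rw [x.ord_one, h] at h2
    omega
  · have h2 := (x.ord_add_eq (neg_ne_zero.2 one_ne_zero) hg0 (by rw [x.ord_neg_one]; exact h)).2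
    rw [x.ord_neg_one, neg_add_eq_sub] at h2
    omega

variable [IsFF k L] [FiniteDimensional K L] [IsGalois K L] [Fintype G]

theorem recip_of_theta {p n : ℕ} [hp : Fact p.Prime] [CharP k p] (ε : G ≃* (L ≃ₐ[K] L)) {σ : G}
    (hσ : ∀ τ : G, ∃ j : ℕ, τ = σ ^ j) (hN : σ ^ p ^ n = 1) (T : Finset (Place k K))
    (θ : regAbove L T) (hθ : ∑ τ : L ≃ₐ[K] L, τ θ.1 = 1) :
    ∃ μ : ℕ, 0 < μ ∧ ∀ g : K, g ≠ 0 → Cong T μ g →
      zw (fun x => ε.symm (frob L x)) (divisor k g) = 1 := by
  classical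
  have hc : ∀ s t : L ≃ₐ[K] L, s * t = t * s := by
    intro s t
    apply ε.symm.injective
    rw [map_mul, map_mul, mul_comm]
  have hN' : ∀ τ : G, τ ^ p ^ n = 1 := by
    intro τ
    obtain ⟨j, rfl⟩ := hσ τ
    rw [← pow_mul, mul_comm, pow_mul, hN, one_pow]
  have hpos : 0 < p ^ n := pow_pos hp.out.pos n
  have hcR : CharP (regOut T) p := charP_of_injective_algebraMap (algebraMap k _).injective p
  have hcR' : CharP (regAbove L T) p := charP_of_injective_algebraMap (algebraMap k _).injective p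
  let act : G → regAbove L T →+* regAbove L T := fun τ => regAct T (ε τ)
  have hact : ∀ s t b, act s (act t b) = act (s * t) b := by
    intro s t b
    apply Subtype.ext
    change ε s (ε t b.1) = ε (s * t) b.1
    rw [map_mul]; rfl
  have hθ' : ∑ τ : G, act τ θ = 1 := by
    apply Subtype.ext
    rw [AddSubmonoidClass.coe_finset_sum, OneMemClass.coe_one, ← hθ]
    exact Fintype.sum_equiv ε.toEquiv _ _ fun τ => rfl
  let ρ := resolv act θ
  have hρ : ρ ^ p ^ n = 1 := resolv_pow hN' act hθ'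
  let f' := fr k (regAbove L T) G ρ * ρ ^ (p ^ n - 1)
  have hinv : ∀ s : G, mapRingHom G (act s) f' = f' := by
    intro s
    have h1 : (single s 1 : MonoidAlgebra (regAbove L T) G) * single s 1 ^ (p ^ n - 1) = 1 := by
      rw [← pow_succ', Nat.sub_add_cancel hpos, single_pow, hN', one_pow, one_def]
    simp only [f', ρ]
    rw [map_mul, map_pow, map_fr, map_resolv act hact, map_mul, fr_single, one_pow, mul_pow]
    linear_combination (fr k (regAbove L T) G (resolv act θ) * resolv act θ ^ (p ^ n - 1)) * h1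
  have hcoef : ∀ s : G, ∃ c : regOut T, regInc T c = f'.coeff s := by
    intro s
    obtain ⟨c, hc⟩ := (IsGalois.mem_range_algebraMap_iff_fixed (F := K) (f'.coeff s).1).2 (by
      intro τ
      have h1 := congrArg (fun w => (w.coeff s).1) (hinv (ε.symm τ))
      simp only [coeff_mapRingHom] at h1
      rw [← h1]
      change _ = ε (ε.symm τ) _
      rw [ε.apply_symm_apply, h1]
      rfl)
    refine ⟨⟨c, fun x hx => ?_⟩, Subtype.ext hc⟩
    obtain ⟨y, e, h⟩ := exists_above L x
    rw [← h.reg, hc]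
    exact (f'.coeff s).2 y x e h hx
  choose c hc' using hcoef
  let f : MonoidAlgebra (regOut T) G := ∑ s : G, single s (c s)
  have hf : mapRingHom G (regInc T) f = f' := by
    ext s : 2
    simp only [f, coeff_mapRingHom, MonoidAlgebra.coeff_sum, coeff_single, Finsupp.finset_sum_apply,
      Finsupp.single_apply, Finset.sum_ite_eq', Finset.mem_univ, if_true, hc']
  have haug : aug (regOut T) G f = 1 := by
    have h1 : regInc (L := L) T (aug (regOut T) G f) = regInc T 1 := by
      rw [← aug_map, hf, map_one]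
      simp only [f', fr, map_mul, map_pow, aug_map, ρ, aug_resolv act hθ', map_one, one_pow,
        mul_one]
    apply Subtype.ext
    exact (algebraMap K L).injective (congrArg Subtype.val h1)
  obtain ⟨nn, μ, h1, h2⟩ := factor_induction hσ hN (Good L T) (good_one T) good_mul
    (good_base hN T) f haug
  have h3 : ∀ x, x ∉ T → nn x = single (ε.symm (frob L x)) 1 := by
    intro x hx
    obtain ⟨y, e, h⟩ := exists_above L x
    apply MonoidAlgebra.map_injective (algebraMap k y.RF).toAddMonoidHom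
      (algebraMap k y.RF).injective
    change mapRingHom G (algebraMap k y.RF) _ = mapRingHom G (algebraMap k y.RF) _
    rw [h1 y x e h hx, mapRingHom_single, map_one, MonoidAlgebra.mapRingHom_comp,
      RingHom.comp_apply, hf]
    simp only [f', map_mul (mapRingHom G (regRed h hx)), map_pow (mapRingHom G (regRed h hx)),
      map_fr]
    apply telescope _ hpos (by rw [← map_pow, hρ, map_one])
    rw [fr_pow_map (regRed h hx) (act (ε.symm (frob L x))), map_resolv act hact, map_mul,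
      mapRingHom_single, map_one]
    intro b
    change y.red (ε (ε.symm (frob L x)) b.1) = y.red b.1 ^ _
    rw [ε.apply_symm_apply]
    exact ((frobAt_frob hc h).red (b.2 y x e h hx)).2
  refine ⟨μ + 1, by omega, fun g hg0 hg => ?_⟩
  by_cases hga : IsAlgebraic k g
  · rw [divisor_eq_zero_of_isAlgebraic hg0 hga, zw_zero]
  have hg1 : g ≠ 1 := by rintro rfl; exact hga isAlgebraic_one
  have h4 := h2 g hga (hg.mono (by omega))
  have h5 : ∀ D : Place k K →₀ ℕ, (∀ x ∈ T, D x = 0) →
      wt nn D = single (zw (fun x => ε.symm (frob L x)) (nd D)) 1 := by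
    intro D hD
    have h6 := zw_nd (fun x => (MonoidAlgebra.of k G).toHomUnits (ε.symm (frob L x))) D
    rw [← map_zw] at h6
    refine Eq.trans ?_ h6.symm
    unfold wt
    refine Finsupp.prod_congr fun x hx => ?_
    rw [h3 x fun hxT => (Finsupp.mem_support_iff.1 hx) (hD x hxT)]
    rfl
  have h6 : ∀ x ∈ T, x.ord (g - 1)⁻¹ < 0 := fun x hx => not_reg_of_cong (by omega) hg1 hg hx
  rw [h5, h5, single_left_inj one_ne_zero] at h4
  · rw [divisor_split hg0 hg1, zw_sub, h4, div_self']
  · intro x hx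
    have := h6 x hx
    rw [tn_apply, divisor_apply]
    omega
  · intro x hx
    have h7 := h6 x hx
    have h8 := (x.ord_add_eq (inv_ne_zero (sub_ne_zero.2 hg1)) one_ne_zero
      (by rw [x.ord_one]; exact h7)).2
    rw [tn_apply, divisor_apply]
    omega

theorem exists_trace_ne {y : Place k L} (hI : inert K y = ⊥) :
    ∃ t : L, y.Reg t ∧ ∀ b : L, y.Ge 1 (b - t) →
      (∀ τ : L ≃ₐ[K] L, τ • y ≠ y → (τ⁻¹ • y).Ge 1 b) →
      y.Reg (∑ τ : L ≃ₐ[K] L, τ b) ∧ y.red (∑ τ : L ≃ₐ[K] L, τ b) ≠ 0 := by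
  classical
  let D := MulAction.stabilizer (L ≃ₐ[K] L) y
  have hinj : Function.Injective (resRep K y) := by
    rw [← MonoidHom.ker_eq_bot_iff, ker_resRep, hI, Subgroup.bot_subgroupOf]
  let φ : D → (y.RF →* y.RF) := fun τ => (resRep K y τ : y.RF →* y.RF)
  have hφ : Function.Injective φ := by
    intro s t h
    apply hinj
    ext c
    exact congrArg (fun f : y.RF →* y.RF => f c) h
  have hli := (linearIndependent_monoidHom y.RF y.RF).comp φ hφ
  have h1 : ∃ c : y.RF, ∑ τ : D, resRep K y τ c ≠ 0 := by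
    by_contra h
    push Not at h
    have h2 := Fintype.linearIndependent_iff.1 hli (fun _ => 1) (by
      ext c
      simpa [φ] using h c) 1
    exact one_ne_zero h2
  obtain ⟨c, hc⟩ := h1
  obtain ⟨t, ht, rfl⟩ := y.red_surjective c
  refine ⟨t, ht, fun b hb hb' => ?_⟩
  obtain ⟨hb1, hb2⟩ := y.red_eq_of_ge ht hb
  have h2 : ∀ τ : L ≃ₐ[K] L, y.Reg (τ b) := by
    intro τ
    by_cases h : τ • y = y
    · exact reg_of_smul_eq h hb1
    · exact y.reg_of_ge zero_le_one ((ge_inv_smul τ y 1 b).1 (hb' τ h))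
  have h3 : y.Reg (∑ τ : L ≃ₐ[K] L, τ b) := Place.Ge.sum (P := y) (n := 0) _ _ fun τ _ => h2 τ
  refine ⟨h3, ?_⟩
  have h4 : y.red (∑ τ : L ≃ₐ[K] L, τ b) = ∑ τ : L ≃ₐ[K] L, y.red (τ b) := by
    have h5 := map_sum y.resHom (fun τ : L ≃ₐ[K] L => (⟨τ b, h2 τ⟩ : y.O)) Finset.univ
    simp only [← y.red_of_reg, AddSubmonoidClass.coe_finset_sum] at h5
    exact h5
  rw [h4, ← Finset.sum_filter_add_sum_filter_not Finset.univ (fun τ : L ≃ₐ[K] L => τ ∈ D),
    Finset.sum_eq_zero (s := Finset.univ.filter fun τ : L ≃ₐ[K] L => ¬ τ ∈ D), add_zero,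
    Finset.sum_subtype (p := fun τ : L ≃ₐ[K] L => τ ∈ D) _ (by simp)]
  · convert hc using 2 with τ
    rw [← hb2, resRep_red y τ hb1]
  · intro τ hτ
    rw [← y.ge_one_iff (h2 τ)]
    exact (ge_inv_smul τ y 1 b).1 (hb' τ (Finset.mem_filter.1 hτ).2)

theorem exists_theta (Y : Finset (Place k K)) (hY : ∀ x ∈ Y, ¬ Ramified L x) :
    ∃ θ : L, ∑ τ : L ≃ₐ[K] L, τ θ = 1 ∧
      ∀ (y : Place k L) (x : Place k K) (e : ℕ), Over y x e → x ∈ Y → y.Reg θ := by
  classical
  rcases Y.eq_empty_or_nonempty with rfl | ⟨x0, hx0⟩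
  · obtain ⟨θ, hθ⟩ := Algebra.trace_surjective K L 1
    refine ⟨θ, by rw [← trace_eq_sum_automorphisms, hθ, map_one], fun y x e _ hx => ?_⟩
    simp at hx
  choose yy ee hyy using fun x : Place k K => exists_above L x
  have h1 : ∀ x : Place k K, ∃ t : L, x ∈ Y → ((yy x).Reg t ∧ ∀ b : L, (yy x).Ge 1 (b - t) →
      (∀ τ : L ≃ₐ[K] L, τ • yy x ≠ yy x → (τ⁻¹ • yy x).Ge 1 b) →
      (yy x).Reg (∑ τ : L ≃ₐ[K] L, τ b) ∧ (yy x).red (∑ τ : L ≃ₐ[K] L, τ b) ≠ 0) := by
    intro x
    by_cases hx : x ∈ Y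
    · obtain ⟨t, ht⟩ := exists_trace_ne (inert_eq_bot (hyy x) (hY x hx))
      exact ⟨t, fun _ => ht⟩
    · exact ⟨0, fun h => absurd h hx⟩
  choose tt htt using h1
  choose eu un hun using fun y : Place k L => exists_under (K := K) y
  obtain ⟨b, hb⟩ := weak_approx (Y.biUnion (above L))
    (fun y => if y = yy (un y) then tt (un y) else 0) 1
  have hb' : ∀ (y : Place k L) (x : Place k K) (e : ℕ), Over y x e → x ∈ Y →
      y.Ge 1 (b - if y = yy x then tt x else 0) := by
    intro y x e h hx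
    have h2 := hb y (Finset.mem_biUnion.2 ⟨x, hx, mem_above.2 ⟨e, h⟩⟩)
    rwa [(hun y).under_unique h] at h2
  have hbreg : ∀ (y : Place k L) (x : Place k K) (e : ℕ), Over y x e → x ∈ Y → y.Reg b := by
    intro y x e h hx
    refine (y.red_eq_of_ge ?_ (hb' y x e h hx)).1
    split_ifs with h2
    · rw [h2]; exact (htt x hx).1
    · exact y.reg_zero
  have htr : ∀ x ∈ Y, Algebra.trace K L b ≠ 0 ∧ x.ord (Algebra.trace K L b) = 0 := by
    intro x hx
    obtain ⟨h2, h3⟩ := (htt x hx).2 b (by simpa using hb' _ x _ (hyy x) hx) (by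
      intro τ hτ
      have h4 := hb' _ x _ ((hyy x).smul τ⁻¹) hx
      rwa [if_neg (by rwa [inv_smul_eq_iff, eq_comm]), sub_zero] at h4)
    rw [← trace_eq_sum_automorphisms] at h2 h3
    rw [Ne, ← (yy x).ge_one_iff h2, (hyy x).ge] at h3
    rw [(hyy x).reg] at h2
    unfold Place.Ge at h3
    unfold Place.Reg at h2
    push Not at h3
    exact ⟨h3.1, by have := h2.resolve_left h3.1; omega⟩
  have h0 := (htr x0 hx0).1
  refine ⟨algebraMap K L (Algebra.trace K L b)⁻¹ * b, ?_, fun y x e h hx => ?_⟩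
  · simp only [map_mul, AlgEquiv.commutes]
    rw [← Finset.mul_sum, ← trace_eq_sum_automorphisms, ← map_mul, inv_mul_cancel₀ h0, map_one]
  · refine y.reg_mul (h.reg.2 (Or.inr ?_)) (hbreg y x e h hx)
    rw [x.ord_inv, (htr x hx).2, neg_zero]

theorem exists_poles (θ : L) : ∃ P : Finset (Place k K),
    (∀ x ∈ P, ∃ (y : Place k L) (e : ℕ), Over y x e ∧ ¬ y.Reg θ) ∧
    ∀ (y : Place k L) (x : Place k K) (e : ℕ), Over y x e → x ∉ P → y.Reg θ := by
  classical
  choose eu un hun using fun y : Place k L => exists_under (K := K) y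
  refine ⟨(((finite_support θ).toFinset).filter fun y => ¬ y.Reg θ).image un, ?_, ?_⟩
  · intro x hx
    obtain ⟨y, hy, rfl⟩ := Finset.mem_image.1 hx
    exact ⟨y, _, hun y, (Finset.mem_filter.1 hy).2⟩
  · intro y x e h hx
    by_contra h1
    apply hx
    refine Finset.mem_image.2 ⟨y, Finset.mem_filter.2 ⟨?_, h1⟩, (hun y).under_unique h⟩
    rw [Set.Finite.mem_toFinset]
    intro h2
    exact h1 (Or.inr h2.ge)

theorem Cong.mul {T : Finset (Place k K)} {μ : ℕ} (hμ : 0 < μ) {g g' : K} (h : Cong T μ g)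
    (h' : Cong T μ g') : Cong T μ (g * g') := by
  intro x hx
  have h1 : g * g' - 1 = (g - 1) * g' + (g' - 1) := by ring
  rw [h1]
  refine Place.Ge.add ?_ (h' x hx)
  have h2 := (h x hx).mul (x.ge_ord g')
  rwa [(h'.ord hμ hx).2, add_zero] at h2

/-- Artin reciprocity. -/
theorem reciprocity {p n : ℕ} [hp : Fact p.Prime] [CharP k p] (ε : G ≃* (L ≃ₐ[K] L)) {σ : G}
    (hσ : ∀ τ : G, ∃ j : ℕ, τ = σ ^ j) (hN : σ ^ p ^ n = 1) (T : Finset (Place k K))
    (hT : ∀ x, x ∉ T → ¬ Ramified L x) :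
    ∃ μ : ℕ, 0 < μ ∧ ∀ g : K, g ≠ 0 → Cong T μ g →
      zw (fun x => ε.symm (frob L x)) (divisor k g) = 1 := by
  classical
  obtain ⟨θ0, h0, -⟩ := exists_theta (k := k) (K := K) (L := L) ∅ (by simp)
  obtain ⟨P0, -, hP0⟩ := exists_poles (k := k) (K := K) θ0
  obtain ⟨θ1, h1, h1'⟩ := exists_theta (k := k) (K := K) (L := L) (P0 \ T)
    fun x hx => hT x (Finset.mem_sdiff.1 hx).2
  obtain ⟨P1, hP1, hP1'⟩ := exists_poles (k := k) (K := K) θ1
  obtain ⟨z, hz⟩ := exists_not_mem P0
  obtain ⟨μ0, hμ0, hr0⟩ := recip_of_theta ε hσ hN (T ∪ P0)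
    ⟨θ0, fun y x e h hx => hP0 y x e h fun h2 => hx (Finset.mem_union_right _ h2)⟩ h0
  obtain ⟨μ1, hμ1, hr1⟩ := recip_of_theta ε hσ hN (insert z (T ∪ P1))
    ⟨θ1, fun y x e h hx => hP1' y x e h fun h2 =>
      hx (Finset.mem_insert_of_mem (Finset.mem_union_right _ h2))⟩ h1
  refine ⟨μ0 + μ1, by omega, fun g hg0 hg => ?_⟩
  obtain ⟨b, hb⟩ := weak_approx (P0 ∪ insert z (T ∪ P1)) (fun x => if x ∈ P0 \ T then g else 1)
    ((μ0 + μ1 : ℕ) + (P0.sup (fun x => (x.ord g).toNat) : ℕ))
  have h2 : Cong (insert z (T ∪ P1)) (μ0 + μ1) b := by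
    intro x hx
    have h3 := hb x (Finset.mem_union_right _ hx)
    rw [if_neg] at h3
    · exact h3.mono (by omega)
    · intro h4
      rcases Finset.mem_insert.1 hx with rfl | h5
      · exact hz (Finset.mem_sdiff.1 h4).1
      · rcases Finset.mem_union.1 h5 with h6 | h6
        · exact (Finset.mem_sdiff.1 h4).2 h6
        · obtain ⟨y, e, h7, h8⟩ := hP1 x h6
          exact h8 (h1' y x e h7 h4)
  have hb0 : b ≠ 0 := (h2.ord (by omega) (Finset.mem_insert_self _ _)).1
  have h3 : Cong (T ∪ P0) (μ0 + μ1) (b * g⁻¹) := by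
    intro x hx
    by_cases hxT : x ∈ T
    · have h4 : Cong T (μ0 + μ1) b := fun w hw =>
        h2 w (Finset.mem_insert_of_mem (Finset.mem_union_left _ hw))
      exact (h4.mul (by omega) (hg.inv (by omega))) x hxT
    · have hxP : x ∈ P0 := (Finset.mem_union.1 hx).resolve_left hxT
      have h4 := hb x (Finset.mem_union_left _ hxP)
      rw [if_pos (Finset.mem_sdiff.2 ⟨hxP, hxT⟩)] at h4
      have h5 : b * g⁻¹ - 1 = (b - g) * g⁻¹ := by field_simp
      rw [h5]
      refine (h4.mul (x.ge_ord g⁻¹)).mono ?_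
      have h6 : (x.ord g).toNat ≤ P0.sup (fun x => (x.ord g).toNat) :=
        Finset.le_sup (f := fun x : Place k K => (x.ord g).toNat) hxP
      rw [x.ord_inv]
      omega
  have h4 := hr0 _ (mul_ne_zero hb0 (inv_ne_zero hg0)) (h3.mono (by omega))
  have h5 := hr1 b hb0 (h2.mono (by omega))
  rw [divisor_mul hb0 (inv_ne_zero hg0), zw_add, h5, one_mul, divisor_inv, zw_neg, inv_eq_one] at h4
  exact h4

end H735Z
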