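import Pool.Agent.H735Z.Tower
import Pool.Agent.H735Z.Recip2

/-! L-functions of towers are polynomials; the zeta function version of the estimates. -/

set_option autoImplicit false
set_option linter.all false
set_option linter.overlappingInstances false

open Module

namespace H735Z

theorem prod_one_sub_root {R : Type*} [CommRing R] [IsDomain R] {ξ : R} {f : ℕ} (hf : 0 < f)
    (hξ : IsPrimitiveRoot ξ f) (t : R) (g : ℕ) :
    ∏ j ∈ Finset.range (g * f), (1 - ξ ^ j * t) = (1 - t ^ f) ^ g := by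
  have h1 : ∏ j ∈ Finset.range f, (1 - ξ ^ j * t) = 1 - t ^ f := by
    have h2 := congrArg (Polynomial.eval 1) (X_pow_sub_C_eq_prod hξ hf (rfl : t ^ f = t ^ f))
    rw [Polynomial.eval_prod] at h2
    simpa using h2.symm
  induction g with
  | zero => simp
  | succ g ih =>
    rw [Nat.succ_mul, Finset.prod_range_add, ih, pow_succ, ← h1]
    congr 1
    refine Finset.prod_congr rfl fun j _ => ?_
    rw [pow_add, mul_comm g, pow_mul, hξ.pow_eq_one, one_pow, one_mul]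

theorem zeta_eq (k L : Type*) [Field k] [Field L] [Algebra k L] [Finite k] [IsFF k L] :
    zeta k L = Eu (goodDeg k L) Set.univ (fun _ => (1 : ℚ)) := by
  have h := tprod_eq_Eu_univ (E := ℚ) (goodDeg k L)
  unfold zeta
  exact h

theorem zeta_num_int {k K : Type*} [Field k] [Field K] [Algebra k K] [Finite k] [IsFF k K]
    (hg : ∀ a : K, IsAlgebraic k a → a ∈ Set.range (algebraMap k K)) :
    ∃ P : Polynomial ℤ, ∀ (E : Type) [CommRing E],
      ((P.map (Int.castRingHom E) : Polynomial E) : PowerSeries E) = (1 - PowerSeries.X) *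
        (1 - PowerSeries.C (Nat.card k : E) * PowerSeries.X) *
          Eu (goodDeg k K) Set.univ (fun _ => (1 : E)) := by
  obtain ⟨W, hW⟩ := zeta_num hg
  let Z : PowerSeries ℤ := (1 - PowerSeries.X) *
    (1 - PowerSeries.C (Nat.card k : ℤ) * PowerSeries.X) *
      Eu (goodDeg k K) Set.univ (fun _ => (1 : ℤ))
  have hZ : ∀ (E : Type) [CommRing E], PowerSeries.map (Int.castRingHom E) Z =
      (1 - PowerSeries.X) * (1 - PowerSeries.C (Nat.card k : E) * PowerSeries.X) *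
        Eu (goodDeg k K) Set.univ (fun _ => (1 : E)) := by
    intro E _
    simp only [Z, map_mul, map_sub, map_one, PowerSeries.map_X, map_Eu_one, map_natCast]
  have h1 : ∀ m, W.coeff m = Int.castRingHom ℚ (PowerSeries.coeff m Z) := by
    intro m
    rw [← PowerSeries.coeff_map, hZ, ← hW, Polynomial.coeff_coe]
  obtain ⟨P, hP⟩ : W ∈ Polynomial.lifts (Int.castRingHom ℚ) :=
    (Polynomial.lifts_iff_coeff_lifts _).2 fun m => ⟨_, (h1 m).symm⟩
  have h2 : (P : PowerSeries ℤ) = Z := by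
    ext m
    apply (Int.castRingHom ℚ).injective_int
    rw [← h1, ← hP, Polynomial.coeff_coe, Polynomial.coe_mapRingHom, Polynomial.coeff_map]
  refine ⟨P, fun E _ => ?_⟩
  rw [Polynomial.polynomial_map_coe, h2, hZ]

variable {p : ℕ} [hp : Fact p.Prime] {k K Ω : Type*} [Field k] [Field K] [Field Ω] [Algebra k K]
  [Algebra K Ω] [Algebra k Ω] [IsScalarTower k K Ω] [Finite k] {F : ℕ → IntermediateField K Ω}

theorem IsZpTower.exists_deg_zero [IsFF k K] (hT : IsZpTower p k F) (T : Finset (Place k K))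
    (hS : ∀ x, x ∉ T → x ∉ ramLocus k F) :
    ∃ D : Place k K →₀ ℤ, (∀ x, D x ≠ 0 → x ∉ T) ∧ ddeg D = 0 ∧
      @zw _ _ (hT.cg 1) (frob (F 1)) D ≠ 1 := by
  classical
  have := hT.findim 1
  have := hT.galois 1
  have := hT.isFF 1
  have := hT.finite 1
  letI := hT.cg 1
  obtain ⟨x0, hx0, hx1⟩ := hT.exists_frob_ne T hS
  have hord : ∀ σ : F 1 ≃ₐ[K] F 1, σ ≠ 1 → orderOf σ = p := by
    intro σ hσ
    apply orderOf_eq_prime _ hσ
    rw [← pow_one p, ← hT.card 1, pow_card_eq_one']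
  by_contra h
  push Not at h
  apply hp.out.one_lt.ne'
  apply schmidt (hT.geom 1) (aboveT (F 1) T)
  intro y hy
  obtain ⟨e, x, hx⟩ := exists_under (K := K) y
  have hxT : x ∉ T := fun h1 => hy (mem_aboveT.2 ⟨x, h1, e, hx⟩)
  have hxr : ¬ Ramified (F 1) x := fun h1 => hS x hxT ⟨1, h1⟩
  rw [← (frobAt_frob (hT.comm 1) hx).deg hx (inert_eq_bot hx hxr)]
  by_cases h1 : frob (F 1) x = 1
  · apply Dvd.dvd.mul_right
    have h2 := h (Finsupp.single x0 (x.deg : ℤ) - Finsupp.single x (x0.deg : ℤ)) (by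
      intro w hw hwT
      apply hw
      rw [Finsupp.sub_apply, Finsupp.single_eq_of_ne (by rintro rfl; exact hx0 hwT),
        Finsupp.single_eq_of_ne (by rintro rfl; exact hxT hwT), sub_zero]) (by
      rw [ddeg_sub, ddeg_single, ddeg_single]; ring)
    rw [zw_sub, zw_single, zw_single, h1, one_zpow, div_one, zpow_natCast] at h2
    rw [← hord _ hx1]
    exact orderOf_dvd_of_pow_eq_one h2
  · rw [hord _ h1]
    exact Dvd.intro_left _ rfl

theorem IsZpTower.poly [CharP k p] [IsFF k K] (hT : IsZpTower p k F) (T : Finset (Place k K))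
    (hS : ∀ x, x ∉ T → x ∉ ramLocus k F) (n : ℕ) {E : Type*} [Field E] [CharZero E]
    (ψ : (F n ≃ₐ[K] F n) →* Eˣ) (hψ : ψ ≠ 1) :
    ∃ P : Polynomial E, (P : PowerSeries E) =
      Eu (goodDeg k K) {x | x ∉ T} (fun x => ((ψ (frob (F n) x) : Eˣ) : E)) := by
  classical
  have := hT.findim n
  have := hT.galois n
  have := hT.isFF n
  have := hT.finite n
  have := hT.isCyclic n
  have := Fintype.ofFinite k
  obtain ⟨n, rfl⟩ : ∃ m, n = m + 1 := by
    refine Nat.exists_eq_succ_of_ne_zero ?_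
    rintro rfl
    apply hψ
    have h1 := hT.card 0
    rw [pow_zero, Nat.card_eq_one_iff_unique] at h1
    ext σ
    rw [h1.1.elim σ 1, map_one, map_one]
  obtain ⟨σ, hσ⟩ := IsCyclic.exists_monoid_generator (α := F (n + 1) ≃ₐ[K] F (n + 1))
  obtain ⟨D, hD1, hD2, hD3⟩ := hT.exists_deg_zero T hS
  obtain ⟨ρ, hρ, hρ', -⟩ := hT.exists_res (m := 1) (n := n + 1) (by omega)
  letI := hT.cg 1
  letI := hT.cg (n + 1)
  obtain ⟨μ, hμ, hr⟩ := reciprocity (G := F (n + 1) ≃ₐ[K] F (n + 1)) (p := p) (n := n + 1)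
    (MulEquiv.refl _) (σ := σ) (fun τ => by obtain ⟨j, hj⟩ := hσ τ; exact ⟨j, hj.symm⟩)
    (by rw [← hT.card, pow_card_eq_one']) T fun x hx h => hS x hx ⟨_, h⟩
  refine poly_of_nontrivial T hμ (fun x => ψ (frob (F (n + 1)) x)) ?_ D ?_ hD2 ?_
  · intro g hg0 hg
    rw [← map_zw (Γ := F (n + 1) ≃ₐ[K] F (n + 1)) ψ]
    exact (congrArg ψ (hr g hg0 hg)).trans (map_one ψ)
  · intro x hx
    by_contra h
    exact hD1 x h hx
  · rw [← map_zw (Γ := F (n + 1) ≃ₐ[K] F (n + 1)) ψ]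
    intro h
    apply hψ
    have h1 : ρ (zw (frob (F (n + 1))) D) ≠ 1 := by
      rw [map_zw (Γ := F (n + 1) ≃ₐ[K] F (n + 1)) (Γ' := F 1 ≃ₐ[K] F 1) ρ,
        zw_congr fun x hx => hρ' x fun h3 => hS x (hD1 x hx) ⟨1, h3⟩]
      exact hD3
    have h2 := orderOf_eq_of_map_ne_one ρ hρ hp.out (hT.card _) (hT.card _) h1
    have h3 : Subgroup.zpowers (zw (frob (F (n + 1))) D) = ⊤ := by
      apply Subgroup.eq_top_of_card_eq
      rw [Nat.card_zpowers, h2, hT.card]
    ext τ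
    obtain ⟨j, rfl⟩ : τ ∈ Subgroup.zpowers (zw (frob (F (n + 1))) D) := by rw [h3]; trivial
    simp only [map_zpow, h, one_zpow, MonoidHom.one_apply]

theorem IsZpTower.lpoly [CharP k p] (hT : IsZpTower p k F) (S : Set (Place k K)) (hS : S.Finite)
    (hS' : ramLocus k F ⊆ S) (χ : ∀ n, (F n ≃ₐ[K] F n) →* ℂ_[p]ˣ)
    (hχ : ∀ n, 1 ≤ n → orderOf (χ n) = p ^ n) :
    ∃ Λ : ℕ → Polynomial ℂ_[p], ∀ n, 1 ≤ n → (Λ n : PowerSeries ℂ_[p]) = lfun S (χ n) := by
  have := hT.ff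
  have h1 : ∀ n, ∃ P : Polynomial ℂ_[p], 1 ≤ n → (P : PowerSeries ℂ_[p]) = lfun S (χ n) := by
    intro n
    by_cases hn : 1 ≤ n
    · obtain ⟨P, hP⟩ := hT.poly hS.toFinset (fun x hx h => hx (hS.mem_toFinset.2 (hS' h))) n (χ n)
        (by
          intro h
          have h2 := hχ n hn
          rw [h, orderOf_one] at h2
          exact (Nat.one_lt_pow (by omega) hp.out.one_lt).ne h2)
      refine ⟨P, fun _ => ?_⟩
      have h6 : {x | x ∉ hS.toFinset} = {x | x ∉ S} := by ext; simp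
      rw [lfun_eq, hP, h6]
    · exact ⟨0, fun h => absurd h hn⟩
  choose Λ hΛ using h1
  exact ⟨Λ, hΛ⟩

theorem IsZpTower.deg_bound [IsFF k K] (hT : IsZpTower p k F) (T : Finset (Place k K))
    (hS : ∀ x ∈ T, x ∈ ramLocus k F) :
    ∃ m N : ℕ, 0 < m ∧ ∀ n, N ≤ n → ∀ x ∈ T, ∀ (y : Place k (F n)) (e : ℕ), Over y x e →
      y.deg ∣ m := by
  classical
  choose! j hj using hS
  refine ⟨∏ x ∈ T, p ^ j x * x.deg, T.sup j,
    Finset.prod_pos fun x _ => Nat.mul_pos (pow_pos hp.out.pos _) x.deg_pos, ?_⟩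
  intro n hn x hx y e h
  refine Dvd.dvd.trans ?_ (Finset.dvd_prod_of_mem _ hx)
  have hjn : j x ≤ n := (Finset.le_sup hx).trans hn
  have := hT.findim n
  have := hT.galois n
  have := hT.isFF n
  have := hT.finite n
  have := hT.isCyclic n
  obtain ⟨ρ, hρ, -, hρ'⟩ := hT.exists_res hjn
  obtain ⟨σ, hσ, hσ'⟩ := hρ' x (hj x hx) y e h
  have h1 : p ^ (n - j x) ∣ orderOf σ := by
    obtain ⟨a, -, ha⟩ := (Nat.dvd_prime_pow hp.out).1 (hT.card n ▸ orderOf_dvd_natCard σ)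
    rw [ha]
    apply pow_dvd_pow
    by_contra h2
    apply hσ'
    apply map_eq_one_of_pow ρ hρ (j := a) hp.out.pos (by omega) (hT.card _) (hT.card _)
    rw [← ha, pow_orderOf_eq_one]
  have h2 : orderOf σ ∣ e := by
    rw [← card_inert h]
    exact Subgroup.orderOf_dvd_natCard _ (mem_inert.2 hσ)
  obtain ⟨t, ht⟩ := h1.trans h2
  have h3 := efg h
  rw [hT.card, ht] at h3
  refine ⟨(above (F n) x).card * t, ?_⟩
  apply Nat.eq_of_mul_eq_mul_left (pow_pos hp.out.pos (n - j x))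
  rw [← mul_assoc, ← pow_add, Nat.sub_add_cancel hjn, ← h3]
  ring

theorem IsZpTower.exists_char (hT : IsZpTower p k F) (n : ℕ) :
    ∃ χ : (F n ≃ₐ[K] F n) →* ℂ_[p]ˣ, orderOf χ = p ^ n := by
  have := hT.finite n
  have := hT.isCyclic n
  have hN : 0 < p ^ n := pow_pos hp.out.pos n
  have : NeZero (p ^ n) := ⟨hN.ne'⟩
  have : NeZero ((p ^ n : ℕ) : ℂ_[p]) := ⟨by exact_mod_cast hN.ne'⟩
  obtain ⟨ζ, hζ⟩ := HasEnoughRootsOfUnity.exists_primitiveRoot ℂ_[p] (p ^ n)
  obtain ⟨σ, hσ⟩ := IsCyclic.exists_generator (α := F n ≃ₐ[K] F n)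
  have hσ' : orderOf σ = p ^ n := by rw [orderOf_eq_card_of_forall_mem_zpowers hσ, hT.card]
  let u : ℂ_[p]ˣ := (hζ.isUnit hN.ne').unit
  have hu : IsPrimitiveRoot u (p ^ n) := hζ.isUnit_unit hN.ne'
  let χ := monoidHomOfForallMemZpowers hσ (g' := u) (by rw [hσ', ← hu.eq_orderOf])
  have hχ : χ σ = u := monoidHomOfForallMemZpowers_apply_gen _ _
  refine ⟨χ, Nat.dvd_antisymm ?_ ?_⟩
  · apply orderOf_dvd_of_pow_eq_one
    ext τ
    rw [MonoidHom.pow_apply, ← map_pow, ← hT.card, pow_card_eq_one', map_one, MonoidHom.one_apply]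
  · apply (hu.pow_eq_one_iff_dvd _).1
    rw [← hχ, ← MonoidHom.pow_apply, pow_orderOf_eq_one, MonoidHom.one_apply]

/-- The zeta function version. -/
theorem IsZpTower.pmain [CharP k p] (hT : IsZpTower p k F) (hS : (ramLocus k F).Finite) :
    ∃ P : ℕ → Polynomial ℤ,
      (∀ n, (((P n).map (Int.castRingHom ℚ) : Polynomial ℚ) : PowerSeries ℚ) =
        (1 - PowerSeries.X) * (1 - PowerSeries.C (Nat.card k : ℚ) * PowerSeries.X) *
          zeta k (F n)) ∧
      ∃ m N : ℕ, 0 < m ∧ ∀ n, N ≤ n →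
        p ^ n * (p - 1) ≤
          ramIndex (rootField ℚ_[p] ((P (n + 1)).map (Int.castRingHom ℂ_[p]))) * m ∧
        p ^ n * (p - 1) ≤
          finrank ℚ_[p] (rootField ℚ_[p] ((P (n + 1)).map (Int.castRingHom ℂ_[p]))) * m := by
  classical
  have := hT.ff
  have hex := fun n => @zeta_num_int k (F n) _ _ _ _ (hT.isFF n) (hT.geom n)
  choose P hP using hex
  refine ⟨P, fun n => by rw [hP, @zeta_eq k (F n) _ _ _ _ (hT.isFF n)], ?_⟩
  choose χ hχ using hT.exists_char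
  let T := hS.toFinset
  have hTS : ∀ x, x ∉ T → x ∉ ramLocus k F := fun x hx h => hx (hS.mem_toFinset.2 h)
  obtain ⟨m, d, N, hm, hcore⟩ := hT.core T hTS χ fun n _ => hχ n
  obtain ⟨m', N', hm', hdeg⟩ := hT.deg_bound T fun x hx => hS.mem_toFinset.1 hx
  obtain ⟨P0, hP0⟩ := zeta_num_int (k := k) (K := K) (by
    intro a ha
    obtain ⟨c, hc⟩ := hT.geom 0 (algebraMap K (F 0) a) (ha.algebraMap)
    exact ⟨c, (algebraMap K (F 0)).injective (by rw [← hc, ← IsScalarTower.algebraMap_apply])⟩)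
  refine ⟨m' * m, max N N', Nat.mul_pos hm' hm, fun n hn => ?_⟩
  obtain ⟨ζ, hζ, h1⟩ := hcore n (by omega)
  have := hT.findim (n + 1)
  have := hT.galois (n + 1)
  have := hT.isFF (n + 1)
  have := hT.finite (n + 1)
  have hinj := injective_of_orderOf (χ (n + 1)) (by rw [hχ, hT.card])
  have hN1 : 1 < p ^ (n + 1) := Nat.one_lt_pow (by omega) hp.out.one_lt
  have h2 := prod_formula (L := F (n + 1)) (E := ℂ_[p]) T (Finset.range (p ^ (n + 1)))
    (fun j x => (((χ (n + 1) ^ j) (frob (F (n + 1)) x) : ℂ_[p]ˣ) : ℂ_[p])) (by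
      intro x hx
      obtain ⟨h3, h4⟩ := local_factor (E := ℂ_[p]) (fun h => hTS x hx ⟨n + 1, h⟩)
        (fun y e h => frobAt_frob (hT.comm (n + 1)) h)
      have h5 : IsPrimitiveRoot (PowerSeries.C ((χ (n + 1) (frob (F (n + 1)) x) : ℂ_[p]ˣ) : ℂ_[p]))
          (orderOf (frob (F (n + 1)) x)) := by
        apply IsPrimitiveRoot.map_of_injective _ PowerSeries.C_injective
        rw [IsPrimitiveRoot.coe_units_iff, ← orderOf_injective _ hinj]
        exact IsPrimitiveRoot.orderOf _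
      rw [h4, ← prod_one_sub_root (orderOf_pos _) h5, h3, hT.card]
      simp only [MonoidHom.pow_apply, Units.val_pow_eq_pow_val, map_pow])
  have h3 : ∀ j, ∃ Λ : Polynomial ℂ_[p], 0 < j → j < p ^ (n + 1) → (Λ : PowerSeries ℂ_[p]) =
      Eu (goodDeg k K) {x | x ∉ T}
        (fun x => (((χ (n + 1) ^ j) (frob (F (n + 1)) x) : ℂ_[p]ˣ) : ℂ_[p])) := by
    intro j
    by_cases hj : 0 < j ∧ j < p ^ (n + 1)
    · obtain ⟨Λ, hΛ⟩ := hT.poly T hTS (n + 1) (χ (n + 1) ^ j) (by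
        intro h
        have h4 := Nat.le_of_dvd hj.1 (orderOf_dvd_of_pow_eq_one (x := χ (n + 1)) h)
        rw [hχ] at h4
        omega)
      exact ⟨Λ, fun _ _ => hΛ⟩
    · exact ⟨0, fun h1 h2 => absurd ⟨h1, h2⟩ hj⟩
  choose Λ hΛ using h3
  set Q := (P (n + 1)).map (Int.castRingHom ℂ_[p]) with hQ
  have h4 : Q * facT ℂ_[p] (aboveT (F (n + 1)) T) =
      P0.map (Int.castRingHom ℂ_[p]) * facT ℂ_[p] T * ∏ j ∈ Finset.Ico 1 (p ^ (n + 1)), Λ j := by
    apply Polynomial.coe_injective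
    have h5 : ((∏ j ∈ Finset.Ico 1 (p ^ (n + 1)), Λ j : Polynomial ℂ_[p]) : PowerSeries ℂ_[p]) =
        ∏ j ∈ Finset.Ico 1 (p ^ (n + 1)), Eu (goodDeg k K) {x | x ∉ T}
          (fun x => (((χ (n + 1) ^ j) (frob (F (n + 1)) x) : ℂ_[p]ˣ) : ℂ_[p])) := by
      rw [← Polynomial.coeToPowerSeries.ringHom_apply, map_prod]
      refine Finset.prod_congr rfl fun j hj => ?_
      rw [Finset.mem_Ico] at hj
      rw [Polynomial.coeToPowerSeries.ringHom_apply, hΛ j hj.1 hj.2]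
    rw [Finset.range_eq_Ico, Finset.prod_eq_prod_Ico_succ_bot (by omega)] at h2
    simp only [MonoidHom.pow_apply, pow_zero, Units.val_one, zero_add] at h2 h5
    rw [Polynomial.coe_mul, Polynomial.coe_mul, Polynomial.coe_mul, hP, hP0, h5,
      mul_assoc _ _ (facT ℂ_[p] (aboveT (F (n + 1)) T) : PowerSeries ℂ_[p]), Eu_univ_mul,
      h2, mul_assoc _ _ (facT ℂ_[p] T : PowerSeries ℂ_[p]), Eu_univ_mul, ← mul_assoc]
  have h5 : Λ 1 ∣ Q * facT ℂ_[p] (aboveT (F (n + 1)) T) := by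
    rw [h4]
    exact Dvd.dvd.mul_left (Finset.dvd_prod_of_mem _ (Finset.mem_Ico.2 ⟨le_rfl, hN1⟩)) _
  have h6 := hΛ 1 one_pos hN1
  simp only [MonoidHom.pow_apply, pow_one] at h6
  have h7 : ∀ j, (Λ 1).coeff j = PowerSeries.coeff j (Eu (goodDeg k K) {x | x ∉ T}
      (fun x => ((χ (n + 1) (frob (F (n + 1)) x) : ℂ_[p]ˣ) : ℂ_[p]))) := by
    intro j; rw [← h6, Polynomial.coeff_coe]
  have h8 : (Λ 1).coeff 0 = 1 := by
    rw [h7, PowerSeries.coeff_zero_eq_constantCoeff_apply, constantCoeff_Eu]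
  have hQ0 : Q ≠ 0 := by
    intro h
    have h9 := congrArg PowerSeries.constantCoeff (hP (n + 1) ℂ_[p])
    rw [← hQ, h] at h9
    simp [constantCoeff_Eu] at h9
  have hfin : FiniteDimensional ℚ_[p] (rootField ℚ_[p] Q) := by
    apply finiteDimensional_rootField _ hQ0
    intro j
    rw [hQ, Polynomial.coeff_map, eq_intCast, ← map_intCast (algebraMap ℚ_[p] ℂ_[p])]
    exact isIntegral_algebraMap
  set M := rootField ℚ_[p] Q
  have : NeZero ((m' : ℕ) : ℂ_[p]) := ⟨by exact_mod_cast hm'.ne'⟩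
  have : NeZero m' := ⟨hm'.ne'⟩
  obtain ⟨ω, hω⟩ := HasEnoughRootsOfUnity.exists_primitiveRoot ℂ_[p] m'
  have hωi : IsIntegral M ω := isIntegral_of_pow_eq_one hm' hω.pow_eq_one
  let E := IntermediateField.adjoin M {ω}
  have hE : FiniteDimensional M E := IntermediateField.adjoin.finiteDimensional hωi
  have hEd : finrank M E ≤ m' := by
    rw [IntermediateField.adjoin.finrank hωi]
    have h9 : minpoly M ω ∣ Polynomial.X ^ m' - Polynomial.C 1 :=
      minpoly.dvd _ _ (by simp [hω.pow_eq_one])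
    have h10 := Polynomial.natDegree_le_of_dvd h9 (Polynomial.X_pow_sub_C_ne_zero hm' 1)
    rwa [Polynomial.natDegree_X_pow_sub_C] at h10
  have h9 := h1 E (by
    rw [← h7]
    refine ⟨⟨_, coeff_mem_of_roots E.toSubfield _ h8 (fun α h0 hα => ?_) d⟩, rfl⟩
    have h10 := Polynomial.eval_eq_zero_of_dvd_of_eval_eq_zero h5 hα
    rw [Polynomial.eval_mul, mul_eq_zero] at h10
    rcases h10 with h10 | h10
    · exact E.algebraMap_mem ⟨α, IntermediateField.subset_adjoin _ _ ⟨h0, h10⟩⟩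
    · unfold facT at h10
      rw [Polynomial.eval_prod, Finset.prod_eq_zero_iff] at h10
      obtain ⟨y, hy, h11⟩ := h10
      obtain ⟨x, hx, e, h12⟩ := mem_aboveT.1 hy
      obtain ⟨t, ht⟩ := hdeg (n + 1) (by omega) x hx y e h12
      simp only [Polynomial.eval_sub, Polynomial.eval_one, Polynomial.eval_pow, Polynomial.eval_X,
        sub_eq_zero] at h11
      have h13 : α ^ m' = 1 := by
        rw [ht, pow_mul, ← inv_inv α, inv_pow, ← h11, inv_one, one_pow]
      obtain ⟨i, -, rfl⟩ := hω.eq_pow_of_pow_eq_one h13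
      exact pow_mem (IntermediateField.mem_adjoin_simple_self M ω) i)
  have hN0 := pow_pos hp.out.pos (n + 1)
  have h10 : (minpoly M ζ).natDegree ≤ m' * m :=
    (natDegree_minpoly_le (E := E) (isIntegral_of_pow_eq_one hN0 hζ.pow_eq_one)).trans
      (Nat.mul_le_mul hEd h9)
  refine ⟨(ramIndex_bound _ hζ).trans (Nat.mul_le_mul_left _ h10), ?_⟩
  exact (degree_bound hζ).trans ((natDegree_minpoly_le (E := M)
    (isIntegral_of_pow_eq_one hN0 hζ.pow_eq_one)).trans (Nat.mul_le_mul_left _ h10))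

end H735Z
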