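import Pool.Agent.H735Z.Defs

/-! Ramification indices of subfields of the p-adic complex numbers and roots of unity. -/

set_option autoImplicit false
set_option linter.all false

open Module Polynomial

namespace H735Z

/-- degree of the minimal polynomial under a finite base change -/
theorem natDegree_minpoly_le {F E Ω : Type*} [Field F] [Field E] [Field Ω] [Algebra F E]
    [Algebra E Ω] [Algebra F Ω] [IsScalarTower F E Ω] [FiniteDimensional F E] {ζ : Ω}
    (hζ : IsIntegral F ζ) :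
    (minpoly F ζ).natDegree ≤ finrank F E * (minpoly E ζ).natDegree := by
  have hE : IsIntegral E ζ := hζ.tower_top
  rw [← IntermediateField.adjoin.finrank hζ, ← IntermediateField.adjoin.finrank hE]
  have : FiniteDimensional E (IntermediateField.adjoin E {ζ}) :=
    IntermediateField.adjoin.finiteDimensional hE
  rw [Module.finrank_mul_finrank F E (IntermediateField.adjoin E {ζ})]
  have hfin : FiniteDimensional F (IntermediateField.adjoin E {ζ}) :=
    Module.Finite.trans E _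
  have hle : IntermediateField.adjoin F {ζ} ≤
      (IntermediateField.adjoin E {ζ}).restrictScalars F := by
    rw [IntermediateField.adjoin_simple_le_iff]
    exact IntermediateField.mem_adjoin_simple_self E ζ
  have hfin' : FiniteDimensional F ((IntermediateField.adjoin E {ζ}).restrictScalars F) := hfin
  exact IntermediateField.finrank_le_of_le_right hle

theorem isIntegral_of_pow_eq_one {E Ω : Type*} [CommRing E] [CommRing Ω] [Algebra E Ω] {ξ : Ω}
    {N : ℕ} (hN : 0 < N) (h : ξ ^ N = 1) : IsIntegral E ξ :=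
  IsIntegral.of_pow hN (by rw [h]; exact isIntegral_one)

theorem geom_root {Ω : Type*} [Field Ω] {ξ : Ω} {N : ℕ} (h : ξ ^ N = 1) [Decidable (ξ = 1)] :
    ∑ v ∈ Finset.range N, ξ ^ v = if ξ = 1 then (N : Ω) else 0 := by
  split_ifs with h1
  · simp [h1]
  · have h2 := mul_neg_geom_sum ξ N
    rw [h, sub_self] at h2
    exact (mul_eq_zero.1 h2).resolve_left (sub_ne_zero.2 (Ne.symm h1))

theorem sum_range_mul {Ω : Type*} [AddCommMonoid Ω] {p m : ℕ} (hp : 0 < p) (g : ℕ → Ω)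
    (hg : ∀ v, ¬ p ∣ v → g v = 0) :
    ∑ v ∈ Finset.range (p * m), g v = ∑ w ∈ Finset.range m, g (p * w) := by
  rw [← Finset.sum_image (s := Finset.range m) (g := fun w => p * w) (f := g)
    (fun a _ b _ h => Nat.eq_of_mul_eq_mul_left hp h)]
  symm
  apply Finset.sum_subset
  · intro v hv
    obtain ⟨w, hw, rfl⟩ := Finset.mem_image.1 hv
    rw [Finset.mem_range] at hw ⊢
    exact Nat.mul_lt_mul_of_pos_left hw hp
  · intro v hv hv'
    apply hg
    rintro ⟨w, rfl⟩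
    apply hv'
    refine Finset.mem_image.2 ⟨w, ?_, rfl⟩
    rw [Finset.mem_range] at hv ⊢
    exact Nat.lt_of_mul_lt_mul_left hv

/-- The key rigidity statement for sums of roots of unity of prime power order. -/
theorem rigid {Ω : Type*} [Field Ω] [CharZero Ω] {p n : ℕ} (hp : p.Prime) {ζ : Ω}
    (hζ : IsPrimitiveRoot ζ (p ^ (n + 1))) {ι : Type*} (s : Finset ι) (a b : ι → ℕ)
    (hsum : ∑ i ∈ s, ζ ^ a i = ∑ i ∈ s, ζ ^ b i) (i0 : ι) (hi0 : i0 ∈ s) (ha0 : ζ ^ a i0 = 1)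
    (hsep : ∀ i ∈ s, (ζ ^ a i) ^ p = 1 → ζ ^ a i = 1) : ∃ i ∈ s, ζ ^ b i = 1 := by
  classical
  by_contra hcon
  push Not at hcon
  have hN : 0 < p ^ (n + 1) := pow_pos hp.pos _
  let P : ℚ[X] := ∑ i ∈ s, X ^ a i - ∑ i ∈ s, X ^ b i
  have hP : ∀ ξ : Ω, aeval ξ P = ∑ i ∈ s, ξ ^ a i - ∑ i ∈ s, ξ ^ b i := by
    intro ξ; simp [P]
  have h1 : minpoly ℚ ζ ∣ P := minpoly.dvd ℚ ζ (by rw [hP, hsum, sub_self])
  have h2 : ∀ v, ¬ p ∣ v → aeval (ζ ^ v) P = 0 := by
    intro v hv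
    have h3 : IsPrimitiveRoot (ζ ^ v) (p ^ (n + 1)) :=
      hζ.pow_of_coprime v (Nat.Coprime.pow_right _ ((Nat.Prime.coprime_iff_not_dvd hp).2 hv).symm)
    rw [← cyclotomic_eq_minpoly_rat hζ hN, cyclotomic_eq_minpoly_rat h3 hN] at h1
    obtain ⟨Q, hQ⟩ := h1
    rw [hQ, map_mul, minpoly.aeval, zero_mul]
  have h3 := sum_range_mul (m := p ^ n) hp.pos (fun v => aeval (ζ ^ v) P) h2
  rw [← pow_succ'] at h3
  have hone : ∀ j : ℕ, (ζ ^ j) ^ p ^ (n + 1) = 1 := by
    intro j; rw [← pow_mul, mul_comm, pow_mul, hζ.pow_eq_one, one_pow]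
  have hone' : ∀ j : ℕ, ((ζ ^ j) ^ p) ^ p ^ n = 1 := by
    intro j; rw [← pow_mul, ← pow_succ', hone]
  have h4 : ∀ c : ι → ℕ, ∑ v ∈ Finset.range (p ^ (n + 1)), ∑ i ∈ s, (ζ ^ v) ^ c i =
      ((s.filter fun i => ζ ^ c i = 1).card * p ^ (n + 1) : ℕ) := by
    intro c
    rw [Finset.sum_comm]
    have : ∀ i ∈ s, ∑ v ∈ Finset.range (p ^ (n + 1)), (ζ ^ v) ^ c i =
        if ζ ^ c i = 1 then ((p ^ (n + 1) : ℕ) : Ω) else 0 := by
      intro i _
      rw [← geom_root (hone (c i))]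
      refine Finset.sum_congr rfl fun v _ => ?_
      rw [← pow_mul, ← pow_mul, mul_comm]
    rw [Finset.sum_congr rfl this, ← Finset.sum_filter, Finset.sum_const, nsmul_eq_mul]
    push_cast; ring
  have h5 : ∀ c : ι → ℕ, ∑ v ∈ Finset.range (p ^ n), ∑ i ∈ s, (ζ ^ (p * v)) ^ c i =
      ((s.filter fun i => (ζ ^ c i) ^ p = 1).card * p ^ n : ℕ) := by
    intro c
    rw [Finset.sum_comm]
    have : ∀ i ∈ s, ∑ v ∈ Finset.range (p ^ n), (ζ ^ (p * v)) ^ c i =
        if (ζ ^ c i) ^ p = 1 then ((p ^ n : ℕ) : Ω) else 0 := by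
      intro i _
      rw [← geom_root (hone' (c i))]
      refine Finset.sum_congr rfl fun v _ => ?_
      rw [← pow_mul, ← pow_mul, ← pow_mul]
      congr 1; ring
    rw [Finset.sum_congr rfl this, ← Finset.sum_filter, Finset.sum_const, nsmul_eq_mul]
    push_cast; ring
  simp only [hP, Finset.sum_sub_distrib, h4, h5] at h3
  have h6 : (s.filter fun i => ζ ^ b i = 1) = ∅ :=
    Finset.filter_eq_empty_iff.2 fun i hi => hcon i hi
  have h7 : (s.filter fun i => (ζ ^ a i) ^ p = 1) = (s.filter fun i => ζ ^ a i = 1) :=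
    Finset.filter_congr fun i hi => ⟨hsep i hi, fun h => by rw [h, one_pow]⟩
  have h8 : 0 < (s.filter fun i => ζ ^ a i = 1).card :=
    Finset.card_pos.2 ⟨i0, Finset.mem_filter.2 ⟨hi0, ha0⟩⟩
  rw [h6, h7, Finset.card_empty, zero_mul, Nat.cast_zero, sub_zero, eq_sub_iff_add_eq,
    ← Nat.cast_add, Nat.cast_inj] at h3
  have h9 : p ^ n < p ^ (n + 1) := Nat.pow_lt_pow_right hp.one_lt (by omega)
  have h10 := Nat.mul_lt_mul_of_pos_left h9 h8
  omega

/-- If a sum of few roots of unity lies in `E`, then `ζ` has small degree over `E`. -/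
theorem natDegree_minpoly_le_card {E Ω : Type*} [Field E] [Field Ω] [Algebra E Ω] [CharZero Ω]
    [IsAlgClosed Ω] {p n : ℕ} (hp : p.Prime) {ζ : Ω} (hζ : IsPrimitiveRoot ζ (p ^ (n + 1)))
    {ι : Type*} (s : Finset ι) (ξ : ι → Ω) (hξ : ∀ i ∈ s, ξ i ^ p ^ (n + 1) = 1)
    (i0 : ι) (hi0 : i0 ∈ s) (h0 : ξ i0 = ζ) (hsep : ∀ i ∈ s, (ξ i / ζ) ^ p = 1 → ξ i = ζ)
    (hsum : ∑ i ∈ s, ξ i ∈ Set.range (algebraMap E Ω)) :
    (minpoly E ζ).natDegree ≤ s.card := by
  classical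
  have hN : 0 < p ^ (n + 1) := pow_pos hp.pos _
  have : NeZero (p ^ (n + 1)) := ⟨hN.ne'⟩
  have hE : CharZero E := RingHom.charZero (algebraMap E Ω)
  have hint : IsIntegral E ζ := isIntegral_of_pow_eq_one hN hζ.pow_eq_one
  have hζ0 : ζ ≠ 0 := hζ.ne_zero hN.ne'
  have hex : ∀ i, ∃ j : ℕ, i ∈ s → ζ ^ j = ξ i := by
    intro i
    by_cases hi : i ∈ s
    · obtain ⟨j, -, hj⟩ := hζ.eq_pow_of_pow_eq_one (hξ i hi)
      exact ⟨j, fun _ => hj⟩
    · exact ⟨0, fun h => absurd h hi⟩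
  choose a ha using hex
  obtain ⟨c, hc⟩ := hsum
  have hsepa : (minpoly E ζ).Separable := (minpoly.irreducible hint).separable
  rw [← card_rootSet_eq_natDegree (K := Ω) hsepa (IsAlgClosed.splits _)]
  have hroot : ∀ ζ' ∈ (minpoly E ζ).rootSet Ω, ∀ Q : E[X], aeval ζ Q = 0 → aeval ζ' Q = 0 := by
    intro ζ' h Q hQ
    obtain ⟨R, rfl⟩ := minpoly.dvd E ζ hQ
    rw [map_mul, (mem_rootSet.1 h).2, zero_mul]
  have hpow : ∀ ζ' ∈ (minpoly E ζ).rootSet Ω, ζ' ^ p ^ (n + 1) = 1 := by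
    intro ζ' h
    have := hroot ζ' h (X ^ p ^ (n + 1) - 1) (by simp [hζ.pow_eq_one])
    simpa [sub_eq_zero] using this
  have hinv : ζ ^ (p ^ (n + 1) - 1) = ζ⁻¹ := by
    apply eq_inv_of_mul_eq_one_left
    rw [← pow_succ, Nat.sub_add_cancel hN, hζ.pow_eq_one]
  have key : ∀ ζ' : (minpoly E ζ).rootSet Ω, ∃ i ∈ s, ζ'.1 ^ a i = ζ := by
    rintro ⟨ζ', h⟩
    obtain ⟨u, -, rfl⟩ := hζ.eq_pow_of_pow_eq_one (hpow ζ' h)
    have h1 := hroot _ h (∑ i ∈ s, X ^ a i - C c) (by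
      simp only [map_sub, map_sum, map_pow, aeval_X, aeval_C, hc]
      rw [sub_eq_zero]
      exact Finset.sum_congr rfl fun i hi => ha i hi)
    simp only [map_sub, map_sum, map_pow, aeval_X, aeval_C, hc, sub_eq_zero] at h1
    generalize p ^ (n + 1) - 1 = w at hinv
    obtain ⟨i, hi, h2⟩ := rigid hp hζ s (fun i => a i + w) (fun i => u * a i + w) (by
        simp only [pow_add, ← Finset.sum_mul, pow_mul, h1]
        congr 1
        exact Finset.sum_congr rfl fun i hi => ha i hi) i0 hi0 (by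
        simp only [pow_add]
        rw [ha i0 hi0, h0, hinv, mul_inv_cancel₀ hζ0]) (by
        intro i hi h2
        simp only [pow_add] at h2 ⊢
        rw [ha i hi, hinv] at h2 ⊢
        rw [hsep i hi (by rwa [div_eq_mul_inv]), mul_inv_cancel₀ hζ0])
    refine ⟨i, hi, ?_⟩
    simp only [pow_add] at h2
    rw [hinv, mul_inv_eq_one₀ hζ0, pow_mul] at h2
    exact h2
  choose f hf hf' using key
  rw [← Finset.card_univ]
  refine Finset.card_le_card_of_injOn f (fun x _ => hf x) ?_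
  rintro ⟨z, hz⟩ - ⟨w, hw⟩ - h
  have h1 := hf' ⟨z, hz⟩
  have h2 := hf' ⟨w, hw⟩
  rw [← h] at h2
  simp only at h1 h2
  set j := a (f ⟨z, hz⟩)
  have hj : ¬ p ∣ j := by
    rintro ⟨t, ht⟩
    have h3 : ζ ^ p ^ n = 1 := by
      rw [← h1, ← pow_mul, ht, mul_comm p t, mul_assoc, ← pow_succ', mul_comm, pow_mul, hpow z hz,
        one_pow]
    have h4 := Nat.le_of_dvd (pow_pos hp.pos _) ((hζ.pow_eq_one_iff_dvd _).1 h3)
    have h9 : p ^ n < p ^ (n + 1) := Nat.pow_lt_pow_right hp.one_lt (by omega)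
    omega
  have hcop : Nat.Coprime j (p ^ (n + 1)) :=
    Nat.Coprime.pow_right _ ((Nat.Prime.coprime_iff_not_dvd hp).2 hj).symm
  have hw0 : w ≠ 0 := by
    rintro rfl
    have := hpow 0 hw
    rw [zero_pow hN.ne'] at this
    exact zero_ne_one this
  have h3 : (z / w) ^ j = 1 := by rw [div_pow, h1, h2, div_self hζ0]
  have h4 : (z / w) ^ p ^ (n + 1) = 1 := by rw [div_pow, hpow z hz, hpow w hw, div_one]
  have h5 := pow_gcd_eq_one.2 ⟨h3, h4⟩
  rw [hcop, pow_one, div_eq_one_iff_eq hw0] at h5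
  exact Subtype.ext h5

/-- the coefficients of a polynomial with constant term one lie in a field containing the
reciprocal roots -/
theorem coeff_mem_of_roots {Ω : Type*} [Field Ω] [IsAlgClosed Ω] (R : Subfield Ω) (P : Polynomial Ω)
    (h0 : P.coeff 0 = 1) (h : ∀ α : Ω, α ≠ 0 → P.eval α⁻¹ = 0 → α ∈ R) (m : ℕ) :
    P.coeff m ∈ R := by
  have hP0 : P ≠ 0 := by rintro rfl; simp at h0
  have h1 := (IsAlgClosed.splits P).eq_prod_roots
  have hr : ∀ r ∈ P.roots, r ≠ 0 ∧ r ∈ R := by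
    intro r hr
    have h2 : P.eval r = 0 := (mem_roots hP0).1 hr
    have h3 : r ≠ 0 := by
      rintro rfl
      rw [← coeff_zero_eq_eval_zero, h0] at h2
      exact one_ne_zero h2
    have h4 := R.inv_mem (h r⁻¹ (inv_ne_zero h3) (by rwa [inv_inv]))
    rw [inv_inv] at h4
    exact ⟨h3, h4⟩
  have h2 : (P.roots.map fun a => X - C a).prod ∈ lifts R.subtype := by
    apply Subsemiring.multiset_prod_mem
    intro Q hQ
    obtain ⟨r, hr', rfl⟩ := Multiset.mem_map.1 hQ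
    exact ⟨X - C ⟨r, (hr r hr').2⟩, by simp⟩
  have h3 := (lifts_iff_coeff_lifts _).1 h2
  have h4 : ∀ j, ((P.roots.map fun a => X - C a).prod).coeff j ∈ R := by
    intro j
    obtain ⟨y, hy⟩ := h3 j
    rw [← hy]; exact y.2
  have h5 : P.leadingCoeff ∈ R := by
    have h6 := congrArg (fun Q => coeff Q 0) h1
    simp only [coeff_C_mul, h0] at h6
    rw [eq_inv_of_mul_eq_one_left h6.symm]
    exact R.inv_mem (h4 0)
  rw [h1, coeff_C_mul]
  exact R.mul_mem h5 (h4 m)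

variable {p : ℕ} [hp : Fact p.Prime]

theorem finiteDimensional_rootField (P : ℂ_[p][X]) (hP : P ≠ 0)
    (h : ∀ m, IsIntegral ℚ_[p] (P.coeff m)) : FiniteDimensional ℚ_[p] (rootField ℚ_[p] P) := by
  have hfin : {α : ℂ_[p] | α ≠ 0 ∧ P.eval α⁻¹ = 0}.Finite := by
    refine Set.Finite.of_finite_image (f := fun α => α⁻¹) ?_ (inv_injective.injOn)
    refine (P.roots.finite_toSet).subset ?_
    rintro _ ⟨α, hα, rfl⟩
    exact (mem_roots hP).2 hα.2
  have := hfin.to_subtype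
  apply IntermediateField.finiteDimensional_adjoin
  intro α hα
  let A := algebraicClosure ℚ_[p] ℂ_[p]
  have h1 : P ∈ lifts (algebraMap A ℂ_[p]) :=
    (lifts_iff_coeff_lifts _).2 fun m => ⟨⟨P.coeff m, mem_algebraicClosure_iff'.2 (h m)⟩, rfl⟩
  obtain ⟨Q, hQ⟩ := h1
  have hQ' : Q.map (algebraMap A ℂ_[p]) = P := hQ
  have h2 : IsAlgebraic A α⁻¹ := by
    refine ⟨Q, ?_, ?_⟩
    · rintro rfl
      rw [Polynomial.map_zero] at hQ'
      exact hP hQ'.symm
    · rw [aeval_def, ← eval_map, hQ']; exact hα.2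
  have h3 : IsAlgebraic A α := by simpa using h2.inv
  exact isIntegral_trans (R := ℚ_[p]) (A := A) α h3.isIntegral

theorem norm_algebraMap_cp (x : ℚ_[p]) : ‖algebraMap ℚ_[p] ℂ_[p] x‖ = ‖x‖ := norm_algebraMap' _ x

theorem mem_valueGroup_bot {r : ℝˣ} :
    r ∈ valueGroup (⊥ : IntermediateField ℚ_[p] ℂ_[p]) ↔ ∃ j : ℤ, (r : ℝ) = (p : ℝ) ^ j := by
  constructor
  · rintro ⟨a, ha, hr⟩
    obtain ⟨x, rfl⟩ := IntermediateField.mem_bot.1 ha
    rw [norm_algebraMap_cp] at hr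
    have hx : x ≠ 0 := by
      rintro rfl
      rw [norm_zero] at hr
      exact r.ne_zero hr.symm
    exact ⟨-x.valuation, by rw [← hr, Padic.norm_eq_zpow_neg_valuation hx]⟩
  · rintro ⟨j, hj⟩
    refine ⟨algebraMap ℚ_[p] ℂ_[p] ((p : ℚ_[p]) ^ (-j)), IntermediateField.algebraMap_mem _ _, ?_⟩
    rw [norm_algebraMap_cp, hj, Padic.norm_p_zpow, neg_neg]

theorem ramIndex_ne_zero (M : IntermediateField ℚ_[p] ℂ_[p]) [FiniteDimensional ℚ_[p] M] :
    ramIndex M ≠ 0 := by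
  have hp0 : (0 : ℝ) < p := by exact_mod_cast hp.out.pos
  let D := (finrank ℚ_[p] M).factorial
  have hD : D ≠ 0 := Nat.factorial_ne_zero _
  let s : ℝˣ := Units.mk0 ((p : ℝ) ^ (D : ℝ)⁻¹) (by positivity)
  have hs : (s : ℝ) ^ D = p := Real.rpow_inv_natCast_pow hp0.le hD
  have hs0 : 0 < (s : ℝ) := by simp only [s, Units.val_mk0]; positivity
  have h1 : valueGroup M ≤ Subgroup.zpowers s := by
    rintro r ⟨a, ha, hr⟩
    let a' : M := ⟨a, ha⟩
    have hint : IsIntegral ℚ_[p] a' := IsIntegral.of_finite _ _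
    have h2 : ‖a'‖ = ‖(minpoly ℚ_[p] a').coeff 0‖ ^ (1 / (minpoly ℚ_[p] a').natDegree : ℝ) := by
      rw [NormedAlgebra.norm_eq_spectralNorm ℚ_[p], spectralNorm.spectralNorm_eq_norm_coeff_zero_rpow]
    have h3 : ‖a'‖ = r := hr
    have hd := minpoly.natDegree_pos hint
    have h4 : (r : ℝ) ^ (minpoly ℚ_[p] a').natDegree = ‖(minpoly ℚ_[p] a').coeff 0‖ := by
      rw [← h3, h2, one_div, Real.rpow_inv_natCast_pow (norm_nonneg _) hd.ne']
    have hr0 : 0 < (r : ℝ) := lt_of_le_of_ne (h3 ▸ norm_nonneg _) r.ne_zero.symm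
    have h5 : (minpoly ℚ_[p] a').coeff 0 ≠ 0 := by
      intro h0
      rw [h0, norm_zero] at h4
      exact (pow_pos hr0 _).ne' h4
    rw [Padic.norm_eq_zpow_neg_valuation h5] at h4
    obtain ⟨t, ht⟩ : (minpoly ℚ_[p] a').natDegree ∣ D :=
      Nat.dvd_factorial hd (minpoly.natDegree_le a')
    refine ⟨-((minpoly ℚ_[p] a').coeff 0).valuation * t, ?_⟩
    apply Units.ext
    apply (pow_left_inj₀ (by simp only [Units.val_zpow_eq_zpow_val]; positivity) hr0.le hD).1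
    simp only [Units.val_zpow_eq_zpow_val]
    rw [← zpow_natCast, ← zpow_mul, mul_comm, zpow_mul, zpow_natCast, hs, ht, pow_mul, h4,
      ← zpow_natCast, ← zpow_mul]
  have h2 : (Subgroup.zpowers s).map (powMonoidHom D) ≤
      valueGroup (⊥ : IntermediateField ℚ_[p] ℂ_[p]) := by
    rintro _ ⟨_, ⟨j, rfl⟩, rfl⟩
    refine mem_valueGroup_bot.2 ⟨j, ?_⟩
    simp only [powMonoidHom_apply, Units.val_pow_eq_pow_val, Units.val_zpow_eq_zpow_val]
    rw [← zpow_natCast, ← zpow_mul, mul_comm, zpow_mul, zpow_natCast, hs]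
  have h3 := (Subgroup.isFiniteRelIndex_map_powMonoidHom_of_fg (B := Subgroup.zpowers s)
    ⟨{s}, by simp [Subgroup.zpowers_eq_closure]⟩ hD).relIndex_ne_zero
  intro h0
  have h4 := Subgroup.relIndex_eq_zero_of_le_right h1 h0
  exact h3 (Subgroup.relIndex_eq_zero_of_le_left h2 h4)

theorem norm_one_sub_le {ζ ξ : ℂ_[p]} {N : ℕ} (hN : N ≠ 0) (hζ : IsPrimitiveRoot ζ N)
    (hξ : ξ ^ N = 1) : ‖1 - ξ‖ ≤ ‖1 - ζ‖ := by
  have : NeZero N := ⟨hN⟩
  obtain ⟨u, -, rfl⟩ := hζ.eq_pow_of_pow_eq_one hξ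
  have h1 : ‖ζ‖ = 1 := by
    have := congrArg norm hζ.pow_eq_one
    rw [norm_pow, norm_one] at this
    exact (pow_eq_one_iff_of_nonneg (norm_nonneg _) hN).1 this
  rw [← mul_neg_geom_sum, norm_mul]
  apply mul_le_of_le_one_right (norm_nonneg _)
  apply IsUltrametricDist.norm_sum_le_of_forall_le_of_nonneg zero_le_one
  intro i _
  rw [norm_pow, h1, one_pow]

theorem ramIndex_bound (M : IntermediateField ℚ_[p] ℂ_[p]) [FiniteDimensional ℚ_[p] M] {n : ℕ}
    {ζ : ℂ_[p]} (hζ : IsPrimitiveRoot ζ (p ^ (n + 1))) :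
    p ^ n * (p - 1) ≤ ramIndex M * (minpoly M ζ).natDegree := by
  classical
  have hN : 0 < p ^ (n + 1) := pow_pos hp.out.pos _
  have : NeZero (p ^ (n + 1)) := ⟨hN.ne'⟩
  have hp1 : (1 : ℝ) < p := by exact_mod_cast hp.out.one_lt
  have hint : IsIntegral M ζ := isIntegral_of_pow_eq_one hN hζ.pow_eq_one
  have hnorm : ∀ ξ : ℂ_[p], IsPrimitiveRoot ξ (p ^ (n + 1)) → ‖1 - ξ‖ = ‖1 - ζ‖ := fun ξ hξ =>
    le_antisymm (norm_one_sub_le hN.ne' hζ hξ.pow_eq_one) (norm_one_sub_le hN.ne' hξ hζ.pow_eq_one)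
  set r := ‖1 - ζ‖ with hr
  have h1 : r ^ (p ^ n * (p - 1)) = (p : ℝ)⁻¹ := by
    have h2 := eval_one_cyclotomic_prime_pow (R := ℂ_[p]) (p := p) n
    rw [cyclotomic_eq_prod_X_sub_primitiveRoots hζ, eval_prod] at h2
    have h3 := congrArg norm h2
    rw [norm_prod, Finset.prod_congr rfl (g := fun _ => r) (fun ξ hξ => by
      rw [eval_sub, eval_X, eval_C]; exact hnorm ξ ((mem_primitiveRoots hN).1 hξ)),
      Finset.prod_const, hζ.card_primitiveRoots, Nat.totient_prime_pow_succ hp.out] at h3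
    rw [h3, ← map_natCast (algebraMap ℚ_[p] ℂ_[p]), norm_algebraMap_cp, Padic.norm_p]
  have hr0 : 0 < r := by
    refine lt_of_le_of_ne (norm_nonneg _) fun h0 => ?_
    have h2 : p ^ n * (p - 1) ≠ 0 :=
      mul_ne_zero (pow_pos hp.out.pos _).ne' (by have := hp.out.one_lt; omega)
    rw [← h0, zero_pow h2] at h1
    exact (inv_pos.2 (by linarith)).ne h1
  let μ := (minpoly M ζ).map (algebraMap M ℂ_[p])
  have hμ : μ.Monic := (minpoly.monic hint).map _
  have h2 : ‖μ.eval 1‖ = r ^ (minpoly M ζ).natDegree := by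
    have h3 := (IsAlgClosed.splits μ).eq_prod_roots_of_monic hμ
    have h4 : ∀ ξ ∈ μ.roots, ‖1 - ξ‖ = r := by
      intro ξ hξ
      apply hnorm
      have h5 : minpoly M ζ ∣ cyclotomic (p ^ (n + 1)) M := by
        apply minpoly.dvd
        rw [aeval_def, ← eval_map, map_cyclotomic]
        exact hζ.isRoot_cyclotomic hN
      have h6 : μ ∣ cyclotomic (p ^ (n + 1)) ℂ_[p] := by
        rw [← map_cyclotomic _ (algebraMap M ℂ_[p])]
        exact Polynomial.map_dvd _ h5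
      exact (isRoot_cyclotomic_iff_charZero hN).1 (((mem_roots hμ.ne_zero).1 hξ).dvd h6)
    have h5 : μ.roots.card = (minpoly M ζ).natDegree := by
      rw [← (IsAlgClosed.splits μ).natDegree_eq_card_roots, natDegree_map]
    rw [h3, eval_multiset_prod, Multiset.map_map, ← h5]
    have h6 : ∀ t : Multiset ℂ_[p], (∀ ξ ∈ t, ‖1 - ξ‖ = r) →
        ‖(t.map (eval 1 ∘ fun a => X - C a)).prod‖ = r ^ t.card := by
      intro t
      induction t using Multiset.induction_on with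
      | empty => simp
      | cons a t ih =>
        intro h
        rw [Multiset.map_cons, Multiset.prod_cons, norm_mul, ih fun ξ hξ => h ξ (by simp [hξ]),
          Multiset.card_cons, pow_succ']
        congr 1
        simpa using h a (by simp)
    exact h6 _ h4
  have h3 : Units.mk0 (r ^ (minpoly M ζ).natDegree) (by positivity) ∈ valueGroup M := by
    refine ⟨μ.eval 1, ?_, h2⟩
    rw [← map_one (algebraMap M ℂ_[p]), eval_map, eval₂_hom]
    exact Subtype.property _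
  obtain ⟨j, hj⟩ := mem_valueGroup_bot.1
    (Subgroup.pow_relIndex_mem (valueGroup (⊥ : IntermediateField ℚ_[p] ℂ_[p])) h3)
  change (r ^ (minpoly M ζ).natDegree) ^ ramIndex M = _ at hj
  have h4 : (p : ℝ) ^ (j * (p ^ n * (p - 1) : ℕ)) =
      (p : ℝ) ^ (- (ramIndex M * (minpoly M ζ).natDegree : ℕ) : ℤ) := by
    rw [zpow_mul, ← hj, zpow_natCast, ← pow_mul (a := r), ← pow_mul (a := r), mul_comm, pow_mul, h1,
      zpow_neg, zpow_natCast, inv_pow, mul_comm]
  have h5 := zpow_right_injective₀ (by linarith) hp1.ne' h4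
  have h6 : 0 < ramIndex M * (minpoly M ζ).natDegree :=
    Nat.mul_pos (Nat.pos_of_ne_zero (ramIndex_ne_zero M)) (minpoly.natDegree_pos hint)
  apply Nat.le_of_dvd h6
  rw [← Int.natCast_dvd_natCast]
  exact ⟨-j, by linarith⟩

theorem degree_bound {n : ℕ} {ζ : ℂ_[p]} (hζ : IsPrimitiveRoot ζ (p ^ (n + 1))) :
    p ^ n * (p - 1) ≤ (minpoly ℚ_[p] ζ).natDegree := by
  have hN : 0 < p ^ (n + 1) := pow_pos hp.out.pos _
  have hint : IsIntegral ℚ_[p] ζ := isIntegral_of_pow_eq_one hN hζ.pow_eq_one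
  have h1 := ramIndex_bound (⊥ : IntermediateField ℚ_[p] ℂ_[p]) hζ
  rw [ramIndex, Subgroup.relIndex_self, one_mul] at h1
  refine h1.trans ?_
  have h2 := minpoly.dvd_map_of_isScalarTower ℚ_[p] (⊥ : IntermediateField ℚ_[p] ℂ_[p]) ζ
  have h3 := natDegree_le_of_dvd h2 ((minpoly.monic hint).map _).ne_zero
  rwa [natDegree_map] at h3

end H735Z
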