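import Pool.Agent.H735Z.Count
import Pool.Agent.H735Z.LinAlg

/-! A reciprocity law for the local norms of `1 - a η` with `η` nilpotent. -/

set_option autoImplicit false
set_option linter.all false
set_option linter.overlappingInstances false

open Module Polynomial IntermediateField IsDedekindDomain

namespace H735Z

theorem finsupp_nat_induction {ι : Type*} {P : (ι →₀ ℕ) → Prop} (h0 : P 0)
    (h1 : ∀ D x, P D → P (D + Finsupp.single x 1)) (D : ι →₀ ℕ) : P D := by
  have : ∀ F D : ι →₀ ℕ, P D → P (D + F) := by
    intro F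
    induction F using Finsupp.induction_linear with
    | zero => intro D h; rwa [add_zero]
    | add F G hF hG => intro D h; rw [← add_assoc]; exact hG _ (hF D h)
    | single x n =>
      induction n with
      | zero => intro D h; rwa [Finsupp.single_zero, add_zero]
      | succ n ih => intro D h; rw [Finsupp.single_add, ← add_assoc]; exact h1 _ _ (ih D h)
  simpa using this D 0 h0

universe u

section
variable {k K : Type*} [Field k] [Field K] [Algebra k K]

theorem Place.reg_adjoin (x : Place k K) {u : K} (hu : x.Reg u) (a : Algebra.adjoin k {u}) :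
    x.Reg (algebraMap (Algebra.adjoin k {u}) K a) := by
  obtain ⟨a, ha⟩ := a
  change x.Reg a
  induction ha using Algebra.adjoin_induction with
  | mem y hy =>
    rw [Set.mem_singleton_iff] at hy
    rwa [hy]
  | algebraMap r => exact x.reg_const r
  | add _ _ _ _ hx hy => exact x.reg_add hx hy
  | mul _ _ _ _ hx hy => exact x.reg_mul hx hy

theorem Place.ge_mul_iff (x : Place k K) {t : K} (ht : t ≠ 0) (n : ℤ) (f : K) :
    x.Ge (n + x.ord t) (f * t) ↔ x.Ge n f := by
  by_cases hf : f = 0
  · subst hf
    simp [Place.Ge]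
  · unfold Place.Ge
    rw [x.ord_mul hf ht]
    simp [hf, ht]

theorem Place.ord_aeval (x : Place k K) {u : K} (hu : x.ord u < 0) (P : k[X]) (hP : P ≠ 0) :
    aeval u P ≠ 0 ∧ x.ord (aeval u P) = P.natDegree * x.ord u := by
  have hu0 : u ≠ 0 := by rintro rfl; rw [x.ord_zero] at hu; omega
  have h1 : aeval u P = algebraMap k K P.leadingCoeff * u ^ P.natDegree +
      ∑ i ∈ Finset.range P.natDegree, algebraMap k K (P.coeff i) * u ^ i := by
    rw [aeval_eq_sum_range, Finset.sum_range_succ, add_comm]
    simp only [Algebra.smul_def]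
    rfl
  have hc : P.leadingCoeff ≠ 0 := leadingCoeff_ne_zero.2 hP
  have h2 : algebraMap k K P.leadingCoeff * u ^ P.natDegree ≠ 0 :=
    mul_ne_zero (by simpa using hc) (pow_ne_zero _ hu0)
  have h3 : x.ord (algebraMap k K P.leadingCoeff * u ^ P.natDegree) = P.natDegree * x.ord u := by
    rw [x.ord_mul (by simpa using hc) (pow_ne_zero _ hu0), x.ord_const hc, x.ord_pow, zero_add]
  have h4 : x.Ge (P.natDegree * x.ord u + 1)
      (∑ i ∈ Finset.range P.natDegree, algebraMap k K (P.coeff i) * u ^ i) := by
    apply Place.Ge.sum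
    intro i hi
    rw [Finset.mem_range] at hi
    refine (((x.ge_ord u).pow i).const_mul _).mono ?_
    have : (i : ℤ) + 1 ≤ P.natDegree := by exact_mod_cast hi
    nlinarith
  rw [h1]
  rcases h4 with h4 | h4
  · rw [h4, add_zero]; exact ⟨h2, h3⟩
  · by_cases h5 : ∑ i ∈ Finset.range P.natDegree, algebraMap k K (P.coeff i) * u ^ i = 0
    · rw [h5, add_zero]; exact ⟨h2, h3⟩
    · rw [← h3]
      exact x.ord_add_eq h2 h5 (by omega)

end

section
variable {k : Type u} {K : Type*} [Field k] [Field K] [Algebra k K] [Finite k] [IsFF k K]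

theorem strong_approx {γ N : ℤ} (hR : RData k K γ N) (D : Place k K →₀ ℤ) (x : Place k K)
    (h : N ≤ ddeg D - x.deg) (w : K) (hw : x.Ge (- D x) w) :
    ∃ f ∈ LL D, x.Ge (- D x + 1) (w - f) := by
  classical
  by_cases hw0 : w = 0
  · exact ⟨0, (LL D).zero_mem, Or.inl (by simp [hw0])⟩
  have hw1 := hw.resolve_left hw0
  let D2 := (D ⊔ - divisor k w) - Finsupp.single x 1
  have h1 : D ⊓ D2 = D - Finsupp.single x 1 := by
    ext y
    by_cases hy : y = x
    · subst hy
      simp only [D2, Finsupp.inf_apply, Finsupp.sub_apply, Finsupp.sup_apply, Finsupp.neg_apply,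
        divisor_apply, Finsupp.single_eq_same]
      omega
    · simp only [D2, Finsupp.inf_apply, Finsupp.sub_apply, Finsupp.sup_apply, Finsupp.neg_apply,
        divisor_apply, Finsupp.single_eq_of_ne hy]
      omega
  have h2 := LL_sup hR D D2 (by rw [h1, ddeg_sub, ddeg_single]; omega)
  have h3 : w ∈ LL (D ⊔ D2) := by
    right
    intro y
    by_cases hy : y = x
    · subst hy
      simp only [D2, Finsupp.sub_apply, Finsupp.sup_apply, Finsupp.neg_apply,
        divisor_apply, Finsupp.single_eq_same]
      omega
    · simp only [D2, Finsupp.sub_apply, Finsupp.sup_apply, Finsupp.neg_apply,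
        divisor_apply, Finsupp.single_eq_of_ne hy]
      omega
  rw [h2, Submodule.mem_sup] at h3
  obtain ⟨f1, hf1, f2, hf2, rfl⟩ := h3
  refine ⟨f1, hf1, ?_⟩
  rw [add_sub_cancel_left]
  refine (mem_LL_ge.1 hf2 x).mono ?_
  simp only [D2, Finsupp.sub_apply, Finsupp.sup_apply, Finsupp.neg_apply,
    divisor_apply, Finsupp.single_eq_same]
  omega

/-- the characteristic polynomial of the residue of `a` at `x` -/
noncomputable def Cx (a : K) (x : Place k K) : k[X] := (Algebra.lmul k x.RF (x.red a)).charpoly

theorem charpoly_quot {V : Type*} [AddCommGroup V] [Module k V] (u : K) (z : Place k K)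
    (hz : ¬ z.Reg u) (j : V →ₗ[k] K) (hj1 : ∀ f (x : Place k K), x.Reg u → x.Reg (j f))
    (hj2 : ∀ w, (∀ x : Place k K, x.Reg u → x.Reg w) → ∃ f, j f = w) (a : K)
    (ha : ∀ x : Place k K, x.Reg u → x.Reg a) (T : V → V) (hT : ∀ f, j (T f) = a * j f)
    (D : Place k K →₀ ℕ) : (∀ x, D x ≠ 0 → x.Reg u) →
    ∀ (Q : Type u) [AddCommGroup Q] [Module k Q] [FiniteDimensional k Q] (E : V →ₗ[k] Q)
      (φ : Q →ₗ[k] Q), Function.Surjective E →
      (∀ f, E f = 0 ↔ ∀ x : Place k K, x.Reg u → x.Ge (D x) (j f)) →
      (∀ f, φ (E f) = E (T f)) → φ.charpoly = wt (Cx a) D := by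
  classical
  induction D using finsupp_nat_induction with
  | h0 =>
    intro _ Q _ _ _ E φ hE hker hφ
    have : Subsingleton Q := by
      refine subsingleton_of_forall_eq 0 fun q => ?_
      obtain ⟨f, rfl⟩ := hE q
      exact (hker f).2 fun x hx => hj1 f x hx
    rw [wt_zero, ← (LinearMap.charpoly_monic φ).natDegree_eq_zero, LinearMap.charpoly_natDegree,
      Module.finrank_zero_of_subsingleton]
  | h1 D x ih =>
    intro hD Q _ _ _ E φ hE hker hφ
    have hxu : x.Reg u := hD x (by simp)
    have hD' : ∀ y, D y ≠ 0 → y.Reg u := fun y hy => hD y (by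
      rw [Finsupp.add_apply]; omega)
    let J : Submodule k V :=
      { carrier := {f | ∀ y : Place k K, y.Reg u → y.Ge (D y) (j f)}
        zero_mem' := fun y _ => Or.inl (map_zero j)
        add_mem' := fun {f g} hf hg y hy => by rw [map_add]; exact (hf y hy).add (hg y hy)
        smul_mem' := fun c f hf y hy => by
          rw [map_smul, Algebra.smul_def]; exact (hf y hy).const_mul c }
    have hJ : ∀ f, f ∈ J ↔ ∀ y : Place k K, y.Reg u → y.Ge (D y) (j f) := fun f => Iff.rfl
    have hJT : ∀ f ∈ J, T f ∈ J := by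
      intro f hf y hy
      rw [hT]
      have := (y.ge_zero_iff.2 (ha y hy)).mul (hf y hy)
      rwa [zero_add] at this
    have hkJ : ∀ f, E f = 0 → f ∈ J := by
      intro f hf y hy
      refine ((hker f).1 hf y hy).mono ?_
      rw [Finsupp.add_apply]; push_cast; omega
    let W := J.map E
    have hW : W ≤ W.comap φ := by
      rintro _ ⟨f, hf, rfl⟩
      exact ⟨T f, hJT f hf, (hφ f).symm⟩
    rw [charpoly_eq_mul W φ hW, wt_add, wt_single, pow_one, mul_comm]
    congr 1
    · apply ih hD' (Q ⧸ W) (W.mkQ ∘ₗ E) _ (W.mkQ_surjective.comp hE)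
      · intro f
        rw [← hJ, LinearMap.comp_apply, Submodule.mkQ_apply, Submodule.Quotient.mk_eq_zero]
        constructor
        · rintro ⟨g, hg, h⟩
          have h1 := hkJ (f - g) (by rw [map_sub, h, sub_self])
          simpa using J.add_mem h1 hg
        · intro h; exact ⟨f, h, rfl⟩
      · intro f
        simp only [LinearMap.comp_apply, Submodule.mkQ_apply, Submodule.mapQ_apply, hφ]
    · obtain ⟨π, hπ0, hπ⟩ := x.surj
      let t : K := π ^ (- (D x : ℤ))
      have ht0 : t ≠ 0 := zpow_ne_zero _ hπ0
      have ht : x.ord t = - (D x : ℤ) := by rw [x.ord_zpow, hπ, mul_one]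
      have hge : ∀ (n : ℤ) (w : K), x.Ge n (w * t) ↔ x.Ge (n + D x) w := by
        intro n w
        rw [← x.ge_mul_iff ht0 (n + D x) w, ht, add_neg_cancel_right]
      have hreg : ∀ f : J, x.Reg (j f * t) := fun f =>
        x.ge_zero_iff.1 ((hge 0 _).2 (by rw [zero_add]; exact f.2 x hxu))
      let E1 : J →ₗ[k] W := (E.domRestrict J).codRestrict W fun f => ⟨f, f.2, rfl⟩
      let E2 : J →ₗ[k] x.RF :=
        { toFun := fun f => x.red (j f * t)
          map_add' := fun f g => by
            rw [Submodule.coe_add, map_add, add_mul, x.red_add (hreg f) (hreg g)]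
          map_smul' := fun c f => by
            rw [Submodule.coe_smul, map_smul, smul_mul_assoc, Algebra.smul_def,
              x.red_mul (x.reg_const c) (hreg f), RingHom.id_apply, Algebra.smul_def,
              x.algebraMap_RF] }
      have hE2 : ∀ f : J, E2 f = x.red (j f * t) := fun f => rfl
      refine charpoly_eq_of_surj E1 E2 ?_ ?_ ?_ (fun f => ⟨T f, hJT f f.2⟩) _ _ ?_ ?_
      · rintro ⟨_, f, hf, rfl⟩
        exact ⟨⟨f, hf⟩, rfl⟩
      · intro c
        obtain ⟨w, hw, rfl⟩ := x.red_surjective c
        obtain ⟨γ, N, hR⟩ := exists_rdata k K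
        obtain ⟨m, -, hm⟩ := exists_big z (- nd D) (N + x.deg)
        have hzx : ∀ y : Place k K, y.Reg u → y ≠ z := by rintro y hy rfl; exact hz hy
        have hco : ∀ y : Place k K, y.Reg u →
            - (Finsupp.single z (m : ℤ) + - nd D : Place k K →₀ ℤ) y = D y := by
          intro y hy
          rw [Finsupp.add_apply, Finsupp.single_eq_of_ne (hzx y hy), Finsupp.neg_apply, nd_apply]
          ring
        obtain ⟨f, hf, hf'⟩ := strong_approx hR (Finsupp.single z (m : ℤ) + - nd D) x (by omega)
          (w * t⁻¹) (by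
            rw [hco x hxu, ← zero_add (D x : ℤ), ← hge, inv_mul_cancel_right₀ ht0]
            exact hw)
        have hf1 : ∀ y : Place k K, y.Reg u → y.Ge (D y) f := by
          intro y hy
          rw [← hco y hy]
          exact mem_LL_ge.1 hf y
        obtain ⟨g, rfl⟩ := hj2 f fun y hy => y.reg_of_ge (by positivity) (hf1 y hy)
        refine ⟨⟨g, hf1⟩, ?_⟩
        rw [hco x hxu, add_comm, ← hge, sub_mul, inv_mul_cancel_right₀ ht0] at hf'
        exact (x.red_eq_of_ge (hreg ⟨g, hf1⟩) hf').2.symm
      · ext f
        rw [LinearMap.mem_ker, LinearMap.mem_ker, hE2, ← x.ge_one_iff (hreg f), hge,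
          ← Subtype.coe_inj]
        change E f = 0 ↔ _
        rw [hker]
        constructor
        · intro h
          have := h x hxu
          rw [Finsupp.add_apply, Finsupp.single_eq_same] at this
          push_cast at this
          rwa [add_comm]
        · intro h y hy
          by_cases hyx : y = x
          · subst hyx
            rw [Finsupp.add_apply, Finsupp.single_eq_same]
            push_cast
            rwa [add_comm]
          · rw [Finsupp.add_apply, Finsupp.single_eq_of_ne hyx, add_zero]
            exact f.2 y hy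
      · intro f
        exact Subtype.ext (hφ f)
      · intro f
        rw [hE2, hE2]
        change x.red a * _ = x.red (j (T f) * t)
        rw [hT, mul_assoc, x.red_mul (ha x hxu) (hreg f)]

open scoped algebraAdjoinAdjoin in
theorem isIntegral_of_reg {v : K} (hv : Transcendental k v) {f : K}
    (h : ∀ x : Place k K, x.Reg v → x.Reg f) : IsIntegral (Algebra.adjoin k {v}) f := by
  let A := Algebra.adjoin k {v}
  let e := Polynomial.algEquivOfTranscendental k v hv
  have hpid : IsPrincipalIdealRing A := IsPrincipalIdealRing.of_surjective e.toRingEquiv e.surjective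
  have hfin := IsFF.finite hv
  let B := integralClosure A K
  have : IsDedekindDomain B := dedekind_of_finite k⟮v⟯ (finite_integralClosure hv)
  have : IsFractionRing B K := integralClosure.isFractionRing_of_finite_extension k⟮v⟯ K
  have hsc : IsScalarTower k B K := IsScalarTower.of_algebraMap_eq fun c => rfl
  obtain ⟨b, rfl⟩ := HeightOneSpectrum.mem_integers_of_valuation_le_one (R := B) K f (by
    intro P
    by_cases hf0 : f = 0
    · rw [hf0, map_zero]; exact zero_le
    rw [← placeOf_nonneg (k := k) P hf0, ← Place.reg_iff _ hf0]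
    apply h
    exact placeOf_reg (k := k) (L := K) P
      (algebraMap A B ⟨v, Algebra.self_mem_adjoin_singleton k v⟩))
  exact b.2

theorem exists_pole {u : K} (hu : Transcendental k u) : ∃ z : Place k K, z.ord u < 0 := by
  obtain ⟨S, hS, h⟩ := poles hu
  have := IsFF.finite hu
  have h1 : 0 < finrank k⟮u⟯ K := Module.finrank_pos
  by_contra h2
  push Not at h2
  have h3 : S = ∅ := Finset.eq_empty_of_forall_notMem fun w hw => (h2 w).not_gt ((hS w).1 hw)
  rw [h3, Finset.sum_empty] at h
  omega

open scoped algebraAdjoinAdjoin nonZeroDivisors in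
theorem recip_coeff {u a : K} (hu : Transcendental k u) {N : ℕ} (hN : 0 < N)
    (ha : ∀ x : Place k K, x.Reg u → x.Reg a)
    (hav : ∀ x : Place k K, x.Reg u⁻¹ → x.Reg (a ^ N * u⁻¹)) :
    ∃ (n : ℕ) (c0 : ℕ → k), ∀ c : k,
      (wt (Cx a) (tn (divisor k (u - algebraMap k K c)))).natDegree = n ∧
      ∀ i, i < N → i ≤ n →
        (wt (Cx a) (tn (divisor k (u - algebraMap k K c)))).coeff (n - i) = c0 i := by
  classical
  let A := Algebra.adjoin k {u}
  let e := Polynomial.algEquivOfTranscendental k u hu
  have he : ∀ P : k[X], ((e P : A) : K) = aeval u P := by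
    intro P
    rw [Polynomial.algEquivOfTranscendental_apply]
    exact (aeval_algHom_apply A.val _ P).symm
  have hpid : IsPrincipalIdealRing A := IsPrincipalIdealRing.of_surjective e.toRingEquiv e.surjective
  have hfin := IsFF.finite hu
  let B := integralClosure A K
  have hfinB : Module.Finite A B := finite_integralClosure hu
  have htf : Module.IsTorsionFree A B := by
    apply Module.isTorsionFree_iff_algebraMap_injective.2
    intro r s h
    exact Subtype.ext (congrArg (fun t : B => (t : K)) h)
  have hfree : Module.Free A B := Module.free_of_finite_type_torsion_free'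
  have hloc : IsLocalization (Algebra.algebraMapSubmonoid B A⁰) K :=
    IsIntegralClosure.isLocalization A k⟮u⟯ K B
  let b := Module.finBasis A B
  let aB : B := ⟨a, isIntegral_of_reg hu ha⟩
  let M := Algebra.leftMulMatrix b aB
  obtain ⟨z, hz⟩ := exists_pole hu
  have hu0 : u ≠ 0 := by rintro rfl; exact hu isAlgebraic_zero
  have hz' : ¬ z.Reg u := by rw [z.reg_iff hu0]; omega
  let ev : k → (A →ₐ[k] k) := fun c => (aeval c).comp e.symm.toAlgHom
  have hev : ∀ c P, ev c (e P) = P.eval c := by
    intro c P
    simp [ev, coe_aeval_eq_eval]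
  have hN1 : ∀ c : k, M.charpoly.map (ev c).toRingHom =
      wt (Cx a) (tn (divisor k (u - algebraMap k K c))) := by
    intro c
    let πA : A := e (X - C c)
    have hπ : (πA : K) = u - algebraMap k K c := by simp [πA, he]
    have hπ0 : u - algebraMap k K c ≠ 0 := by
      intro h0
      apply hu
      rw [sub_eq_zero.1 h0]
      exact isAlgebraic_algebraMap c
    have hD : ∀ x : Place k K, x.Reg u →
        ((tn (divisor k (u - algebraMap k K c)) x : ℕ) : ℤ) = x.ord (u - algebraMap k K c) := by
      intro x hx
      rw [tn_apply, divisor_apply, Int.toNat_of_nonneg]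
      exact (x.reg_iff hπ0).1 (x.reg_sub hx (x.reg_const c))
    let E : B →ₗ[k] (Fin (finrank A B) → k) :=
      { toFun := fun f i => ev c (b.repr f i)
        map_add' := fun f g => by ext i; simp
        map_smul' := fun r f => by
          ext i
          rw [← algebraMap_smul A r f, map_smul, Finsupp.smul_apply, smul_eq_mul, map_mul,
            AlgHom.commutes]
          rfl }
    have hE : ∀ f i, E f i = ev c (b.repr f i) := fun _ _ => rfl
    rw [← Matrix.charpoly_map, ← Matrix.charpoly_toLin']
    refine charpoly_quot u z hz' (B.val.toLinearMap.restrictScalars k) ?_ ?_ a ha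
      (fun f => aB * f) (fun f => rfl) _ ?_ _ E _ ?_ ?_ ?_
    · intro f x hx
      exact x.reg_of_isIntegral (x.reg_adjoin hx) f.2
    · intro w hw
      exact ⟨⟨w, isIntegral_of_reg hu hw⟩, rfl⟩
    · intro x hx
      rw [tn_apply, divisor_apply] at hx
      have h1 : x.Reg (u - algebraMap k K c) := Or.inr (by omega)
      simpa using x.reg_add h1 (x.reg_const c)
    · intro q
      refine ⟨b.equivFun.symm fun i => algebraMap k A (q i), ?_⟩
      ext i
      rw [hE, ← Basis.equivFun_apply, LinearEquiv.apply_symm_apply, AlgHom.commutes]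
      rfl
    · intro f
      constructor
      · intro h x hx
        have h1 : ∀ i, ∃ r : A, b.repr f i = πA * r := by
          intro i
          have h2 := congrFun h i
          rw [hE, ← e.apply_symm_apply (b.repr f i), hev] at h2
          obtain ⟨Q, hQ⟩ := dvd_iff_isRoot.2 h2
          exact ⟨e Q, by rw [← map_mul, ← hQ, e.apply_symm_apply]⟩
        choose r hr using h1
        have h2 : f = πA • b.equivFun.symm r := by
          apply b.equivFun.injective
          rw [map_smul, LinearEquiv.apply_symm_apply]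
          ext i
          rw [Basis.equivFun_apply, hr]
          rfl
        rw [hD x hx, h2]
        change x.Ge _ ((πA : K) * (b.equivFun.symm r : B))
        rw [hπ]
        have h3 := (x.ge_ord (u - algebraMap k K c)).mul
          (x.ge_zero_iff.2 (x.reg_of_isIntegral (x.reg_adjoin hx) (b.equivFun.symm r).2))
        rwa [add_zero] at h3
      · intro h
        have h1 : ∀ x : Place k K, x.Reg u → x.Reg ((f : K) * (u - algebraMap k K c)⁻¹) := by
          intro x hx
          have h2 := (h x hx).mul (x.ge_ord (u - algebraMap k K c)⁻¹)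
          rwa [hD x hx, x.ord_inv, add_neg_cancel] at h2
        have h2 : f = πA • (⟨_, isIntegral_of_reg hu h1⟩ : B) := by
          apply Subtype.ext
          change (f : K) = (πA : K) * (f * (u - algebraMap k K c)⁻¹)
          rw [hπ, mul_comm, inv_mul_cancel_right₀ hπ0]
        ext i
        rw [hE, h2, map_smul, Finsupp.smul_apply, smul_eq_mul, map_mul, hev]
        simp
    · intro f
      ext i
      rw [hE, ← Algebra.leftMulMatrix_mulVec_repr, Matrix.toLin'_apply]
      exact (RingHom.map_mulVec (ev c).toRingHom M (b.repr f) i).symm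
  have hdeg : M.charpoly.natDegree = finrank A B := by
    rw [Matrix.charpoly_natDegree_eq_dim, Fintype.card_fin]
  have hN2 : ∀ i, i < N → i ≤ finrank A B →
      (e.symm (M.charpoly.coeff (finrank A B - i))).natDegree = 0 := by
    intro i hi hin
    let Ω := AlgebraicClosure K
    let Av := Algebra.adjoin k {u⁻¹}
    have hv : Transcendental k u⁻¹ := fun h => hu (by simpa using h.inv)
    have hw := isIntegral_of_reg hv hav
    let χ := M.charpoly.map (algebraMap A K)
    have hχ : χ.Monic := (Matrix.charpoly_monic M).map _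
    have hχd : χ.natDegree = finrank A B := by
      rw [(Matrix.charpoly_monic M).natDegree_map, hdeg]
    have hAv : ∀ r : Av, (r : K) ∈ k⟮u⟯ := by
      intro r
      rw [← adjoin_inv]
      exact IntermediateField.algebra_adjoin_le_adjoin k {u⁻¹} r.2
    have hroot : ∀ α : Ω, (χ.map (algebraMap K Ω)).eval α = 0 →
        IsIntegral Av (α ^ N * algebraMap K Ω u⁻¹) := by
      intro α hα
      obtain ⟨φ, hφ⟩ := exists_algHom_of_charpoly' k⟮u⟯ b aB α hα
      change φ a = α at hφ
      have h1 : ∀ r : K, r ∈ k⟮u⟯ → φ r = algebraMap K Ω r := fun r hr => φ.commutes ⟨r, hr⟩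
      have h2 := IsIntegral.map_of_comp_eq (RingHom.id Av) φ.toRingHom (by
        ext r
        exact (h1 r (hAv r)).symm) hw
      change IsIntegral Av (φ (a ^ N * u⁻¹)) at h2
      rwa [map_mul, map_pow, hφ, h1 _ (inv_mem (IntermediateField.mem_adjoin_simple_self k u))]
        at h2
    have h2 := isIntegral_coeff_pow (R := Av) (Ω := Ω) χ hχ (inv_ne_zero hu0) hN hroot (i := i) (by omega)
    rw [hχd, coeff_map] at h2
    generalize M.charpoly.coeff (finrank A B - i) = r at h2 ⊢
    have hr : algebraMap A K r = (r : K) := rfl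
    rw [hr] at h2
    have h3 := z.reg_of_isIntegral (z.reg_adjoin (u := u⁻¹) (Or.inr (by rw [z.ord_inv]; omega))) h2
    by_cases hP : e.symm r = 0
    · rw [hP, natDegree_zero]
    obtain ⟨h4, h5⟩ := z.ord_aeval hz _ hP
    rw [← he, e.apply_symm_apply] at h4 h5
    rw [z.reg_iff (mul_ne_zero (pow_ne_zero _ h4) (pow_ne_zero _ (inv_ne_zero hu0))),
      z.ord_mul (pow_ne_zero _ h4) (pow_ne_zero _ (inv_ne_zero hu0)), z.ord_pow, z.ord_pow,
      z.ord_inv, h5] at h3
    by_contra h6
    have h7 : (1 : ℤ) ≤ (e.symm r).natDegree := by omega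
    have h8 : (i : ℤ) < N := by exact_mod_cast hi
    have h9 : (N : ℤ) ≤ N * (e.symm r).natDegree := by nlinarith
    nlinarith
  refine ⟨finrank A B, fun i => (e.symm (M.charpoly.coeff (finrank A B - i))).coeff 0, fun c => ?_⟩
  rw [← hN1]
  refine ⟨by rw [(Matrix.charpoly_monic M).natDegree_map, hdeg], fun i hi hin => ?_⟩
  rw [coeff_map]
  change ev c _ = _
  conv_lhs => rw [← e.apply_symm_apply (M.charpoly.coeff _), hev,
    eq_C_of_natDegree_eq_zero (hN2 i hi hin), eval_C]

theorem recip_one {u a : K} (hu : Transcendental k u) {N : ℕ} (hN : 0 < N)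
    (ha : ∀ x : Place k K, x.Reg u → x.Reg a)
    (hav : ∀ x : Place k K, x.Reg u⁻¹ → x.Reg (a ^ N * u⁻¹))
    {Γ : Type*} [CommRing Γ] [Algebra k Γ] {η : Γ} (hη : η ^ N = 0) :
    wt (fun x => aeval η (Cx a x).reverse) (tn (divisor k (u + 1))) =
      wt (fun x => aeval η (Cx a x).reverse) (tn (divisor k u)) := by
  have h1 : ∀ D : Place k K →₀ ℕ, wt (fun x => aeval η (Cx a x).reverse) D =
      aeval η (wt (Cx a) D).reverse := by
    intro D
    unfold wt Finsupp.prod
    rw [reverse_prod', map_prod]
    refine Finset.prod_congr rfl fun x _ => ?_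
    rw [reverse_pow', map_pow]
  obtain ⟨n, c0, h⟩ := recip_coeff hu hN ha hav
  have h2 := h (-1)
  have h3 := h 0
  rw [map_neg, map_one, sub_neg_eq_add] at h2
  rw [map_zero, sub_zero] at h3
  rw [h1, h1]
  apply aeval_reverse_eq hη (h2.1.trans h3.1.symm)
  intro i hi hin
  rw [h2.1] at hin ⊢
  rw [h2.2 i hi hin, h3.2 i hi hin]

end

end H735Z
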