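import Pool.Agent.H735Z.Cheb
import Pool.Agent.H735Z.Padic

/-! Group theory of the tower, and the coefficient of the L-function that detects roots of
unity of large order. -/

set_option autoImplicit false
set_option linter.all false
set_option linter.overlappingInstances false

open Module

namespace H735Z

section group

theorem mem_of_pow_card {G : Type*} [Group G] [Finite G] [IsCyclic G] (H : Subgroup G) {β : G}
    (h : β ^ Nat.card H = 1) : β ∈ H := by
  classical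
  have := Fintype.ofFinite G
  have h1 := IsCyclic.card_pow_eq_one_le (α := G) (n := Nat.card H) Nat.card_pos
  have h2 : (Finset.univ.filter fun a : G => a ∈ H) ⊆
      Finset.univ.filter fun a : G => a ^ Nat.card H = 1 := by
    intro a ha
    rw [Finset.mem_filter] at ha ⊢
    refine ⟨ha.1, ?_⟩
    have := pow_card_eq_one' (G := H) (x := ⟨a, ha.2⟩)
    exact congrArg Subtype.val this
  have h3 : (Finset.univ.filter fun a : G => a ∈ H).card = Nat.card H := by
    rw [Nat.card_eq_fintype_card, Fintype.card_subtype]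
  have h4 := Finset.eq_of_subset_of_card_le h2 (by rw [h3]; exact h1)
  have h5 : β ∈ Finset.univ.filter fun a : G => a ^ Nat.card H = 1 :=
    Finset.mem_filter.2 ⟨Finset.mem_univ _, h⟩
  rw [← h4] at h5
  exact (Finset.mem_filter.1 h5).2

theorem injective_of_orderOf {G Γ : Type*} [Group G] [Finite G] [CommGroup Γ] (χ : G →* Γ)
    (h : orderOf χ = Nat.card G) : Function.Injective χ := by
  rw [← MonoidHom.ker_eq_bot_iff, ← Subgroup.card_eq_one]
  have h1 : χ ^ χ.ker.index = 1 := by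
    ext g
    have := Subgroup.pow_index_mem χ.ker g
    rw [MonoidHom.mem_ker, map_pow] at this
    simpa using this
  have h2 := orderOf_dvd_of_pow_eq_one h1
  have h3 := χ.ker.card_mul_index
  have h4 : 0 < Nat.card G := Nat.card_pos
  have h5 : 0 < χ.ker.index := Nat.pos_of_ne_zero Subgroup.index_ne_zero_of_finite
  have h6 := Nat.le_of_dvd h5 h2
  have h7 : 0 < Nat.card χ.ker := Nat.card_pos
  rw [h] at h6
  nlinarith

theorem card_ker_of_surjective {G G' : Type*} [Group G] [Group G'] [Finite G] (ρ : G →* G')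
    (hρ : Function.Surjective ρ) {p m n : ℕ} (hp : 0 < p) (hmn : m ≤ n) (h : Nat.card G = p ^ n)
    (h' : Nat.card G' = p ^ m) : Nat.card ρ.ker = p ^ (n - m) := by
  have h1 := ρ.ker.card_mul_index
  rw [Subgroup.index_ker, MonoidHom.range_eq_top.2 hρ, Subgroup.card_top, h, h'] at h1
  apply Nat.eq_of_mul_eq_mul_right (pow_pos hp m)
  rw [h1, ← pow_add, Nat.sub_add_cancel hmn]

theorem map_eq_one_of_pow {G G' : Type*} [Group G] [Group G'] [Finite G] [IsCyclic G]
    (ρ : G →* G') (hρ : Function.Surjective ρ) {p m n j : ℕ} (hp : 0 < p) (hmn : m + j ≤ n)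
    (h : Nat.card G = p ^ n) (h' : Nat.card G' = p ^ m) {β : G} (hβ : β ^ p ^ j = 1) :
    ρ β = 1 := by
  apply mem_of_pow_card ρ.ker
  rw [card_ker_of_surjective ρ hρ hp (by omega) h h']
  obtain ⟨t, ht⟩ : p ^ j ∣ p ^ (n - m) := pow_dvd_pow _ (by omega)
  rw [ht, pow_mul, hβ, one_pow]

theorem orderOf_eq_of_map_ne_one {G G' : Type*} [Group G] [Group G'] [Finite G] [IsCyclic G]
    (ρ : G →* G') (hρ : Function.Surjective ρ) {p n : ℕ} (hp : p.Prime)
    (h : Nat.card G = p ^ (n + 1)) (h' : Nat.card G' = p ^ 1) {β : G} (hβ : ρ β ≠ 1) :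
    orderOf β = p ^ (n + 1) := by
  have : Fact p.Prime := ⟨hp⟩
  apply orderOf_eq_prime_pow
  · intro h1
    exact hβ (map_eq_one_of_pow ρ hρ hp.pos (by omega) h h' h1)
  · rw [← h]; exact pow_card_eq_one'

end group

variable {p : ℕ} [hp : Fact p.Prime] {k K Ω : Type*} [Field k] [Field K] [Field Ω] [Algebra k K]
  [Algebra K Ω] [Algebra k Ω] [IsScalarTower k K Ω] [Finite k] {F : ℕ → IntermediateField K Ω}

theorem IsZpTower.card (hT : IsZpTower p k F) (n : ℕ) : Nat.card (F n ≃ₐ[K] F n) = p ^ n := by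
  obtain ⟨e⟩ := hT.cyclic n
  rw [Nat.card_congr e.toEquiv, Nat.card_congr Multiplicative.toAdd, Nat.card_zmod]

theorem IsZpTower.finite (hT : IsZpTower p k F) (n : ℕ) : Finite (F n ≃ₐ[K] F n) :=
  Nat.finite_of_card_ne_zero (by rw [hT.card]; exact (pow_pos hp.out.pos _).ne')

theorem IsZpTower.isCyclic (hT : IsZpTower p k F) (n : ℕ) : IsCyclic (F n ≃ₐ[K] F n) := by
  obtain ⟨e⟩ := hT.cyclic n
  exact isCyclic_of_surjective e.symm e.symm.surjective

theorem IsZpTower.comm (hT : IsZpTower p k F) (n : ℕ) (σ τ : F n ≃ₐ[K] F n) : σ * τ = τ * σ := by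
  obtain ⟨e⟩ := hT.cyclic n
  apply e.injective
  rw [map_mul, map_mul, mul_comm]

theorem IsZpTower.findim (hT : IsZpTower p k F) (n : ℕ) : FiniteDimensional K (F n) := by
  have := hT.galois n
  have := hT.finite n
  exact IsGalois.finiteDimensional_of_finite K (F n)

theorem IsZpTower.isFF (hT : IsZpTower p k F) (n : ℕ) : IsFF k (F n) := by
  have := hT.ff
  have := hT.findim n
  exact IsFF.of_ext (K := K)

theorem IsZpTower.exists_res (hT : IsZpTower p k F) {m n : ℕ} (hmn : m ≤ n) :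
    ∃ ρ : (F n ≃ₐ[K] F n) →* (F m ≃ₐ[K] F m), Function.Surjective ρ ∧
      (∀ x : Place k K, ¬ Ramified (F m) x → ρ (frob (F n) x) = frob (F m) x) ∧
      (∀ x : Place k K, Ramified (F m) x → ∀ (y : Place k (F n)) (e : ℕ), Over y x e →
        ∃ σ : F n ≃ₐ[K] F n, (∀ a, y.Reg a → y.Ge 1 (σ a - a)) ∧ ρ σ ≠ 1) := by
  have hle : F m ≤ F n := monotone_nat_of_le_succ hT.mono hmn
  letI : Algebra (F m) (F n) := (IntermediateField.inclusion hle).toRingHom.toAlgebra
  have := hT.ff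
  have := hT.findim m
  have := hT.findim n
  have := hT.galois m
  have := hT.galois n
  have := hT.isFF m
  have := hT.isFF n
  have h1 : IsScalarTower K (F m) (F n) := IsScalarTower.of_algebraMap_eq fun _ => rfl
  have h2 : IsScalarTower k (F m) (F n) := IsScalarTower.of_algebraMap_eq fun _ => rfl
  have h3 : FiniteDimensional (F m) (F n) := Module.Finite.of_restrictScalars_finite K _ _
  have h4 : IsGalois (F m) (F n) := IsGalois.tower_top_of_isGalois K _ _
  refine ⟨AlgEquiv.restrictNormalHom (F m), AlgEquiv.restrictNormalHom_surjective (F n), ?_, ?_⟩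
  · intro x hx
    exact ((isFrobAt_frob x).restrict (M := F m)).eq_frob (hT.comm m) hx
  · intro x hx y e h
    have h5 := inert_not_le hx h
    rw [SetLike.not_le_iff_exists] at h5
    obtain ⟨σ, h6, h7⟩ := h5
    exact ⟨σ, h6, h7⟩

/-- The commutative group structure on the Galois groups of the tower. -/
@[reducible] noncomputable def IsZpTower.cg (hT : IsZpTower p k F) (n : ℕ) :
    CommGroup (F n ≃ₐ[K] F n) :=
  { (inferInstance : Group (F n ≃ₐ[K] F n)) with mul_comm := hT.comm n }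

theorem IsZpTower.exists_frob_ne (hT : IsZpTower p k F) (T : Finset (Place k K))
    (hS : ∀ x, x ∉ T → x ∉ ramLocus k F) : ∃ x : Place k K, x ∉ T ∧ frob (F 1) x ≠ 1 := by
  have := hT.ff
  have := hT.findim 1
  have := hT.galois 1
  have := hT.isFF 1
  by_contra h
  push Not at h
  have h1 := weak_chebotarev (L := F 1) T fun x hx => ⟨fun h2 => hS x hx ⟨1, h2⟩, fun y e hy => by
    rw [← h x hx]; exact frobAt_frob (hT.comm 1) hy⟩
  rw [hT.card, pow_one] at h1
  exact hp.out.one_lt.ne' h1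

/-- The core estimate: a fixed coefficient of the L-functions nearly generates the cyclotomic
field. -/
theorem IsZpTower.core [IsFF k K] (hT : IsZpTower p k F) (T : Finset (Place k K))
    (hS : ∀ x, x ∉ T → x ∉ ramLocus k F) (χ : ∀ n, (F n ≃ₐ[K] F n) →* ℂ_[p]ˣ)
    (hχ : ∀ n, 1 ≤ n → orderOf (χ n) = p ^ n) :
    ∃ m d N : ℕ, 0 < m ∧ ∀ n, N ≤ n → ∃ ζ : ℂ_[p], IsPrimitiveRoot ζ (p ^ (n + 1)) ∧
      ∀ (E : Type) [Field E] [Algebra E ℂ_[p]],
        PowerSeries.coeff d (Eu (goodDeg k K) {x | x ∉ T}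
          (fun x => ((χ (n + 1) (frob (F (n + 1)) x) : ℂ_[p]ˣ) : ℂ_[p]))) ∈
            Set.range (algebraMap E ℂ_[p]) → (minpoly E ζ).natDegree ≤ m := by
  classical
  obtain ⟨x0, hx0, hx1⟩ := hT.exists_frob_ne T hS
  let s := EffF (goodDeg k K) {x | x ∉ T} x0.deg
  have hs0 : Finsupp.single x0 1 ∈ s := by
    rw [mem_EffF]
    constructor
    · intro x hx
      rw [Finsupp.single_apply_ne_zero] at hx
      rw [hx.1]; exact hx0
    · rw [Finsupp.weight_single]; simp
  let β : ∀ n, (Place k K →₀ ℕ) → (F n ≃ₐ[K] F n) := fun n D =>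
    @zw _ _ (hT.cg n) (frob (F n)) (nd D - Finsupp.single x0 1)
  have hβ : ∀ D ∈ s, ∃ j : ℕ, ∀ n, j ≤ n → β (n + 1) D ^ p = 1 → β (n + 1) D = 1 := by
    intro D hD
    by_cases h : ∀ n, β n D = 1
    · exact ⟨0, fun n _ _ => h _⟩
    · push Not at h
      obtain ⟨j, hj⟩ := h
      refine ⟨j, fun n hn h1 => absurd ?_ hj⟩
      obtain ⟨ρ, hρ, hρ', -⟩ := hT.exists_res (m := j) (n := n + 1) (by omega)
      have := hT.finite (n + 1)
      have := hT.isCyclic (n + 1)
      have h2 := map_eq_one_of_pow ρ hρ (j := 1) hp.out.pos (by omega) (hT.card _) (hT.card _)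
        (by rwa [pow_one])
      rw [← h2]
      letI := hT.cg j
      letI := hT.cg (n + 1)
      symm
      refine (map_zw (Γ := F (n + 1) ≃ₐ[K] F (n + 1)) (Γ' := F j ≃ₐ[K] F j) ρ _ _).trans
        (zw_congr fun x hx => hρ' x fun h3 => ?_)
      have h4 : x ∉ T := by
        by_cases h5 : x = x0
        · rwa [h5]
        · apply ((mem_EffF _).1 hD).1 x
          intro h6
          apply hx
          rw [Finsupp.sub_apply, nd_apply, h6, Finsupp.single_eq_of_ne h5]
          simp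
      exact hS x h4 ⟨j, h3⟩
  choose! j hj using hβ
  refine ⟨s.card, x0.deg, s.sup j, Finset.card_pos.2 ⟨_, hs0⟩, fun n hn => ?_⟩
  have := hT.finite (n + 1)
  have := hT.isCyclic (n + 1)
  have hinj := injective_of_orderOf (χ (n + 1)) (by rw [hχ _ (by omega), hT.card])
  obtain ⟨ρ, hρ, hρ', -⟩ := hT.exists_res (m := 1) (n := n + 1) (by omega)
  have h1 : orderOf (frob (F (n + 1)) x0) = p ^ (n + 1) :=
    orderOf_eq_of_map_ne_one ρ hρ hp.out (hT.card _) (hT.card _)
      (by rwa [hρ' x0 fun h => hS x0 hx0 ⟨1, h⟩])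
  have h2 : IsPrimitiveRoot ((χ (n + 1) (frob (F (n + 1)) x0) : ℂ_[p]ˣ) : ℂ_[p]) (p ^ (n + 1)) := by
    rw [IsPrimitiveRoot.coe_units_iff, ← h1, ← orderOf_injective _ hinj]
    exact IsPrimitiveRoot.orderOf _
  refine ⟨_, h2, fun E _ _ hE => ?_⟩
  rw [coeff_Eu] at hE
  letI := hT.cg (n + 1)
  have h3 : ∀ D : Place k K →₀ ℕ,
      wt (fun x => ((χ (n + 1) (frob (F (n + 1)) x) : ℂ_[p]ˣ) : ℂ_[p])) D =
        ((χ (n + 1) (β (n + 1) D * frob (F (n + 1)) x0) : ℂ_[p]ˣ) : ℂ_[p]) := by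
    intro D
    rw [← zw_nd, ← map_zw (Γ := F (n + 1) ≃ₐ[K] F (n + 1)) (χ (n + 1))]
    simp only [β]
    rw [zw_sub, zw_single, zpow_one, div_mul_cancel]
  refine natDegree_minpoly_le_card hp.out h2 s _ ?_ _ hs0 ?_ ?_ hE
  · intro D _
    rw [h3, ← Units.val_pow_eq_pow_val, ← map_pow, ← hT.card, pow_card_eq_one', map_one,
      Units.val_one]
  · rw [wt_single, pow_one]
  · intro D hD h
    rw [h3] at h ⊢
    rw [map_mul, Units.val_mul, mul_div_cancel_right₀ _ (Units.ne_zero _),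
      ← Units.val_pow_eq_pow_val, ← map_pow, Units.val_eq_one, ← map_one (χ (n + 1))] at h
    rw [hj D hD n ((Finset.le_sup hD).trans hn) (hinj h), one_mul]

theorem isIntegral_coeff_Eu {ι : Type*} {d : ι → ℕ} (hd : GoodDeg d) (U : Set ι) {A E : Type*}
    [CommRing A] [CommRing E] [Algebra A E] (c : ι → E) (hc : ∀ x, IsIntegral A (c x)) (m : ℕ) :
    IsIntegral A (PowerSeries.coeff m (Eu hd U c)) := by
  rw [coeff_Eu]
  refine IsIntegral.sum _ fun D _ => ?_
  exact IsIntegral.prod _ fun x _ => (hc x).pow _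

theorem lfun_eq [IsFF k K] {L : Type*} [Field L] [Algebra k L] [Algebra K L]
    (S : Set (Place k K)) (χ : (L ≃ₐ[K] L) →* ℂ_[p]ˣ) :
    lfun S χ = Eu (goodDeg k K) {x | x ∉ S} (fun x => ((χ (frob L x) : ℂ_[p]ˣ) : ℂ_[p])) := by
  have h := tprod_eq_Eu (E := ℂ_[p]) (goodDeg k K) {x | x ∉ S}
    (fun x => ((χ (frob L x) : ℂ_[p]ˣ) : ℂ_[p]))
  unfold lfun
  exact h

theorem real_bound {p n m e : ℕ} (hp : 1 < p) (hm : 0 < m) (h : p ^ n * (p - 1) ≤ e * m) :
    (1 / (2 * m) : ℝ) ≤ (e : ℝ) / (p : ℝ) ^ (n + 1) := by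
  have h1 : p ^ (n + 1) ≤ e * (2 * m) := by
    have h2 : p ^ (n + 1) ≤ 2 * (p ^ n * (p - 1)) := by
      rw [pow_succ, mul_left_comm]
      exact Nat.mul_le_mul_left _ (by omega)
    nlinarith
  have h2 : ((p : ℝ)) ^ (n + 1) ≤ e * (2 * m) := by exact_mod_cast h1
  have h3 : (0 : ℝ) < p := by exact_mod_cast (by omega : 0 < p)
  rw [div_le_div_iff₀ (by positivity) (by positivity), one_mul]
  exact h2

/-- The L-function version, given polynomials representing the L-functions. -/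
theorem IsZpTower.lmain (hT : IsZpTower p k F) (S : Set (Place k K)) (hS : S.Finite)
    (hS' : ramLocus k F ⊆ S) (χ : ∀ n, (F n ≃ₐ[K] F n) →* ℂ_[p]ˣ)
    (hχ : ∀ n, 1 ≤ n → orderOf (χ n) = p ^ n) (Λ : ℕ → Polynomial ℂ_[p])
    (hΛ : ∀ n, 1 ≤ n → (Λ n : PowerSeries ℂ_[p]) = lfun S (χ n)) :
    ∃ m N : ℕ, 0 < m ∧ ∀ n, N ≤ n → FiniteDimensional ℚ_[p] (rootField ℚ_[p] (Λ (n + 1))) ∧
      p ^ n * (p - 1) ≤ ramIndex (rootField ℚ_[p] (Λ (n + 1))) * m ∧
      p ^ n * (p - 1) ≤ finrank ℚ_[p] (rootField ℚ_[p] (Λ (n + 1))) * m := by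
  have := hT.ff
  obtain ⟨m, d, N, hm, h⟩ := hT.core hS.toFinset (fun x hx h => hx (hS.mem_toFinset.2 (hS' h))) χ hχ
  refine ⟨m, N, hm, fun n hn => ?_⟩
  obtain ⟨ζ, hζ, h1⟩ := h n hn
  have h2 := hΛ (n + 1) (by omega)
  rw [lfun_eq] at h2
  have h3 : ∀ j, (Λ (n + 1)).coeff j = PowerSeries.coeff j (Eu (goodDeg k K) {x | x ∉ S}
      (fun x => ((χ (n + 1) (frob (F (n + 1)) x) : ℂ_[p]ˣ) : ℂ_[p]))) := by
    intro j; rw [← h2, Polynomial.coeff_coe]
  have h4 : (Λ (n + 1)).coeff 0 = 1 := by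
    rw [h3, PowerSeries.coeff_zero_eq_constantCoeff_apply, constantCoeff_Eu]
  have hfin : FiniteDimensional ℚ_[p] (rootField ℚ_[p] (Λ (n + 1))) := by
    apply finiteDimensional_rootField
    · intro h0; rw [h0] at h4; simp at h4
    · intro j
      rw [h3]
      apply isIntegral_coeff_Eu
      intro x
      apply isIntegral_of_pow_eq_one (pow_pos hp.out.pos (n + 1))
      rw [← Units.val_pow_eq_pow_val, ← map_pow, ← hT.card, pow_card_eq_one', map_one,
        Units.val_one]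
  have h5 := h1 (rootField ℚ_[p] (Λ (n + 1))) (by
    have h6 : {x | x ∉ hS.toFinset} = {x | x ∉ S} := by ext; simp
    rw [h6, ← h3]
    exact ⟨⟨_, coeff_mem_of_roots (rootField ℚ_[p] (Λ (n + 1))).toSubfield _ h4
      (fun α h0 h1 => IntermediateField.subset_adjoin _ _ ⟨h0, h1⟩) d⟩, rfl⟩)
  refine ⟨hfin, (ramIndex_bound _ hζ).trans (Nat.mul_le_mul_left _ h5), ?_⟩
  refine (degree_bound hζ).trans ((natDegree_minpoly_le (E := rootField ℚ_[p] (Λ (n + 1)))
    (isIntegral_of_pow_eq_one (pow_pos hp.out.pos (n + 1)) hζ.pow_eq_one)).trans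
      (Nat.mul_le_mul_left _ h5))

end H735Z

namespace H735Z

theorem tendsto_of_bound {p m N : ℕ} (hp : 1 < p) (hm : 0 < m) (e : ℕ → ℕ)
    (h : ∀ n, N ≤ n → p ^ n * (p - 1) ≤ e (n + 1) * m) :
    Filter.Tendsto e Filter.atTop Filter.atTop := by
  rw [Filter.tendsto_atTop_atTop]
  intro b
  refine ⟨max N (b * m) + 1, fun n hn => ?_⟩
  obtain ⟨n, rfl⟩ : ∃ j, n = j + 1 := ⟨n - 1, by omega⟩
  have h1 := h n (by omega)
  have h2 : n < p ^ n := Nat.lt_pow_self hp
  have h3 : p ^ n ≤ p ^ n * (p - 1) := Nat.le_mul_of_pos_right _ (by omega)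
  have h4 : b * m ≤ e (n + 1) * m := by omega
  exact Nat.le_of_mul_le_mul_right h4 hm

theorem linear_of_bound {p m N : ℕ} (hp : 1 < p) (hm : 0 < m) (e : ℕ → ℕ)
    (h : ∀ n, N ≤ n → p ^ n * (p - 1) ≤ e (n + 1) * m) :
    ∃ c : ℝ, 0 < c ∧ ∃ N : ℕ, ∀ n, N ≤ n → c ≤ (e n : ℝ) / (p : ℝ) ^ n := by
  refine ⟨1 / (2 * m), by positivity, N + 1, fun n hn => ?_⟩
  obtain ⟨n, rfl⟩ : ∃ j, n = j + 1 := ⟨n - 1, by omega⟩
  exact real_bound hp hm (h n (by omega))

end H735Z
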